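import Pool.Agent.MP_fcd29e_an.H31.ST1

/-!
The local theorem in the ambient space, with the hypotheses in the agreed order.
-/

set_option autoImplicit false

open Pool.Agent.MP_fcd29e_an.H11

namespace Pool.Agent.MP_fcd29e_an.H31

theorem st1 (hHS : SHS) (hLV : SLV) (_hGR : SGR) (hQP : SQP) (hKC : SKC) (hCH : SCH) (hLO : SLO) :
    ST1 := H11.st1 hHS hLV hLO hQP hKC hCH

end Pool.Agent.MP_fcd29e_an.H31
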