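import Pool.Agent.MP_fcd29e_an.H31.HLa
import Pool.Agent.MP_fcd29e_an.H94.ECs3

/-! Hardy's inequality in dual form, near a boundary point. -/

set_option autoImplicit false

open MeasureTheory Complex Set Filter Topology Metric Pool.Agent.MP_fcd29e_an.H81
open scoped ContDiff ComplexConjugate ENNReal NNReal FourierTransform

namespace Pool.Agent.MP_fcd29e_an.H31

open H63.HGA

variable {N : ℕ} {ρ : E N → ℝ} {s c : ℝ}

theorem norm_dz (j : Fin N) (f : E N → ℂ) (z : E N) : ‖dz j f z‖ ≤ ‖fderiv ℝ f z‖ := by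
  have h1 : ‖(ee j : E N)‖ = 1 := by simp [ee]
  have h2 := (fderiv ℝ f z).le_opNorm (ee j)
  have h3 := (fderiv ℝ f z).le_opNorm (I • ee j)
  have h4 := norm_sub_le (fderiv ℝ f z (ee j)) (I * fderiv ℝ f z (I • ee j))
  rw [norm_smul, norm_I, h1] at h3
  rw [h1] at h2
  rw [norm_mul, norm_I] at h4
  rw [dz, norm_div, Complex.norm_ofNat]
  linarith

theorem tst_th (L : Lv2) (hρ : Dom ρ) {f : E N → ℂ} (hf : Test (E0 N) f) (c t : ℝ) :
    Tst fun y => th3 ρ c t y * f y :=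
  have := ((L.t1 N _ isOpen_E0 cone_E0.1).2.2.2.1 f hf).1 _ (th3_smooth hρ c t)
  ⟨this.1, this.2.1⟩

theorem test_zero {f : E N → ℂ} (hf : Test (E0 N) f) : f 0 = 0 :=
  image_eq_zero_of_notMem_tsupport fun h => hf.2.2 h rfl

theorem piece (L : Lv2) (h2 : StmtDY2) (hρ : Dom ρ) (hs : 0 < s) (hc : 0 < c) {M : ℕ} (hM : s < M)
    {g k : E N → ℂ} (hg : Hs s g) (hk : Tst k) {C₀ : ℝ} (hC : ∀ η, ‖𝓕 k η‖ ≤ C₀ * ‖η‖ ^ M)
    (l : Fin N) {D : (E N → ℂ) → E N → ℂ} (hD : ∀ w, Test (E0 N) w → Test (E0 N) (D w))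
    (hD' : ∀ w z, ‖D w z‖ ≤ ‖fderiv ℝ w z‖) :
    Bu (fun a : ℕ × (E N → ℂ) => Test (E0 N) a.2) (fun a => WI ρ s a.2) fun a =>
      ∫ x, g x * ∑ i ∈ Finset.range a.1,
        Cv (Sc (dy i) (dzb l k)) (fun y => th3 ρ c (dy i) y * D a.2 y) x := by
  obtain ⟨-, C₁, h₁⟩ := hg
  have tk := ((L.fa N k hk).2.2.2.2.2.1 l).2
  obtain ⟨C₂, h₂⟩ := h2 N s (M + 1) hs (by push_cast; linarith) (dzb l k) (7 * C₀) tk fun η =>
    ((L.fa N k hk).2.2.2.1 l η).2.trans ((mul_le_mul_of_nonneg_left (hC η)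
      (by positivity)).trans_eq (by ring))
  obtain ⟨C₃, h₃⟩ := wsum L hρ hs hc
  refine ⟨C₁ * (C₂ * C₃), fun ⟨J, w⟩ hw => ?_⟩
  have t := fun i => tst_th L hρ (hD w hw) c (dy i)
  refine (h₁ _ (tst_sum L _ fun i => tst_cv L tk (t i) (H47.dy_pos i))).trans ?_
  simp only [ENNReal.coe_mul, mul_assoc]
  refine mul_le_mul_right ((h₂ J _ t).trans (mul_le_mul_right ?_ _)) _
  refine h₃ J w _ (hD w hw).1.continuous (test_zero (hD w hw)) fun z => ?_
  nlinarith [hD' w z, norm_nonneg (D w z), sq_nonneg ‖w z‖]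

theorem piece0 (L : Lv2) (hρ : Dom ρ) (hs : 0 < s) (hc : 0 < c) {g k : E N → ℂ} (hg : Hs s g)
    (hk : Tst k) :
    Bu (fun a : ℕ × (E N → ℂ) => Test (E0 N) a.2) (fun a => WI ρ s a.2) fun a =>
      ∫ x, g x * Cv k (fun y => th3 ρ c 1 y * a.2 y) x := by
  obtain ⟨-, C₁, h₁⟩ := hg
  obtain ⟨C₃, h₃⟩ := wsum L hρ hs hc
  obtain ⟨-, -, -, -, b1, b2⟩ := L.fb N k (H47.tst_int hk)
  refine ⟨C₁ * (((∫ y, ‖k y‖) ^ 2).toNNReal * C₃), fun ⟨J, w⟩ hw => ?_⟩
  have t := tst_th L hρ hw c 1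
  have t2 := (b2 hk.2 _ t).1
  refine (h₁ _ t2).trans ?_
  simp only [ENNReal.coe_mul, mul_assoc]
  refine mul_le_mul_right (((L.fa N _ t2).2.2.1 s hs.le).trans
    ((b1 _ (t.1.continuous.memLp_of_hasCompactSupport t.2)).2.1.trans (mul_le_mul_right ?_ _))) _
  have := h₃ 1 w w hw.1.continuous (test_zero hw) fun z => by
    nlinarith [sq_nonneg ‖fderiv ℝ w z‖]
  simpa [dy] using this

theorem sc_one (k : E N → ℂ) : Sc 1 k = k := by
  funext y
  simp [Sc]

theorem hl (L : Lv2) (h2 : StmtDY2) (hk : StmtKER) (ht : StmtHT) : StmtHL := by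
  intro N ρ hρ s hs X XS XD p hp h0
  obtain ⟨M, hM⟩ := exists_nat_gt s
  obtain ⟨r, c, δ, v, hδ, S⟩ := shift L hρ hp h0 (T := M + 1) (by simp)
  obtain ⟨Φ, k, k', hΦ, Φ1, Φ0, hk, hdiv⟩ := hk N v δ hδ M
  have r0 := S.r0
  have far := S.far
  have bE : closedBall p (2 * r) ⊆ E0 N := ball_E0 r0 far (by linarith)
  obtain ⟨χ, hχ, χ1⟩ := H94.exists_cut (N := N) (r := ‖p‖ - 2 * r) (by linarith)
    (R := ‖p‖ + 2 * r) (by linarith)
  have T0 := (L.t1 N _ isOpen_E0 cone_E0.1).2.2.2.1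
  have XL := fun l => ((L.sbs N s hs.le).1 _ (XS l)).1
  have gH := fun l => XS l χ hχ
  have loc : ∀ f : E N → ℂ, tsupport f ⊆ closedBall p (2 * r) →
      Dv X f = ∑ l, ∫ z, χ z * X l z * dzb l f z := fun f hf =>
    Finset.sum_congr rfl fun l _ => integral_congr_ae (Eventually.of_forall fun z => by
      by_cases hz : z ∈ tsupport f
      · have h1 := hf hz
        rw [mem_closedBall, dist_eq_norm] at h1
        have h3 := abs_le.1 ((abs_norm_sub_norm_le z p).trans h1)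
        simp only [χ1 z (by linarith) (by linarith), one_mul]
      · simp only [dzb_zero l hz, mul_zero])
  choose C₀ hC₀ using fun j => (hk j).2.2.2
  obtain ⟨C, hC⟩ := Bu.sum Finset.univ fun l : Fin N =>
    (piece0 L hρ hs S.c0 (gH l) ((L.fa N Φ hΦ).2.2.2.2.2.1 l).2).add (Bu.sum Finset.univ fun j =>
      (piece L h2 hρ hs S.c0 hM (gH l) (hk j).1 (fun η => (hC₀ j η).1) l
        (fun w hw => ((T0 w hw).2.2.1 j).1) (norm_dz j)).add
      (piece L h2 hρ hs S.c0 hM (gH l) (hk j).2.1 (fun η => (hC₀ j η).2) l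
        (fun w hw => ((T0 w hw).2.2.1 j).2) (norm_dzb j)))
  refine ⟨r, r0, C, fun w hw hwp => ?_⟩
  have hw0 : Test (E0 N) w := ⟨hw.1, hw.2, hwp.trans
    ((ball_subset_closedBall.trans (closedBall_subset_closedBall (by linarith))).trans bE)⟩
  obtain ⟨t1, t2, t3⟩ := ht N Φ hΦ
  have sp : ∀ f : E N → ℂ, (∀ z, ‖f z‖ ≤ ‖w z‖ + ‖fderiv ℝ w z‖) → ∀ y, f y ≠ 0 → ‖y - p‖ ≤ r :=
    fun f hf y hy => by
      by_contra h
      have h1 : y ∉ tsupport w := fun h' => h (mem_ball_iff_norm.1 (hwp h')).le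
      have := hf y
      rw [image_eq_zero_of_notMem_tsupport h1, fderiv_of_notMem_tsupport ℝ h1, norm_zero, norm_zero,
        add_zero] at this
      exact hy (norm_le_zero_iff.1 this)
  have s0 := sp w fun z => le_add_of_nonneg_right (norm_nonneg _)
  have s1 := fun j => sp _ fun z => (norm_dz j w z).trans (le_add_of_nonneg_left (norm_nonneg _))
  have s2 := fun j => sp _ fun z => (norm_dzb j w z).trans (le_add_of_nonneg_left (norm_nonneg _))
  have cs : ∀ (f : E N → ℂ) (t : ℝ), (∀ y, f y ≠ 0 → ‖y - p‖ ≤ r) →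
      ∀ y, th3 ρ c t y * f y ≠ 0 → ‖y - p‖ ≤ r := fun f t h y hy => h y (right_ne_zero_of_mul hy)
  have ts : ∀ f : E N → ℂ, (∀ x ∉ closedBall p (2 * r), f x = 0) →
      tsupport f ⊆ closedBall p (2 * r) := fun f h =>
    closure_minimal (fun x hx => by_contra fun h' => hx (h x h')) isClosed_closedBall
  have dp := H47.dy_pos
  have dl := H47.dy_le
  have tT := fun J => tst_cv L hΦ hw (dp J)
  have sT := fun J => ts _ fun x hx => cv_supp S Φ0 s0 (dp J) (dl J) hx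
  have lim : Tendsto (fun J => Dv X (Cv (Sc (dy J) Φ) w)) atTop (𝓝 (Dv X w)) := by
    rw [loc w (hwp.trans (ball_subset_closedBall.trans
      (closedBall_subset_closedBall (by linarith))))]
    simp only [fun J => loc _ (sT J)]
    refine tendsto_finsetSum _ fun l _ => ?_
    have e : ∀ J, dzb l (Cv (Sc (dy J) Φ) w) = Cv (Sc (dy J) Φ) (dzb l w) := fun J =>
      have := (L.fa N Φ hΦ).2.2.2.2.2.2.1 _ (dp J)
      (((L.fb N _ (H47.tst_int this)).2.2.2.2.2 this.2 w hw).2.2 l).2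
    simp only [e]
    exact t1 Φ1 _ _ (gH l).1 ((L.fa N w hw).2.2.2.2.2.1 l).2
  refine le_of_tendsto' (ENNReal.tendsto_ofReal (lim.norm.pow 2)) fun J => ?_
  refine le_trans (le_of_eq ?_) (hC (J, w) hw0)
  congr 3
  -- the modified function
  set a : ℕ → Fin N → E N → ℂ := fun i j y => th3 ρ c (dy i) y * dz j w y with ha
  set b : ℕ → Fin N → E N → ℂ := fun i j y => th3 ρ c (dy i) y * dzb j w y with hb
  set u : E N → ℂ := fun y => th3 ρ c 1 y * w y with hu
  have ta : ∀ i j, Tst (a i j) := fun i j => tst_th L hρ ((T0 w hw0).2.2.1 j).1 c _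
  have tb : ∀ i j, Tst (b i j) := fun i j => tst_th L hρ ((T0 w hw0).2.2.1 j).2 c _
  have tu : Tst u := tst_th L hρ hw0 c 1
  have tA := fun i j => tst_cv L (hk j).1 (ta i j) (dp i)
  have tB := fun i j => tst_cv L (hk j).2.1 (tb i j) (dp i)
  have tU : Tst (Cv Φ u) := by simpa only [sc_one] using tst_cv L hΦ tu one_pos
  have add : ∀ f g : E N → ℂ, Tst f → Tst g → Tst fun y => f y + g y := fun f g hf hg =>
    ((L.fa N g hg).2.2.2.2.2.2.2.2.2 f hf).2
  have tS := fun i => tst_sum L Finset.univ fun j => add _ _ (tA i j) (tB i j)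
  have tF := fun i => tst_mul (contDiff_const (c := (dy i : ℂ))) (tS i)
  set W : E N → ℂ := fun x => Cv Φ u x + ∑ i ∈ Finset.range J, (dy i : ℂ) * ∑ j,
    (Cv (Sc (dy i) (k j)) (a i j) x + Cv (Sc (dy i) (k' j)) (b i j) x) with hW
  have tW : Tst W := add _ _ tU (tst_sum L _ tF)
  have zW : ∀ x ∉ closedBall p (2 * r), W x = 0 := fun x hx => by
    have e0 := cv_supp S Φ0 (cs _ 1 s0) one_pos le_rfl hx
    rw [sc_one] at e0
    simp only [hW, hu, ha, hb, e0,
      fun i j => cv_supp S (fun y hy => ((hk j).2.2.1 y hy).1) (cs _ (dy i) (s1 j)) (dp i) (dl i) hx,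
      fun i j => cv_supp S (fun y hy => ((hk j).2.2.1 y hy).2) (cs _ (dy i) (s2 j)) (dp i) (dl i) hx,
      add_zero, Finset.sum_const_zero, mul_zero]
  have eW : ∀ x, -(c * dy J / 2) ≤ ρ x → Cv (Sc (dy J) Φ) w x = W x := fun x hx => by
    have mono : ∀ t, dy J ≤ t → -(c * t / 2) ≤ ρ x := fun t h => by
      nlinarith [mul_le_mul_of_nonneg_left h S.c0.le]
    have e0 := cv_cut S Φ0 s0 one_pos le_rfl (mono 1 (dl J))
    rw [sc_one] at e0
    rw [t2 k k' (fun j => ⟨(hk j).1, (hk j).2.1⟩) hdiv w hw J x]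
    simp only [hW, hu, e0]
    congr 1
    refine Finset.sum_congr rfl fun i hi => ?_
    have m := mono (dy i) (inv_anti₀ (by positivity)
      (pow_le_pow_right₀ one_le_two (Finset.mem_range.1 hi).le))
    simp only [ha, hb,
      fun j => cv_cut S (fun y hy => ((hk j).2.2.1 y hy).1) (s1 j) (dp i) (dl i) m,
      fun j => cv_cut S (fun y hy => ((hk j).2.2.1 y hy).2) (s2 j) (dp i) (dl i) m]
  have tD : Tst fun x => Cv (Sc (dy J) Φ) w x - W x := ⟨(tT J).1.sub tW.1, (tT J).2.sub tW.2⟩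
  have sD : tsupport (fun x => Cv (Sc (dy J) Φ) w x - W x) ⊆
      closedBall p (2 * r) ∩ ρ ⁻¹' Iic (-(c * dy J / 2)) := by
    refine closure_minimal (fun x hx => ⟨by_contra fun h => hx ?_, by_contra fun h => hx ?_⟩)
      ((hρ.smooth.continuousOn.mono bE).preimage_isClosed_of_isClosed isClosed_closedBall
        isClosed_Iic)
    · simp only [zW x h, cv_supp S Φ0 s0 (dp J) (dl J) h, sub_zero]
    · simp only [eW x (not_le.1 h).le, sub_self]
  have e1 := Dv_add L XL tD tW (fun x hx => bE (sD hx).1) ((ts W zW).trans bE)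
  rw [XD _ ⟨tD.1, tD.2, fun x hx => ⟨bE (sD hx).1, lt_of_le_of_lt (sD hx).2
    (by linarith [mul_pos S.c0 (dp J)])⟩⟩, zero_add] at e1
  simp only [sub_add_cancel] at e1
  rw [e1, loc W (ts W zW)]
  refine Finset.sum_congr rfl fun l _ => ?_
  have df : ∀ f : E N → ℂ, Tst f → ∀ x, DifferentiableAt ℝ f x := fun f hf x =>
    hf.1.differentiable (by simp) x
  have tk := fun j => ((L.fa N _ (hk j).1).2.2.2.2.2.1 l).2
  have tk' := fun j => ((L.fa N _ (hk j).2.1).2.2.2.2.2.1 l).2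
  have e2 : ∀ x, dzb l W x = Cv (dzb l Φ) u x + ∑ j,
      (∑ i ∈ Finset.range J, Cv (Sc (dy i) (dzb l (k j))) (a i j) x +
        ∑ i ∈ Finset.range J, Cv (Sc (dy i) (dzb l (k' j))) (b i j) x) := fun x => by
    rw [hW, dzb_add l (df _ tU x) (df _ (tst_sum L _ tF) x), dzb_sum l _ fun i _ => df _ (tF i) x,
      (H47.cv_dz L hΦ tu l x).2]
    simp only [← Finset.sum_add_distrib]
    rw [Finset.sum_comm]
    congr 1
    refine Finset.sum_congr rfl fun i _ => ?_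
    rw [dzb_const_mul l _ (df _ (tS i) x), dzb_sum l _ fun j _ => df _ (add _ _ (tA i j) (tB i j)) x,
      Finset.mul_sum]
    refine Finset.sum_congr rfl fun j _ => ?_
    rw [dzb_add l (df _ (tA i j) x) (df _ (tB i j) x), mul_add,
      (H47.cv_sc L (hk j).1 (ta i j) (dp i) l x).2, (H47.cv_sc L (hk j).2.1 (tb i j) (dp i) l x).2]
  have ig : ∀ f : E N → ℂ, Tst f → Integrable fun z => χ z * X l z * f z := fun f hf =>
    (gH l).1.integrable_mul (hf.1.continuous.memLp_of_hasCompactSupport (p := 2) hf.2)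
  have i0 : Tst (Cv (dzb l Φ) u) := by
    simpa only [sc_one] using tst_cv L ((L.fa N Φ hΦ).2.2.2.2.2.1 l).2 tu one_pos
  have i1 := fun j => tst_sum L (Finset.range J) fun i => tst_cv L (tk j) (ta i j) (dp i)
  have i2 := fun j => tst_sum L (Finset.range J) fun i => tst_cv L (tk' j) (tb i j) (dp i)
  simp only [e2]
  rw [← Finset.sum_congr rfl fun j _ => integral_add (ig _ (i1 j)) (ig _ (i2 j)),
    ← integral_finsetSum _ fun j _ => (ig _ (i1 j)).fun_add (ig _ (i2 j)),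
    ← integral_add (ig _ i0) (integrable_finsetSum _ fun j _ => (ig _ (i1 j)).fun_add (ig _ (i2 j)))]
  simp only [mul_add, Finset.mul_sum (s := Finset.univ)]

end Pool.Agent.MP_fcd29e_an.H31
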