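import Pool.Agent.MP_fcd29e_an.H31.LBa
import Pool.Agent.MP_fcd29e_an.H54.LB

/-! Solving for line bundles in degree `n - 1`, real Sobolev order. -/

set_option autoImplicit false

open MeasureTheory Complex Set Filter Topology Metric Pool.Agent.MP_fcd29e_an.H81
open scoped ContDiff ComplexConjugate ENNReal NNReal

namespace Pool.Agent.MP_fcd29e_an.H31

open H54

/-- The potentials of the corrected field. -/
theorem pots (L : Lv2) (he : StmtECs) (hg : StmtHG) (h1 : StmtDV1) (h2 : StmtDV2) (ho : StmtORIs)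
    (hk : StmtTKw) {N : ℕ} (hN : 3 ≤ N) {ρ φ : E N → ℝ} (hρ : Dom ρ) (hφ : PHI ρ φ) {s : ℝ}
    (hs : 0 < s) {m : ℤ} (hm1 : -(N : ℤ) ≤ m) (hm2 : m ≤ -1) {X : Fin N → E N → ℂ}
    (XS : ∀ l, SobH s (X l)) (XH : ∀ l, Hom (E0 N) m (1 - N) (X l))
    (zX : ∀ z, z ≠ 0 → ∑ l, z l * X l z = 0) (XD : ∀ ψ, Test (Om ρ) ψ → Dv X ψ = 0) :
    ∃ Y : Fin N → Fin N → E N → ℂ, (∀ l j, SobH s (Y l j) ∧ Hom (E0 N) m (1 - N + 1) (Y l j)) ∧
      ∀ ψ, Test (Om ρ) ψ → (∀ j, ∑ l, ∫ z, Y l j z * dzb l ψ z = 0) ∧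
        ∀ l, ∑ j, ∫ z, Y l j z * dzb j ψ z = -∫ z, X l z * ψ z := by
  obtain ⟨S1, S2, -, -, -, S6⟩ := L.sbs N s hs.le
  obtain ⟨oO, -, cO, -⟩ := L.c1 _ ρ hρ
  obtain ⟨⟨κ, hκ⟩, T3⟩ := L.t3
  have T0 := L.t1 N _ isOpen_E0 cone_E0.1
  have TO := L.t1 N _ oO cO.1
  have sub : Om ρ ⊆ E0 N := fun z hz => hz.1
  have int0 : ∀ g ψ, SobH s g → Test (Om ρ) ψ → Integrable fun z => g z * ψ z :=
    fun g ψ hg hψ => ((T0.1 g (S1 g hg).1).2.2.1 ψ hψ.1.continuous hψ.2.1 (hψ.2.2.trans sub)).1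
  have XL := fun l => (S1 _ (XS l)).1
  obtain ⟨A₀, B, hA₀, hB, hD₀⟩ := h1 N hN ρ φ hρ hφ s hs m X hm1 (fun l => ⟨XL l, XH l⟩) zX
    (hg N ρ hρ s hs X XS XD)
  obtain ⟨A, hA, hD₁, hF⟩ := h2 N (by omega) ρ hρ κ hκ s hs.le m A₀ B hA₀ hB
  have AL := fun l => S6 ρ hρ _ (hA l).1
  have BL := fun l i => S6 ρ hρ _ (hB l i).1
  have XI := fun l => (T3 N).2.1 _ _ _ (XL l) (XH l) (by omega) (by omega)
  have AI := fun l => (T3 N).2.1 _ _ _ (AL l) (hA l).2 (by omega) (by omega)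
  have BI := fun l i => (T3 N).2.1 _ _ _ (BL l i) (hB l i).2 (by omega) (by omega)
  choose U U1 U2 U3 using fun l j => (hk N ρ hρ s hs _ _ _ (hA l).1 (AI l) (hA l).2 j).1
  choose V V1 V2 V3 using fun l j i =>
    (hk N ρ hρ s hs _ _ _ (hB l i).1 (BI l i) (hB l i).2 j).2 i
  have ES := fun l j => he N s hs.le j _ (XS l) (XI l)
  have VS := fun l j => S2 _ Finset.univ _ fun i _ => V1 l j i
  have key : ∀ l j ψ, Test (Om ρ) ψ →
      ∫ z, (Ec j (X l) z + U l j z + ∑ i, V l j i z) * ψ z = -LL X A B l j ψ := by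
    intro l j ψ hψ
    have i1 := int0 _ _ (ES l j) hψ
    have i2 := int0 _ _ (U1 l j) hψ
    have i3 := fun i => int0 _ _ (V1 l j i) hψ
    have i4 : Integrable fun z => Ec j (X l) z * ψ z + U l j z * ψ z := i1.add i2
    simp only [add_mul, Finset.sum_mul]
    rw [integral_add i4 (integrable_finsetSum _ fun i _ => i3 i), integral_add i1 i2,
      integral_finsetSum _ fun i _ => i3 i,
      ((((L.bm2 N (by omega)).2.2 _ (XI l)) j).2.2 ψ (tst_of hψ)).2, U3 l j ψ hψ, LL]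
    simp only [fun i => V3 l j i ψ hψ]
    ring
  refine ⟨fun l j z => Ec j (X l) z + U l j z + ∑ i, V l j i z, fun l j => ⟨?_, ?_⟩,
    fun ψ hψ => ?_⟩
  · exact ((S1 _ ((S1 _ (ES l j)).2.1 _ (U1 l j)).1).2.1 _ (VS l j)).1
  · intro c hc z hz
    have := fun i => V2 l j i c hc z hz
    simp only [add_sub_cancel_right] at this
    simp only [H16.ec_hom L.toLv0 (XH l) j c hc z, U2 l j c hc z hz, this, ← Finset.mul_sum]
    ring
  · have t := fun l => ((TO.2.2.2.1 ψ hψ).2.2.1 l).2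
    refine ⟨fun j => ?_, fun l => ?_⟩
    · simp only [fun l => key l j _ (t l), Finset.sum_neg_distrib]
      rw [ll_closed L ho hN hm1 hm2 hκ (fun l => ⟨XL l, XH l⟩) (fun l => ⟨AL l, (hA l).2⟩)
        (fun l i => ⟨BL l i, (hB l i).2⟩) zX (fun ψ hψ => (hD₀ ψ hψ).trans (hD₁ ψ hψ).symm) hF
        (tst_of hψ) j, neg_zero]
    · simp only [fun j => key l j _ (t j), Finset.sum_neg_distrib]
      rw [ll_sum L (by omega) l (XI l) ⟨AI l, (hA l).1.2.1⟩ (fun i => ⟨BI l i, (hB l i).1.2.1⟩) hψ]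

theorem lbs (L1 : Lv1) (L : Lv2) (he : StmtECs) (hg : StmtHG) (h1 : StmtDV1) (h2 : StmtDV2)
    (ho : StmtORIs) (hk : StmtTKw) : StmtLBs := by
  intro q ρ φ hρ hφ s hs m hm1 hm2 f hf hfS hfD
  obtain ⟨oO, -, cO, -⟩ := L.c1 _ ρ hρ
  obtain ⟨S1, S2, -⟩ := L.sbs (q + 3) s hs.le
  have z0 : (0 : E (q + 3)) ∉ E0 (q + 3) := cone_E0.1
  have sub : Om ρ ⊆ E0 (q + 3) := fun z hz => hz.1
  have T0 := L.t1 _ _ isOpen_E0 z0
  have TO := L.t1 _ _ oO cO.1
  have toO : ∀ g, L2 (E0 (q + 3)) g → L2 (Om ρ) g := fun g hg => (T0.1 g hg).2.2.2.2.2.2 _ sub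
  have intO : ∀ g ψ, SobH s g → Test (Om ρ) ψ → (Integrable fun z => g z * ψ z) ∧
      ∫ z in Om ρ, g z * ψ z = ∫ z, g z * ψ z :=
    fun g ψ hg hψ => (TO.1 g (toO g (S1 g hg).1)).2.2.1 ψ hψ.1.continuous hψ.2.1 hψ.2.2
  have tdz : ∀ ψ, Test (Om ρ) ψ → ∀ l, Test (Om ρ) (dzb l ψ) :=
    fun ψ hψ l => ((TO.2.2.2.1 ψ hψ).2.2.1 l).2
  have cm : ∀ (c : ℂ) (g : E (q + 3) → ℂ), SobH s g → SobH s fun z => c * g z :=
    fun c g hg => (S1 g hg).2.2 (fun _ => c) contDiffOn_const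
  have A2 := L.al2 (q + 2)
  set h : Arr (q + 3) (q + 1 + 1) := wd thb f with hh
  have falt : ∀ z : E (q + 3), z ≠ 0 → altA fun J => f J z := fun z hz J σ => hf.alt J σ z hz
  have halt : ∀ z : E (q + 3), z ≠ 0 → altA fun J => h J z := fun z hz =>
    ((L.al1 (q + 3) (q + 1) 0 fun j => thb j z).1 _).1 (falt z hz)
  have hform : ∀ J, h J = fun z => ∑ a : Fin (q + 1 + 1),
      (-1) ^ (a : ℕ) * (thb (J a) z * f (a.removeNth J) z) := fun J => by
    funext z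
    simp only [hh, wd, wdA, mul_assoc]
  have hhom : ∀ J, Hom (E0 (q + 3)) m (1 - (q + 3 : ℕ)) (h J) := fun J => by
    rw [hform, show (1 - (q + 3 : ℕ) : ℤ) = -(q + 1 : ℕ) - 1 by push_cast; ring]
    exact hom_sum _ fun a => hom_const_mul (hom_thb (hf.hom _) _) _
  have hS : ∀ J, SobH s (h J) := fun J => by
    rw [hform]
    exact S2 _ _ _ fun a _ => cm _ _ ((S1 _ (hfS _)).2.2 _ (contDiffOn_thb _))
  have hL : ∀ J, L2 (E0 (q + 3)) (h J) := fun J => (S1 _ (hS J)).1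
  have fL : ∀ J, L2 (E0 (q + 3)) (f J) := fun J => (S1 _ (hfS J)).1
  have hD : DB (Om ρ) h fun J z => -wd thb (0 : Arr (q + 3) (q + 1 + 1)) J z :=
    (((L1.frm _ (q + 1) _ oO cO.1).1 f 0 hfD).2.2.2 (fun J => toO _ (fL J))
      fun J => TO.2.2.1 _ continuousOn_const).2.2
  let X : Fin (q + 3) → E (q + 3) → ℂ := fun l z => (-1) ^ (l : ℕ) * h l.succAbove z
  have XS : ∀ l, SobH s (X l) := fun l => cm _ _ (hS _)
  have XD : ∀ ψ, Test (Om ρ) ψ → Dv X ψ = 0 := fun ψ hψ => by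
    have h3 := fun l => intO _ _ (XS l) (tdz ψ hψ l)
    have h4 : ∫ z in Om ρ, ∑ l, X l z * dzb l ψ z = 0 := by
      refine Eq.trans ?_ ((hD id ψ hψ).trans ?_)
      · rfl
      · simp [wd, wdA]
    rw [integral_finsetSum _ fun l _ => (h3 l).1.integrableOn] at h4
    simpa only [Dv, fun l => (h3 l).2] using h4
  have zX : ∀ z : E (q + 3), z ≠ 0 → ∑ l, z l * X l z = 0 := fun z hz => by
    have h1 := ((A2.1 _ (halt z hz)).1 (fun j => z j) id)
    have h2 := ((L.al1 (q + 3) (q + 1) 0 fun j => z j).1 fun J => f J z).2.2.2.2.2.2.2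
      ((‖z‖ ^ 2 : ℝ) : ℂ)⁻¹ id
    have h3 : (fun J => h J z) =
        wdA (fun j => ((‖z‖ ^ 2 : ℝ) : ℂ)⁻¹ * z j) fun J => f J z := by
      funext J
      simp only [hh, wd, thb, div_eq_inv_mul]
    rw [eps_id, one_mul] at h1
    rw [← h3] at h2
    exact h1.symm.trans h2
  obtain ⟨Y, hY, YD⟩ := pots L he hg h1 h2 ho hk (by omega) hρ hφ hs hm1 hm2 XS
    (fun l => hom_const_mul (hhom _) _) zX XD
  let y : Arr (q + 3) (q + 1) := fun J x => ∑ j, ∑ l,
    eps (Fin.cons l (Fin.cons j J : Fin (q + 1 + 1) → Fin (q + 3))) * Y l j x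
  have yH : ∀ J, Hom (E0 (q + 3)) m (-(q + 1 : ℕ)) (y J) := fun J => by
    rw [show (-(q + 1 : ℕ) : ℤ) = 1 - (q + 3 : ℕ) + 1 by push_cast; ring]
    exact hom_sum _ fun j => hom_sum _ fun l => hom_const_mul (hY l j).2 _
  have yA : ∀ z, altA fun J => y J z := fun z J σ => by
    simp only [y]
    rw [Finset.mul_sum]
    refine Finset.sum_congr rfl fun j _ => ?_
    simp only [mul_comm _ (Y _ j z)]
    exact ((L.al1 (q + 3) (q + 1) 0 0).2 _ (A2.2 fun l => Y l j z).1).2.2.1 j J σ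
  have yS : ∀ J, SobH s (y J) := fun J =>
    S2 _ _ _ fun j _ => S2 _ _ _ fun l _ => cm _ _ (hY l j).1
  have yL : ∀ J, L2 (E0 (q + 3)) (y J) := fun J => (S1 _ (yS J)).1
  have yD : DB (Om ρ) y h := by
    intro J ψ hψ
    obtain ⟨Y1, Y2⟩ := YD ψ hψ
    have i1 := fun l j k => intO _ _ (hY l j).1 (tdz ψ hψ k)
    have e1 : ∀ z, ∑ a : Fin (q + 1 + 1), (-1) ^ (a : ℕ) * y (a.removeNth J) z * dzb (J a) ψ z =
        ∑ j, ∑ l, (eps (Fin.cons l J) * (Y l j z * dzb j ψ z) -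
          eps (Fin.cons j J) * (Y l j z * dzb l ψ z)) := fun z => by
      simp only [y, Finset.mul_sum, Finset.sum_mul]
      rw [Finset.sum_comm]
      refine Finset.sum_congr rfl fun j _ => ?_
      rw [Finset.sum_comm]
      refine Finset.sum_congr rfl fun l _ => ?_
      have := eps_three L.al1 q (fun k => Y l j z * dzb k ψ z) l j J
      rw [mul_comm (eps _), mul_comm (eps _), ← this]
      exact Finset.sum_congr rfl fun a _ => by ring
    have e2 : ∫ z in Om ρ, h J z * ψ z = ∑ l, eps (Fin.cons l J) * ∫ z, X l z * ψ z := by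
      have i2 := fun l => intO _ _ (XS l) hψ
      simp only [fun l => (i2 l).2.symm, ← integral_const_mul]
      rw [← integral_finsetSum _ fun l _ => (i2 l).1.integrableOn.const_mul _]
      refine setIntegral_congr_fun oO.measurableSet fun z hz => ?_
      simp only [← mul_assoc, ← Finset.sum_mul, X]
      rw [← star_sum L.al1 L.al2 q (halt z hz.1) J]
      simp only [mul_assoc]
    have i3 := fun l j => ((i1 l j j).1.integrableOn (s := Om ρ)).const_mul (eps (Fin.cons l J))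
    have i4 := fun l j => ((i1 l j l).1.integrableOn (s := Om ρ)).const_mul (eps (Fin.cons j J))
    have i5 : ∀ l j, Integrable (fun z => eps (Fin.cons l J) * (Y l j z * dzb j ψ z) -
        eps (Fin.cons j J) * (Y l j z * dzb l ψ z)) (volume.restrict (Om ρ)) :=
      fun l j => (i3 l j).sub (i4 l j)
    simp only [e1]
    rw [e2, integral_finsetSum _ fun j _ => integrable_finsetSum _ fun l _ => i5 l j]
    simp only [fun j => integral_finsetSum Finset.univ fun l _ => i5 l j]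
    simp only [fun l j => integral_sub (i3 l j) (i4 l j), integral_const_mul,
      fun l j k => (i1 l j k).2]
    simp only [Finset.sum_sub_distrib, ← Finset.mul_sum, Y1, mul_zero, Finset.sum_const_zero,
      sub_zero]
    rw [Finset.sum_comm]
    simp only [← Finset.mul_sum, Y2, mul_neg, Finset.sum_neg_distrib]
  have F0 := L1.frm _ q _ oO cO.1
  have uD := (F0.1 _ _ (F0.2.2.2 m y h cO yD
    (fun J => ⟨toO _ (yL J), fun c hc z hz => yH J c hc z (sub hz)⟩)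
    (fun J => toO _ (hL J)) fun z _ => yA z)).2.2.1 (-1)
  have uform : ∀ J, (fun z => -1 * ib y J z) =
      fun z => -1 * ∑ l, conj (z l) * y (Fin.cons l J) z := fun J => rfl
  refine ⟨fun J z => -1 * ib y J z, ⟨fun J => ?_, fun J σ z _ => ?_, fun J a z _ => ?_⟩,
    fun J => ?_, (F0.1 _ _ uD).1 _ f (fun J => Eventually.of_forall fun _ _ => rfl) fun J => ?_⟩
  · rw [uform, show (-(q : ℕ) : ℤ) = -(q + 1 : ℕ) + 1 by push_cast; ring]
    exact hom_const_mul (hom_sum _ fun l => hom_conj (yH _) l) _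
  · have := ((L.al1 (q + 3) q (fun l => conj (z l)) 0).2 _ (yA z)).1 J σ
    simp only [ib]
    rw [this]; ring
  · have := ((L.al1 (q + 3) q (fun l => conj (z l)) 0).2 _ (yA z)).2.1 J a
    simp only [ib, mul_left_comm _ (-1 : ℂ), ← Finset.mul_sum]
    rw [this, mul_zero]
  · beta_reduce
    rw [uform]
    refine cm _ _ (S2 _ _ _ fun l _ => ?_)
    exact (S1 _ (yS _)).2.2 (fun z => conj (z l))
      (conjCLE.contDiff.comp (contDiff_coord l)).contDiffOn
  · refine Eventually.of_forall fun z hz => ?_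
    have h1 := ((L.al1 (q + 3) (q + 1) (fun l => conj (z l)) fun j => thb j z).1
      fun J => f J z).2.1 (fun J a => hf.hor J a z hz.1) J
    have h2 : ∑ l, conj (z l) * thb l z = 1 := by
      have h3 : ((‖z‖ ^ 2 : ℝ) : ℂ) ≠ 0 := by
        exact_mod_cast pow_ne_zero 2 (norm_ne_zero_iff.2 hz.1)
      rw [← div_self h3]
      nth_rewrite 1 [norm_sq_eq]
      rw [Finset.sum_div]
      exact Finset.sum_congr rfl fun l _ => by simp only [thb]; ring
    rw [h2, one_mul] at h1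
    rw [← h1, neg_one_mul, neg_neg]
    rfl

end Pool.Agent.MP_fcd29e_an.H31
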