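import Pool.Agent.MP_fcd29e_an.H81.Spec2

/-!
The kernel of the Newton potential of the current `S`.
-/

set_option autoImplicit false

open Pool.Agent.MP_fcd29e_an.H81 MeasureTheory Complex Set Filter Topology Metric
open scoped ContDiff ComplexConjugate ENNReal NNReal

namespace Pool.Agent.MP_fcd29e_an.H31

variable {N : ℕ}

/-- The majorant on a complex line. -/
noncomputable def gs (s : ℝ) (c : ℂ) : ℝ := (‖c‖ * (s + ‖c‖) ^ 2)⁻¹

theorem gs_nonneg {s : ℝ} (c : ℂ) : 0 ≤ gs s c := by unfold gs; positivity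

theorem gs_one_int : Integrable (gs 1) := by
  have hm : Measurable (gs 1) := by unfold gs; fun_prop
  rw [← integrableOn_univ, ← union_compl_self (ball (0 : ℂ) 1)]
  refine IntegrableOn.union ?_ ?_
  · refine integrableOn_ball_of_norm_le_rpow (C := 1) (α := 1) (by simp) (by simp)
      (ae_of_all _ fun c => ?_) hm.aestronglyMeasurable
    rw [Real.norm_of_nonneg (gs_nonneg c), one_mul, Real.rpow_neg_one, gs]
    rcases (norm_nonneg c).eq_or_lt with h | h
    · simp [← h]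
    · refine inv_anti₀ h (le_mul_of_one_le_right h.le ?_)
      nlinarith
  · refine Integrable.mono' (g := fun c : ℂ => 2 * (1 + ‖c‖) ^ (-(3 : ℝ)))
      ((integrable_one_add_norm (by simp; norm_num)).const_mul 2).integrableOn
      hm.aestronglyMeasurable ?_
    filter_upwards [ae_restrict_mem measurableSet_ball.compl] with c hc
    have h1 : 1 ≤ ‖c‖ := by simpa using hc
    rw [Real.norm_of_nonneg (gs_nonneg c), Real.rpow_neg (by positivity), gs,
      show (3 : ℝ) = (3 : ℕ) by norm_num, Real.rpow_natCast, ← div_eq_mul_inv,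
      inv_eq_one_div, div_le_div_iff₀ (by positivity) (by positivity)]
    nlinarith [sq_nonneg (1 + ‖c‖)]

theorem gs_scale {s : ℝ} (hs : 0 < s) (c : ℂ) : gs s c = (s ^ 3)⁻¹ * gs 1 (s⁻¹ • c) := by
  simp only [gs, norm_smul, Real.norm_of_nonneg (inv_pos.2 hs).le]
  rw [← mul_inv]
  congr 1
  field_simp

theorem gs_int {s : ℝ} (hs : 0 < s) : Integrable (gs s) := by
  have := (gs_one_int.comp_smul (inv_ne_zero hs.ne')).const_mul (s ^ 3)⁻¹
  exact this.congr (ae_of_all _ fun c => (gs_scale hs c).symm)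

theorem gs_integral {s : ℝ} (hs : 0 < s) : ∫ c, gs s c = (∫ c, gs 1 c) / s := by
  simp only [gs_scale hs]
  rw [integral_const_mul, Measure.integral_comp_smul volume (gs 1) s⁻¹]
  simp only [Complex.finrank_real_complex, inv_pow, inv_inv, smul_eq_mul]
  rw [abs_of_pos (by positivity)]
  field_simp

/-- The derivative of the kernel. -/
noncomputable def DE (l j : Fin N) (w : E N) : ℂ :=
  -((cN N : ℂ) * N * conj (w j) * conj (w l) / (‖w‖ ^ (2 * N + 2) : ℝ))

theorem dz_Ek (l j : Fin N) {w : E N} (hw : w ≠ 0) : dz l (Ek j) w = DE l j w := by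
  have hn : 0 < ‖w‖ := norm_pos_iff.2 hw
  have e : Ek j = fun y : E N => conj (y j) * cx (fun y : E N => cN N * ((‖y‖ ^ 2) ^ N)⁻¹) y := by
    funext y; simp only [Ek, cx]; push_cast; rw [← pow_mul]; ring
  have hr : DifferentiableAt ℝ (fun y : E N => ‖y‖ ^ 2) w :=
    (contDiff_norm_sq ℝ (n := 1)).differentiable (by simp) w
  have hχ : HasDerivAt (fun s : ℝ => cN N * (s ^ N)⁻¹)
      (cN N * (-(N * (‖w‖ ^ 2) ^ (N - 1)) / ((‖w‖ ^ 2) ^ N) ^ 2)) (‖w‖ ^ 2) :=
    ((hasDerivAt_pow N _).fun_inv (by positivity)).const_mul _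
  have hd : DifferentiableAt ℝ (cx fun y : E N => cN N * ((‖y‖ ^ 2) ^ N)⁻¹) w :=
    ofRealCLM.differentiableAt.comp w
      (DifferentiableAt.comp (f := fun y : E N => ‖y‖ ^ 2) w hχ.differentiableAt hr)
  rw [e, dz_mul l (differentiableAt_conj (ContDiffAt.da (contDiff_coord j).contDiffAt)) hd,
    dz_coord_conj, dz_comp_real l hr hχ, dz_normSq, DE]
  obtain ⟨n, rfl⟩ : ∃ n, N = n + 1 := ⟨N - 1, by have := l.pos; omega⟩
  have : ((‖w‖ : ℝ) : ℂ) ≠ 0 := by exact_mod_cast hn.ne'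
  simp only [Nat.add_sub_cancel]
  push_cast
  field_simp
  ring

theorem coord_le (w : E N) (j : Fin N) : ‖w j‖ ≤ ‖w‖ := PiLp.norm_apply_le w j

theorem norm_DE (hc : 0 < cN N) (l j : Fin N) {w : E N} (hw : w ≠ 0) :
    ‖DE l j w‖ ≤ cN N * N / ‖w‖ ^ (2 * N) := by
  have hn : 0 < ‖w‖ := norm_pos_iff.2 hw
  simp only [DE, norm_neg, norm_div, norm_mul, Complex.norm_real, RCLike.norm_conj,
    Complex.norm_natCast, Real.norm_of_nonneg hc.le]
  rw [Real.norm_of_nonneg (by positivity), div_le_div_iff₀ (by positivity) (by positivity),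
    pow_add]
  have h := mul_le_mul (coord_le w j) (coord_le w l) (norm_nonneg _) hn.le
  have : cN N * N * ‖w‖ ^ (2 * N) * (‖w j‖ * ‖w l‖) ≤ cN N * N * ‖w‖ ^ (2 * N) * (‖w‖ * ‖w‖) :=
    mul_le_mul_of_nonneg_left h (by positivity)
  nlinarith

theorem meas_coord (j : Fin N) : Measurable fun w : E N => w j :=
  (contDiff_coord (n := 0) j).continuous.measurable

theorem meas_DE (l j : Fin N) : Measurable (DE l j) := by
  have h := fun j => continuous_conj.measurable.comp (meas_coord (N := N) j)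
  exact (((measurable_const.mul (h j)).mul (h l)).div
    (measurable_ofReal.comp (measurable_norm.pow_const _))).neg

theorem meas_dz (j : Fin N) (f : E N → ℂ) : Measurable (dz j f) :=
  ((measurable_fderiv_apply_const ℝ f _).sub
    (measurable_const.mul (measurable_fderiv_apply_const ℝ f _))).div_const 2

theorem meas_PP (ρ : E N → ℝ) (j k : Fin N) : Measurable fun z => PP ρ z j k := by
  have h := fun j => continuous_conj.measurable.comp (meas_coord (N := N) j)
  refine (measurable_const.sub (((meas_coord j).mul (h k)).div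
    (measurable_ofReal.comp (measurable_norm.pow_const _)))).sub
    (((continuous_conj.measurable.comp (meas_dz j _)).mul (meas_dz k _)).div
      (measurable_ofReal.comp ?_))
  exact Finset.measurable_sum _ fun i _ => (meas_dz i _).norm.pow_const 2

/-- The kernel. -/
noncomputable def GG (ρ : E N → ℝ) (j k : Fin N) (x y : E N) : ℂ :=
  ∑ l, PP ρ x l k * DE l j (x - y) - ((N : ℂ) - 2) * (conj (x k) * Ek j (x - y)) / (‖x‖ ^ 2 : ℝ)

theorem meas_GG (ρ : E N → ℝ) (j k : Fin N) (hE : Measurable (Ek j : E N → ℂ)) :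
    Measurable fun q : (E N × ℂ) × E N => GG ρ j k (q.1.2 • q.1.1) q.2 := by
  have hx : Measurable fun q : (E N × ℂ) × E N => q.1.2 • q.1.1 :=
    (by fun_prop : Continuous fun q : (E N × ℂ) × E N => q.1.2 • q.1.1).measurable
  have hw := hx.sub measurable_snd
  refine (Finset.measurable_sum _ fun l _ => ((meas_PP ρ l k).comp hx).mul
    ((meas_DE l j).comp hw)).sub ((measurable_const.mul
      ((continuous_conj.measurable.comp ((meas_coord k).comp hx)).mul (hE.comp hw))).div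
        (measurable_ofReal.comp (hx.norm.pow_const 2)))

theorem infDist_zero {ρ : E N → ℝ} {K : Set (E N)} (hK : KS ρ K) : infDist 0 K = 0 := by
  obtain ⟨z, hz⟩ := hK.ne
  refine le_antisymm (le_of_forall_pos_le_add fun ε hε => ?_) infDist_nonneg
  have h1 : 0 < ‖z‖ + 1 := by positivity
  have h2 := infDist_le_dist_of_mem (x := (0 : E N))
    (hK.cone.2 ((ε / (‖z‖ + 1) : ℝ) : ℂ) (by exact_mod_cast (div_pos hε h1).ne') z hz)
  rw [dist_zero_left, norm_smul, Complex.norm_real, Real.norm_of_nonneg (div_pos hε h1).le] at h2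
  refine h2.trans ?_
  rw [zero_add, div_mul_eq_mul_div, div_le_iff₀ h1]
  nlinarith

theorem infDist_smul {ρ : E N → ℝ} {K : Set (E N)} (hK : KS ρ K) {z : E N} (hz : z ∈ K) (c : ℂ) :
    infDist (c • z) K = 0 := by
  by_cases hc : c = 0
  · rw [hc, zero_smul, infDist_zero hK]
  · exact infDist_zero_of_mem (hK.cone.2 c hc z hz)

theorem infDist_le_norm {ρ : E N → ℝ} {K : Set (E N)} (hK : KS ρ K) (y : E N) :
    infDist y K ≤ ‖y‖ := by
  have := infDist_le_infDist_add_dist (x := y) (y := 0) (s := K)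
  rwa [infDist_zero hK, zero_add, dist_zero_right] at this

theorem GG_bound (L : Lv0) {ρ : E N → ℝ} {K : Set (E N)} (hN : 2 ≤ N) (hρ : Dom ρ) (hK : KS ρ K) :
    ∃ C, 0 ≤ C ∧ ∀ j k, ∀ z ∈ K, ‖z‖ = 1 → ∀ c : ℂ, c ≠ 0 → ∀ y, 0 < infDist y K →
      ‖GG ρ j k (c • z) y‖ ≤ C * ‖y‖ ^ 3 / infDist y K ^ (2 * N) * gs ‖y‖ c := by
  obtain ⟨hc, hE, -⟩ := L.bm1 N (by omega)
  obtain ⟨n, rfl⟩ : ∃ n, N = n + 2 := ⟨N - 2, by omega⟩
  refine ⟨((n + 2 : ℕ) * (cN (n + 2) * (n + 2 : ℕ)) + n * cN (n + 2)) * 3 ^ (2 * n + 4),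
    by positivity, fun j k z hz h1 c hc0 y hd => ?_⟩
  set d := infDist y K
  set s := ‖y‖
  set x := c • z with hx
  have hxK : x ∈ K := hK.cone.2 c hc0 z hz
  have hx0 : x ≠ 0 := fun h => hK.cone.1 (h ▸ hxK)
  have hxn : ‖x‖ = ‖c‖ := by rw [hx, norm_smul, h1, mul_one]
  have hcn : 0 < ‖c‖ := norm_pos_iff.2 hc0
  have hds : d ≤ s := infDist_le_norm hK y
  have hs : 0 < s := hd.trans_le hds
  have hw1 : d ≤ ‖x - y‖ := by
    rw [← dist_eq_norm, dist_comm]; exact infDist_le_dist_of_mem hxK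
  have hw2 : ‖c‖ - s ≤ ‖x - y‖ := by rw [← hxn]; exact norm_sub_norm_le x y
  set w := ‖x - y‖ with hw
  have hw0 : 0 < w := hd.trans_le hw1
  have hlow : d * (s + ‖c‖) ≤ 3 * s * w := by
    rcases le_total ‖c‖ (2 * s) with h | h
    · nlinarith
    · nlinarith
  have hP : ∀ l, ‖PP ρ x l k‖ ≤ 1 := fun l =>
    ((((L.pf _).2.2.2 ρ hρ).2.2.2.1 x (((L.pf _).2.2.2 ρ hρ).2.2.2.2.2.2 x hx0
      (hK.bd x hxK)).1).2.2.2.2.2.1 l k).2.1
  have hxy : x - y ≠ 0 := norm_pos_iff.1 hw0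
  -- the two model bounds
  have hA : 1 / w ≤ 3 * s / (d * (s + ‖c‖)) := by
    rw [div_le_div_iff₀ hw0 (by positivity)]; linarith
  have hB : (1 / w) ^ (2 * n + 1) ≤ (3 / d) ^ (2 * n + 1) := by
    refine pow_le_pow_left₀ (by positivity) ?_ _
    rw [div_le_div_iff₀ hw0 hd]; linarith
  have hC : 1 / w ≤ 3 * s / (d * ‖c‖) :=
    hA.trans (div_le_div_of_nonneg_left (by positivity) (by positivity) (by nlinarith))
  have hD : 1 / ‖c‖ ≤ 3 * s / (d * ‖c‖) := by
    rw [div_le_div_iff₀ hcn (by positivity)]; nlinarith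
  have key : ∀ t : ℝ, 0 ≤ t → t ≤ 3 * s / (d * ‖c‖) → t * (1 / w ^ (2 * n + 3)) ≤
      3 ^ (2 * n + 4) * s ^ 3 / d ^ (2 * (n + 2)) * gs s c := by
    intro t ht0 ht
    have e1 : 1 / w ^ (2 * n + 3) = (1 / w) ^ (2 * n + 1) * (1 / w) ^ 2 := by
      rw [← pow_add, one_div_pow]
    have e2 : 3 ^ (2 * n + 4) * s ^ 3 / d ^ (2 * (n + 2)) * gs s c =
        3 * s / (d * ‖c‖) * ((3 / d) ^ (2 * n + 1) * (3 * s / (d * (s + ‖c‖))) ^ 2) := by
      simp only [gs, div_pow]
      field_simp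
      ring
    rw [e1, e2]
    gcongr
  have b1 : ∀ l, ‖PP ρ x l k * DE l j (x - y)‖ ≤ cN (n + 2) * (n + 2 : ℕ) *
      (3 ^ (2 * n + 4) * s ^ 3 / d ^ (2 * (n + 2)) * gs s c) := fun l => by
    rw [norm_mul]
    refine (mul_le_of_le_one_left (norm_nonneg _) (hP l)).trans ((norm_DE hc l j hxy).trans ?_)
    have : cN (n + 2) * (n + 2 : ℕ) / w ^ (2 * (n + 2)) =
        cN (n + 2) * (n + 2 : ℕ) * (1 / w * (1 / w ^ (2 * n + 3))) := by
      field_simp; ring
    rw [← hw, this]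
    exact mul_le_mul_of_nonneg_left (key _ (by positivity) hC) (by positivity)
  have b2 : ‖(((n + 2 : ℕ) : ℂ) - 2) * (conj (x k) * Ek j (x - y)) / (‖x‖ ^ 2 : ℝ)‖ ≤
      n * cN (n + 2) * (3 ^ (2 * n + 4) * s ^ 3 / d ^ (2 * (n + 2)) * gs s c) := by
    have e : (((n + 2 : ℕ) : ℂ) - 2) = n := by push_cast; ring
    have h2 := ((hE j).2.2.2.1 (x - y)).2.1
    rw [show 2 * (n + 2) - 1 = 2 * n + 3 by omega, ← hw] at h2
    rw [e, norm_div, norm_mul, norm_mul, RCLike.norm_conj, Complex.norm_natCast, Complex.norm_real,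
      Real.norm_of_nonneg (by positivity), hxn]
    have h3 : ‖x k‖ ≤ ‖c‖ := hxn ▸ coord_le x k
    calc (n : ℝ) * (‖x k‖ * ‖Ek j (x - y)‖) / ‖c‖ ^ 2
        ≤ n * (‖c‖ * (cN (n + 2) / w ^ (2 * n + 3))) / ‖c‖ ^ 2 := by gcongr
      _ = n * cN (n + 2) * (1 / ‖c‖ * (1 / w ^ (2 * n + 3))) := by field_simp
      _ ≤ _ := mul_le_mul_of_nonneg_left (key _ (by positivity) hD) (by positivity)
  refine (norm_sub_le _ _).trans ((add_le_add ((norm_sum_le _ _).trans
    (Finset.sum_le_sum fun l _ => b1 l)) b2).trans (le_of_eq ?_))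
  simp only [Finset.sum_const, Finset.card_univ, Fintype.card_fin, nsmul_eq_mul]
  ring

end Pool.Agent.MP_fcd29e_an.H31
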