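import Pool.Agent.MP_fcd29e_an.H81.MainR
import Pool.Agent.MP_fcd29e_an.H44.FA3
import Pool.Agent.MP_fcd29e_an.H16.FB3
import Pool.Agent.MP_fcd29e_an.H35.GEO3
import Pool.Agent.MP_fcd29e_an.H45.DIL3
import Pool.Agent.MP_fcd29e_an.H29.MUL3
import Pool.Agent.MP_fcd29e_an.H24.EQ13
import Pool.Agent.MP_fcd29e_an.H14.EQ23
import Pool.Agent.MP_fcd29e_an.H41.SBs3
import Pool.Agent.MP_fcd29e_an.H71.DY13
import Pool.Agent.MP_fcd29e_an.H62.DY23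
import Pool.Agent.MP_fcd29e_an.H17.SUM3
import Pool.Agent.MP_fcd29e_an.H51.HOP3
import Pool.Agent.MP_fcd29e_an.H94.ECs3
import Pool.Agent.MP_fcd29e_an.H45.KER3
import Pool.Agent.MP_fcd29e_an.H47.HT3
import Pool.Agent.MP_fcd29e_an.H63.HG3
import Pool.Agent.MP_fcd29e_an.H96.DV03
import Pool.Agent.MP_fcd29e_an.H70.DV13
import Pool.Agent.MP_fcd29e_an.H82.DV23
import Pool.Agent.MP_fcd29e_an.H52.ORIs3
import Pool.Agent.MP_fcd29e_an.H38.TKa3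
import Pool.Agent.MP_fcd29e_an.H99.TKb3
import Pool.Agent.MP_fcd29e_an.H77.TKw3
import Pool.Agent.MP_fcd29e_an.H26.LTg3
import Pool.Agent.MP_fcd29e_an.H11.FTg3
import Pool.Agent.MP_fcd29e_an.H31.HL
import Pool.Agent.MP_fcd29e_an.H31.LBs

/-!
Assembly for Sobolev spaces of real order.
-/

set_option autoImplicit false

open Pool.Agent.MP_fcd29e_an.H81

namespace Pool.Agent.MP_fcd29e_an.H31

theorem allFA : StmtFA := H44.fa lv0

theorem allFB : StmtFB := H16.fb lv0 allFA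

theorem allMUL : StmtMUL := H29.mul lv0 allFA allFB

theorem lv2 : Lv2 where
  toLv0 := lv0
  fa := allFA
  fb := allFB
  geo := H35.geo
  dil := H45.dil lv0 allFA
  mul := allMUL
  sbs := H41.sbs lv0 allFA allMUL (H24.eq1 allFA)

theorem allLBs : StmtLBs :=
  lbs lv1 lv2 (H94.ecs lv2) (H63.hg lv2 (hl lv2 (H62.dy2 lv2) (H45.ker lv2) (H47.ht lv2)))
    (H70.dv1 lv2 (H96.dv0 lv2 allPOIR)) (H82.dv2 lv2) (H52.oris lv0)
    (H77.tkw lv2 (H99.tkb lv2 (H51.hop lv2) (H38.tka lv2 (H17.sum lv2 (H71.dy1 lv2)))))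

theorem cls (N : ℕ) {s : ℝ} (hs : 0 ≤ s) : Cls (SobH (N := N) s) := by
  obtain ⟨S1, S2, S3, -⟩ := lv2.sbs N s hs
  exact ⟨fun f h => (S1 f h).1, fun f g h h' => ((S1 f h).2.1 g h').1,
    fun f g h h' => ((S1 f h).2.1 g h').2, S2, fun a f ha h => (S1 f h).2.2 a ha, S3,
    H94.ecs lv2 N s hs⟩

theorem sobR_eq (N : ℕ) {s : ℝ} (hs : 0 ≤ s) : SobR (N := N) s = SobH s := by
  funext f
  exact propext ⟨fun h χ hχ => (h χ hχ).elim fun h1 h2 => H24.eq1 allFA N s _ h1 h2,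
    fun h χ hχ => ⟨(h χ hχ).1, H14.eq2 lv0 allFA N s hs _ _ (h χ hχ)⟩⟩

theorem allRs (q : ℕ) (ρ φ : E (q + 3) → ℝ) (h : Dom ρ) (hφ : PHI ρ φ) {s : ℝ} (hs : 0 < s)
    (p : ℕ) : VanishR ρ s p q ∧ VanishR ρ s p (q + 1) := by
  have := H11.rg lv1 (H11.ftg lv1 (H26.ltg lv1)) q ρ h _ (cls _ hs.le) (allLBs q ρ φ h hφ s hs) p
  rw [← sobR_eq _ hs.le] at this
  exact this

end Pool.Agent.MP_fcd29e_an.H31
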