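import Pool.Agent.MP_fcd29e_an.H81.Defs

/-!
Sobolev spaces of real order for forms on domains of `ℂℙⁿ`, written on the cone `ℂ^N ∖ {0}`.
-/

set_option autoImplicit false

open MeasureTheory Pool.Agent.MP_fcd29e_an.H81
open scoped SchwartzMap

namespace Pool.Agent.MP_fcd29e_an.H31

variable {N : ℕ}

/-- `f` is locally in the `L²` Sobolev space `W^s` (Bessel potential space of real order `s`)
away from the vertex of the cone. -/
def SobR (s : ℝ) (f : E N → ℂ) : Prop :=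
  ∀ χ, Test {0}ᶜ χ → ∃ h : MemLp (fun z => χ z * f z) 2 volume,
    TemperedDistribution.MemSobolev s 2 ((h.toLp fun z => χ z * f z : Lp ℂ 2 volume) : 𝓢'(E N, ℂ))

/-- `H^{p,q+1}_{W^s}(Ω) = 0`, with `W^s(Ω)` the space of restrictions to `Ω = {ρ < 0}` of `W^s`
forms on projective space. -/
def VanishR (ρ : E N → ℝ) (s : ℝ) (p q : ℕ) : Prop :=
  ∀ f : Form N p (q + 1), Basic {0}ᶜ f → (∀ I J, SobR s (f I J)) → (∀ I, DB (Om ρ) (f I) 0) →
    ∃ u : Form N p q, Basic {0}ᶜ u ∧ (∀ I J, SobR s (u I J)) ∧ ∀ I, DB (Om ρ) (u I) (f I)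

end Pool.Agent.MP_fcd29e_an.H31
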