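import Pool.Agent.MP_fcd29e_an.H31.H5a

/-!
Hörmander's inequality from the a priori estimate.
-/

set_option autoImplicit false

open Pool.Agent.MP_fcd29e_an.H81 MeasureTheory Complex Set Filter Topology Metric
open scoped ContDiff ComplexConjugate ENNReal NNReal

namespace Pool.Agent.MP_fcd29e_an.H31

variable {N : ℕ}

/-- The elementary alternating matrix. -/
noncomputable def el (j k a b : Fin N) : ℂ :=
  (if a = j then if b = k then 1 else 0 else 0) - if a = k then if b = j then 1 else 0 else 0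

theorem el_anti (j k a b : Fin N) : el j k a b = -el j k b a := by
  unfold el; split_ifs <;> simp_all

theorem conj_el (j k a b : Fin N) : conj (el j k a b) = el j k a b := by
  unfold el; split_ifs <;> simp

theorem sum_el (j k b : Fin N) (y : Fin N → ℂ) :
    ∑ a, el j k a b * y a = (if b = k then y j else 0) - if b = j then y k else 0 := by
  simp [el, sub_mul, Finset.sum_sub_distrib]

theorem sum_el2 (j k : Fin N) (y : Fin N × Fin N → ℂ) :
    ∑ q : Fin N × Fin N, el j k q.1 q.2 * y q = y (j, k) - y (k, j) := by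
  simp [el, sub_mul, Finset.sum_sub_distrib, Fintype.sum_prod_type]

theorem test_memLp {D : Set (E N)} {ψ : E N → ℂ} (h : Test D ψ) :
    MemLp ψ 2 (volume.restrict D) :=
  (h.1.continuous.memLp_of_hasCompactSupport h.2.1).restrict D

theorem test_const {D : Set (E N)} {ψ : E N → ℂ} (h : Test D ψ) (c : ℂ) :
    Test D fun z => c * ψ z :=
  ⟨contDiff_const.mul h.1, h.2.1.mul_left, (tsupport_mul_subset_right).trans h.2.2⟩

theorem memLp_bdd {D : Set (E N)} (hD : IsOpen D) {f s : E N → ℂ} {C : ℝ}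
    (hf : MemLp f 2 (volume.restrict D)) (hs : ContinuousOn s D) (hC : ∀ z ∈ D, ‖s z‖ ≤ C) :
    MemLp (fun z => f z * s z) 2 (volume.restrict D) := by
  refine MemLp.of_le_mul (c := C) hf (hf.1.mul (hs.aestronglyMeasurable hD.measurableSet)) ?_
  filter_upwards [ae_restrict_mem hD.measurableSet] with z hz
  rw [norm_mul, mul_comm]
  exact mul_le_mul_of_nonneg_right (hC z hz) (norm_nonneg _)

theorem int_bdd {D : Set (E N)} (hD : IsOpen D) {f s : E N → ℝ} {C : ℝ}
    (hf : Integrable f (volume.restrict D)) (hs : ContinuousOn s D) (hC : ∀ z ∈ D, |s z| ≤ C) :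
    Integrable (fun z => f z * s z) (volume.restrict D) := by
  refine hf.mul_bdd (c := C) (hs.aestronglyMeasurable hD.measurableSet) ?_
  filter_upwards [ae_restrict_mem hD.measurableSet] with z hz
  exact hC z hz

theorem int_sq2 {μ : Measure (E N)} {R : Fin N → Fin N → E N → ℂ} (h : ∀ j k, MemLp (R j k) 2 μ) :
    Integrable (fun z => ∑ j, ∑ k, ‖R j k z‖ ^ 2) μ :=
  integrable_finsetSum _ fun j _ => integrable_finsetSum _ fun k _ =>
    (memLp_two_iff_integrable_sq_norm (h j k).1).1 (h j k)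

theorem int3 {μ : Measure (E N)} {a b c : E N → ℂ} (ha : Integrable a μ) (hb : Integrable b μ)
    (hc : Integrable c μ) : Integrable (fun z => a z - b z + c z) μ ∧
      ∫ z, (a z - b z + c z) ∂μ = ∫ z, a z ∂μ - ∫ z, b z ∂μ + ∫ z, c z ∂μ := by
  have h : Integrable (fun z => a z - b z) μ := ha.sub hb
  exact ⟨h.add hc, by rw [integral_add h hc, integral_sub ha hb]⟩

theorem dzb_sym (L : Lv0) {D : Set (E N)} (hD : IsOpen D) (h0 : (0 : E N) ∉ D) {u χ : E N → ℂ}
    (hu : Test D u) (hχ : Test D χ) (a b : Fin N) :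
    ∫ z in D, dzb a u z * dzb b χ z = ∫ z in D, dzb b u z * dzb a χ z := by
  obtain ⟨-, -, -, t4, -, t6, -⟩ := L.t1 N D hD h0
  have h1 := ((t6 (dzb a u) ((t4 u hu).2.2.1 a).2.1.contDiffOn).2 b).1 χ hχ
  have h2 := ((t6 (dzb b u) ((t4 u hu).2.2.1 b).2.1.contDiffOn).2 a).1 χ hχ
  rw [h1, h2]
  congr 2
  funext z
  rw [dzb_dzb_comm b a hu.1.contDiffAt]

theorem d2_test (L : Lv0) {D : Set (E N)} (hD : IsOpen D) (h0 : (0 : E N) ∉ D)
    {F : Fin N → Fin N → E N → ℂ} (hF : ∀ j k, Test D (F j k)) (i j k : Fin N) :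
    Test D (d2 F i j k) := by
  obtain ⟨-, -, -, t4, -⟩ := L.t1 N D hD h0
  have h := fun a b c => ((t4 (F b c) (hF b c)).2.2.1 a).2
  have h1 := (t4 _ (h i j k)).2.2.2.2.1 _ (test_const (h j i k) (-1))
  have h2 := (t4 _ h1).2.2.2.2.1 _ (h k i j)
  convert h2 using 1
  funext z; simp only [d2]; ring

theorem h5 (L : Lv0) (h2 : StmtH2) (h4 : StmtH4) : StmtH5 := by
  intro N D p ψ m c R F hN hd hR hRa hRw hF hFa
  obtain ⟨φ, β, χ, A, tw⟩ := h2 N D p ψ m c hN hd
  have hD := hd.opn
  obtain ⟨-, -, -, t4, -, t6, -⟩ := L.t1 N D hD hd.ne0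
  obtain ⟨B, hB⟩ := hd.ψb
  obtain ⟨m₀, hm₀, m₁, hm⟩ := hd.mb
  have hFD : ∀ j k, Test D (F j k) := fun j k =>
    ⟨(hF j k).1, (hF j k).2.1, (hF j k).2.2.trans fun z hz => hz.1⟩
  set μ : Measure (E N) := volume.restrict D with hμ
  have hmem : ∀ᵐ z ∂μ, z ∈ D := ae_restrict_mem hD.measurableSet
  let om : E N → ℂ := fun z => (Real.exp ((β z - φ z) / 2) : ℝ)
  let sg : E N → ℂ := fun z => (Real.exp ((φ z - β z) / 2) : ℝ)
  have os : ∀ z, om z * sg z = 1 := fun z => by
    simp only [om, sg]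
    rw [← ofReal_mul, ← Real.exp_add]
    simp [show (β z - φ z) / 2 + (φ z - β z) / 2 = 0 by ring]
  have oo : ∀ z, om z * om z = (Real.exp (β z - φ z) : ℝ) := fun z => by
    simp only [om]
    rw [← ofReal_mul, ← Real.exp_add]
    congr 2; ring
  have on_ : ∀ z, ‖om z‖ ^ 2 = Real.exp (β z - φ z) := fun z => by
    simp only [om]
    rw [Complex.norm_real, Real.norm_eq_abs, sq_abs, sq, ← Real.exp_add]
    congr 1; ring
  have oc : ∀ z, conj (om z) = om z := fun z => conj_ofReal _
  have sc : ∀ z, conj (sg z) = sg z := fun z => conj_ofReal _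
  have osm : ContDiffOn ℝ ∞ om D :=
    ofRealCLM.contDiff.comp_contDiffOn ((tw.βs.sub tw.φs).div_const 2).exp
  have ssm : ContDiffOn ℝ ∞ sg D :=
    ofRealCLM.contDiff.comp_contDiffOn ((tw.φs.sub tw.βs).div_const 2).exp
  have ob : ∀ z ∈ D, ‖om z‖ ≤ 1 + 2 * Real.exp B := fun z hz => by
    have h1 := tw.le z hz
    have h2 : Real.exp (-ψ z) ≤ Real.exp B :=
      Real.exp_le_exp.2 ((neg_le_abs _).trans (hB z hz))
    have h3 := on_ z
    nlinarith [norm_nonneg (om z), sq_nonneg (‖om z‖ - 1)]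
  have tsg : ∀ u, Test D u → MemLp (fun z => sg z * u z) 2 μ := fun u hu =>
    test_memLp ((t4 u hu).1 sg ssm)
  have tom : ∀ u, Test D u → MemLp (fun z => om z * u z) 2 μ := fun u hu =>
    test_memLp ((t4 u hu).1 om osm)
  have tb : ∀ u, Test D u → ∀ a, Test D (dzb a u) := fun u hu a => ((t4 u hu).2.2.1 a).2
  have ta : ∀ u, Test D u → ∀ a, Test D (dz a u) := fun u hu a => ((t4 u hu).2.2.1 a).1
  have tc : ∀ u, Test D u → Test D fun z => conj (u z) := fun u hu => (t4 u hu).2.2.2.1
  -- the annihilated family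
  let s1 : Fin N → (E N → ℂ) → Fin N × Fin N → E N → ℂ := fun k u q z =>
    (if q.2 = k then 1 else 0) * (sg z * dzb q.1 u z)
  let s2 : Fin N → Fin N → (E N → ℂ) → Fin N × Fin N → E N → ℂ := fun j k h q z =>
    ((if q = (j, k) then 1 else 0) + if q = (k, j) then 1 else 0) * h z
  let S : Set (Fin N × Fin N → E N → ℂ) :=
    {s | (∃ k u, Test D u ∧ s = s1 k u) ∨ ∃ j k h, MemLp h 2 μ ∧ s = s2 j k h}
  have hS : ∀ s ∈ S, ∀ q, MemLp (s q) 2 μ := by
    rintro s (⟨k, u, hu, rfl⟩ | ⟨j, k, h, hh, rfl⟩) q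
    · exact (tsg _ (tb u hu q.1)).const_mul _
    · exact hh.const_mul _
  have e1 : ∀ (t : Fin N × Fin N → E N → ℂ), (∀ q, MemLp (t q) 2 μ) → ∀ k u, Test D u →
      ∑ q, ∫ z, t q z * s1 k u q z ∂μ = ∫ z, ∑ j, t (j, k) z * sg z * dzb j u z ∂μ := by
    intro t ht k u hu
    rw [← integral_finsetSum _ fun q _ => int_mul (ht q) (hS _ (Or.inl ⟨k, u, hu, rfl⟩) q)]
    congr 1; funext z
    simp [s1, Fintype.sum_prod_type, mul_assoc]
  have e2 : ∀ (t : Fin N × Fin N → E N → ℂ), (∀ q, MemLp (t q) 2 μ) → ∀ j k h, MemLp h 2 μ →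
      ∑ q, ∫ z, t q z * s2 j k h q z ∂μ = ∫ z, (t (j, k) z + t (k, j) z) * h z ∂μ := by
    intro t ht j k h hh
    rw [← integral_finsetSum _ fun q _ => int_mul (ht q) (hS _ (Or.inr ⟨j, k, h, hh, rfl⟩) q)]
    congr 1; funext z
    simp [s2, add_mul, mul_add, Finset.sum_add_distrib]
  have inZ : ∀ (t : Fin N × Fin N → E N → ℂ), (∀ q, MemLp (t q) 2 μ) →
      (∀ k u, Test D u → ∫ z, ∑ j, t (j, k) z * sg z * dzb j u z ∂μ = 0) →
      (∀ j k z, t (j, k) z = -t (k, j) z) → ∀ s ∈ S, ∑ q, ∫ z, t q z * s q z ∂μ = 0 := by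
    rintro t ht h1 h2 s (⟨k, u, hu, rfl⟩ | ⟨j, k, h, hh, rfl⟩)
    · rw [e1 t ht k u hu, h1 k u hu]
    · rw [e2 t ht j k h hh]
      simp [h2 j k]
  let g : Fin N × Fin N → E N → ℂ := fun q z => sg z * conj (F q.1 q.2 z)
  have hg : ∀ q, MemLp (g q) 2 μ := fun q => tsg _ (tc _ (hFD q.1 q.2))
  obtain ⟨g₁, hg₁, hz1, hz2⟩ := proj μ S hS g hg
  have anti : ∀ j k, ∀ᵐ z ∂μ, g₁ (j, k) z = -g₁ (k, j) z := by
    intro j k
    have hh := (hg₁ (j, k)).add (hg₁ (k, j))
    have h1 := hz1 _ (Or.inr ⟨j, k, _, memLp_conj hh, rfl⟩)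
    rw [e2 g₁ hg₁ j k _ (memLp_conj hh)] at h1
    have h3 : ∫ z, ‖g₁ (j, k) z + g₁ (k, j) z‖ ^ 2 ∂μ = 0 := by
      have : ∫ z, ((‖g₁ (j, k) z + g₁ (k, j) z‖ ^ 2 : ℝ) : ℂ) ∂μ = 0 := by
        rw [← h1]; congr 1; funext z
        simp only [Pi.add_apply]
        rw [Complex.mul_conj, Complex.normSq_eq_norm_sq]
      rw [integral_complex_ofReal] at this
      exact_mod_cast this
    have h3' := (integral_eq_zero_iff_of_nonneg (fun z => by positivity)
      ((memLp_two_iff_integrable_sq_norm hh.1).1 hh)).1 h3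
    filter_upwards [h3'] with z hz
    have : g₁ (j, k) z + g₁ (k, j) z = 0 := by simpa using hz
    exact eq_neg_of_add_eq_zero_left this
  have anti' : ∀ᵐ z ∂μ, ∀ j k, g₁ (j, k) z = -g₁ (k, j) z :=
    ae_all_iff.2 fun j => ae_all_iff.2 fun k => anti j k
  let x : Fin N → Fin N → E N → ℂ := fun j k z => (g₁ (j, k) z - g₁ (k, j) z) / 2 * sg z
  have hx : ∀ᵐ z ∂μ, ∀ j k, x j k z = g₁ (j, k) z * sg z := by
    filter_upwards [anti'] with z hz j k
    simp only [x]; rw [hz k j]; ring
  let Y : Fin N → Fin N → Fin N → E N → ℂ := fun i j k z => conj (d2 F i j k z)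
  have hY : ∀ i j k, Test D (Y i j k) := fun i j k => tc _ (d2_test L hD hd.ne0 hFD i j k)
  have hW3 : W3 D (fun j k z => x j k z * (Real.exp (β z - φ z) : ℝ)) Y := by
    intro i j k u hu
    let ub : E N → ℂ := fun z => conj (u z)
    have hub : Test D ub := tc u hu
    let t : Fin N × Fin N → E N → ℂ := fun q z =>
      el j k q.1 q.2 * (om z * dzb i ub z) - el i k q.1 q.2 * (om z * dzb j ub z) +
        el i j q.1 q.2 * (om z * dzb k ub z)
    have ht : ∀ q, MemLp (t q) 2 μ := fun q =>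
      (((tom _ (tb _ hub i)).const_mul _).sub ((tom _ (tb _ hub j)).const_mul _)).add
        ((tom _ (tb _ hub k)).const_mul _)
    have htZ := inZ t ht (fun b v hv => by
      have I : ∀ a e, Integrable (fun z => dzb a ub z * dzb e v z) μ := fun a e =>
        int_mul (test_memLp (tb _ hub a)) (test_memLp (tb _ hv e))
      have e : ∀ z, ∑ a, t (a, b) z * sg z * dzb a v z =
          (if b = k then 1 else 0) * (dzb i ub z * dzb j v z - dzb j ub z * dzb i v z) -
          (if b = j then 1 else 0) * (dzb i ub z * dzb k v z - dzb k ub z * dzb i v z) +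
          (if b = i then 1 else 0) * (dzb j ub z * dzb k v z - dzb k ub z * dzb j v z) := by
        intro z
        have : ∀ a, t (a, b) z * sg z * dzb a v z =
            el j k a b * (dzb i ub z * dzb a v z) - el i k a b * (dzb j ub z * dzb a v z) +
              el i j a b * (dzb k ub z * dzb a v z) := fun a => by
          simp only [t]
          linear_combination (el j k a b * (dzb i ub z * dzb a v z) -
            el i k a b * (dzb j ub z * dzb a v z) +
              el i j a b * (dzb k ub z * dzb a v z)) * os z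
        simp only [this, Finset.sum_add_distrib, Finset.sum_sub_distrib, sum_el]
        split_ifs <;> ring
      simp only [e]
      rw [integral_add, integral_sub, integral_const_mul, integral_const_mul, integral_const_mul,
        integral_sub (I _ _) (I _ _), integral_sub (I _ _) (I _ _), integral_sub (I _ _) (I _ _),
        dzb_sym L hD hd.ne0 hub hv i j, dzb_sym L hD hd.ne0 hub hv i k,
        dzb_sym L hD hd.ne0 hub hv j k]
      · simp [hμ]
      · exact ((I _ _).sub (I _ _)).const_mul _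
      · exact ((I _ _).sub (I _ _)).const_mul _
      · exact (((I _ _).sub (I _ _)).const_mul _).sub (((I _ _).sub (I _ _)).const_mul _)
      · exact ((I _ _).sub (I _ _)).const_mul _) (fun a b z => by
        simp only [t]; rw [el_anti j k a b, el_anti i k a b, el_anti i j a b]; ring)
    have h1 := hz2 t ht htZ
    rw [← integral_finsetSum _ (f := fun q z => (g q z - g₁ q z) * conj (t q z))
      fun q _ => int_mul ((hg q).sub (hg₁ q)) (memLp_conj (ht q))] at h1
    have IF : ∀ a b e, Integrable (fun z => conj (F a b z) * dz e u z) μ := fun a b e =>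
      int_mul (test_memLp (tc _ (hFD a b))) (test_memLp (ta _ hu e))
    have IG : ∀ q e, Integrable (fun z => g₁ q z * (om z * dz e u z)) μ := fun q e =>
      int_mul (hg₁ q) (tom _ (ta _ hu e))
    have h3 : ∫ z, (conj (F j k z) * dz i u z - conj (F i k z) * dz j u z +
        conj (F i j z) * dz k u z) ∂μ = -∫ z, Y i j k z * u z ∂μ := by
      have P : ∀ a b e, ∫ z, conj (F a b z) * dz e u z ∂μ =
          -∫ z, conj (dzb e (F a b) z) * u z ∂μ := fun a b e => by
        rw [((t6 _ (tc _ (hFD a b)).1.contDiffOn).2 e).2 u hu]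
        simp only [dz_conj]
      have J : ∀ a b e, Integrable (fun z => conj (dzb e (F a b) z) * u z) μ := fun a b e =>
        int_mul (test_memLp (tc _ (tb _ (hFD a b) e))) (test_memLp hu)
      rw [(int3 (IF _ _ _) (IF _ _ _) (IF _ _ _)).2, P, P, P]
      have : ∫ z, Y i j k z * u z ∂μ = ∫ z, (conj (dzb i (F j k) z) * u z -
          conj (dzb j (F i k) z) * u z + conj (dzb k (F i j) z) * u z) ∂μ := by
        congr 1; funext z; simp only [Y, d2, map_add, map_sub]; ring
      rw [this, (int3 (J _ _ _) (J _ _ _) (J _ _ _)).2]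
      ring
    have h5 : ∫ z, ((conj (F j k z) * dz i u z - conj (F i k z) * dz j u z +
        conj (F i j z) * dz k u z) - (g₁ (j, k) z * (om z * dz i u z) -
          g₁ (i, k) z * (om z * dz j u z) + g₁ (i, j) z * (om z * dz k u z))) ∂μ = 0 := by
      have : (2 : ℂ) * ∫ z, ((conj (F j k z) * dz i u z - conj (F i k z) * dz j u z +
          conj (F i j z) * dz k u z) - (g₁ (j, k) z * (om z * dz i u z) -
            g₁ (i, k) z * (om z * dz j u z) + g₁ (i, j) z * (om z * dz k u z))) ∂μ = 0 := by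
        rw [← integral_const_mul, ← h1]
        refine integral_congr_ae ?_
        filter_upwards [anti'] with z hz
        have : ∀ q : Fin N × Fin N, (g q z - g₁ q z) * conj (t q z) =
            el j k q.1 q.2 * ((g q z - g₁ q z) * (om z * dz i u z)) -
            el i k q.1 q.2 * ((g q z - g₁ q z) * (om z * dz j u z)) +
            el i j q.1 q.2 * ((g q z - g₁ q z) * (om z * dz k u z)) := fun q => by
          simp only [t, ub, dzb_conj, map_add, map_sub, map_mul, conj_el, oc, conj_conj,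
            Pi.sub_apply]
          ring
        simp only [this, Finset.sum_add_distrib, Finset.sum_sub_distrib, sum_el2, g]
        rw [hz k j, hz k i, hz j i, hFa k j, hFa k i, hFa j i]
        simp only [map_neg]
        linear_combination (-2 * (conj (F j k z) * dz i u z - conj (F i k z) * dz j u z +
          conj (F i j z) * dz k u z)) * os z
      simpa using this
    rw [integral_sub (int3 (IF _ _ _) (IF _ _ _) (IF _ _ _)).1
      (int3 (IG _ _) (IG _ _) (IG _ _)).1, h3, sub_eq_zero] at h5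
    rw [h5]
    refine integral_congr_ae ?_
    filter_upwards [hx] with z hz
    simp only [w3, hz, ← oo z]
    linear_combination (dz i u z * g₁ (j, k) z * om z - dz j u z * g₁ (i, k) z * om z +
      dz k u z * g₁ (i, j) z * om z) * os z
  have key := h4 N D p ψ m φ β c A χ x Y (by omega) hd tw
    (fun j k => (memLp_congr_ae (by
      filter_upwards [hx] with z hz
      rw [hz j k]
      linear_combination g₁ (j, k) z * os z)).2 (hg₁ (j, k)))
    (fun j k z => by simp only [x]; ring)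
    (fun k u hu => by
      have := hz1 _ (Or.inl ⟨k, u, hu, rfl⟩)
      rw [e1 g₁ hg₁ k u hu] at this
      simp only [Pi.zero_apply, zero_mul, integral_zero, neg_zero]
      rw [← this]
      refine integral_congr_ae ?_
      filter_upwards [hx] with z hz
      simp only [hz]) hY hW3
  -- the pairing
  let a : Fin N × Fin N → E N → ℂ := fun q z => R q.1 q.2 z * om z
  have ha : ∀ q, MemLp (a q) 2 μ := fun q => memLp_bdd hD (hR q.1 q.2) osm.continuousOn ob
  have haZ := inZ a ha (fun k u hu => by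
    have := hRw k u hu
    simp only [Pi.zero_apply, zero_mul, integral_zero, neg_zero] at this
    rw [← this]
    congr 1; funext z
    refine Finset.sum_congr rfl fun j _ => ?_
    simp only [a]
    linear_combination R j k z * dzb j u z * os z) (fun j k z => by
      simp only [a]; rw [hRa j k]; ring)
  have hp : ∑ j, ∑ k, ∫ z in D, R j k z * F j k z = ∑ q, ∫ z, a q z * conj (g₁ q z) ∂μ := by
    have h1 := congrArg conj (hz2 a ha haZ)
    rw [map_sum, map_zero] at h1
    rw [← Fintype.sum_prod_type', ← sub_eq_zero, ← Finset.sum_sub_distrib, ← h1]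
    refine Finset.sum_congr rfl fun q _ => ?_
    rw [← integral_conj, ← integral_sub (int_mul (hR q.1 q.2) (test_memLp (hFD q.1 q.2)))
      (int_mul (ha q) (memLp_conj (hg₁ q)))]
    congr 1; funext z
    simp only [a, g, map_mul, map_sub, conj_conj, sc]
    linear_combination (-(R q.1 q.2 z * F q.1 q.2 z)) * os z
  have mpos : ∀ z ∈ D, 0 < m z := fun z hz => hm₀.trans_le (hm z hz).1
  have iA : Integrable (fun z => (∑ q, ‖a q z‖ ^ 2) / m z) μ := by
    have := int_bdd hD (C := m₀⁻¹) (s := fun z => (m z)⁻¹) (int_sq2 (R := fun j k => a (j, k)) fun j k => ha (j, k))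
      (hd.mc.inv₀ fun z hz => (mpos z hz).ne') fun z hz => by
        rw [abs_of_pos (inv_pos.2 (mpos z hz))]
        exact inv_anti₀ hm₀ (hm z hz).1
    simpa only [Fintype.sum_prod_type, div_eq_mul_inv] using this
  have iB : Integrable (fun z => m z * ∑ q, ‖conj (g₁ q z)‖ ^ 2) μ := by
    have := int_bdd hD (C := m₁) (int_sq2 (R := fun j k => g₁ (j, k)) fun j k => hg₁ (j, k))
      hd.mc fun z hz => by rw [abs_of_pos (mpos z hz)]; exact (hm z hz).2
    simpa only [Fintype.sum_prod_type, RCLike.norm_conj, mul_comm] using this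
  have hcs := cs μ a (fun q z => conj (g₁ q z)) m ha (fun q => memLp_conj (hg₁ q))
    (hmem.mono mpos) iA iB
  have b1 : ∫ z, (∑ q, ‖a q z‖ ^ 2) / m z ∂μ ≤
      2 * ∫ z in D, (∑ j, ∑ k, ‖R j k z‖ ^ 2) * (Real.exp (-ψ z) / m z) := by
    rw [← integral_const_mul]
    refine integral_mono_ae iA (Integrable.const_mul (int_bdd hD (C := Real.exp B / m₀)
      (s := fun z => Real.exp (-ψ z) / m z) (int_sq2 hR) ((hd.ψs.continuousOn.neg.rexp).div hd.mc fun z hz => (mpos z hz).ne')
      fun z hz => ?_) 2) ?_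
    · rw [abs_of_pos (div_pos (Real.exp_pos _) (mpos z hz))]
      exact div_le_div₀ (Real.exp_pos _).le
        (Real.exp_le_exp.2 ((neg_le_abs _).trans (hB z hz))) hm₀ (hm z hz).1
    · filter_upwards [hmem] with z hz
      simp only [a, norm_mul, mul_pow, on_, ← Finset.sum_mul, Fintype.sum_prod_type]
      have h1 := tw.le z hz
      have h2 := mpos z hz
      have h3 : 0 ≤ ∑ j, ∑ k, ‖R j k z‖ ^ 2 := by positivity
      rw [mul_div_assoc, mul_left_comm, ← mul_div_assoc 2]
      gcongr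
  have b2 : ∫ z, m z * ∑ q, ‖conj (g₁ q z)‖ ^ 2 ∂μ =
      ∫ z in D, m z * (∑ j, ∑ k, ‖x j k z‖ ^ 2) * Real.exp (β z - φ z) := by
    refine integral_congr_ae ?_
    filter_upwards [hx] with z hz
    have : ∀ j k, ‖x j k z‖ ^ 2 * Real.exp (β z - φ z) = ‖g₁ (j, k) z‖ ^ 2 := fun j k => by
      rw [← on_, ← mul_pow, ← norm_mul, hz, mul_assoc, mul_comm (sg z), os, mul_one]
    simp only [Fintype.sum_prod_type, RCLike.norm_conj, mul_assoc, Finset.sum_mul, this]
  have iC : Integrable (fun z => (∑ i, ∑ j, ∑ k, ‖d2 F i j k z‖ ^ 2) * Real.exp (ψ z)) μ :=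
    int_bdd hD (C := Real.exp B) (integrable_finsetSum _ fun i _ =>
      int_sq2 fun j k => test_memLp (d2_test L hD hd.ne0 hFD i j k)) hd.ψs.continuousOn.rexp
      fun z hz => by
        rw [abs_of_pos (Real.exp_pos _)]
        exact Real.exp_le_exp.2 ((le_abs_self _).trans (hB z hz))
  have b3 : ∫ z in D, (∑ i, ∑ j, ∑ k, ‖Y i j k z‖ ^ 2) * Real.exp (φ z - 2 * β z) ≤
      3 * ∫ z in D, (∑ i, ∑ j, ∑ k, ‖d2 F i j k z‖ ^ 2) * Real.exp (ψ z) := by
    rw [← integral_const_mul]
    refine integral_mono_of_nonneg (ae_of_all _ fun z => by positivity) (iC.const_mul 3) ?_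
    filter_upwards [hmem] with z hz
    simp only [Y, RCLike.norm_conj]
    by_cases hp : p z ≤ c - 1
    · have h1 : Real.exp (φ z - 2 * β z) ≤ 3 * Real.exp (ψ z) := by
        refine (Real.exp_le_exp.2 (tw.inn z hz hp)).trans ?_
        rw [Real.exp_add, mul_comm]
        exact mul_le_mul_of_nonneg_right (Real.exp_one_lt_d9.le.trans (by norm_num))
          (Real.exp_pos _).le
      rw [mul_left_comm]
      exact mul_le_mul_of_nonneg_left h1 (by positivity)
    · have h0 : ∀ e j k, dzb e (F j k) z = 0 := fun e j k => by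
        have : z ∉ tsupport (F j k) := fun h => hp ((hF j k).2.2 h).2
        rw [dzb_congr (notMem_tsupport_iff_eventuallyEq.1 this)]
        exact dzb_const e 0 z
      simp [d2, h0]
  have n1 : 0 ≤ ∫ z in D, (∑ j, ∑ k, ‖R j k z‖ ^ 2) * (Real.exp (-ψ z) / m z) :=
    integral_nonneg_of_ae (hmem.mono fun z hz => by have := mpos z hz; positivity)
  have n2 : 0 ≤ ∫ z, m z * ∑ q, ‖conj (g₁ q z)‖ ^ 2 ∂μ :=
    integral_nonneg_of_ae (hmem.mono fun z hz => by have := mpos z hz; positivity)
  rw [hp]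
  refine hcs.trans ((mul_le_mul_of_nonneg_right b1 n2).trans ?_)
  rw [b2]
  have := mul_le_mul_of_nonneg_left (key.trans (mul_le_mul_of_nonneg_left b3 (by norm_num))) n1
  linarith

end Pool.Agent.MP_fcd29e_an.H31
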