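import Pool.Agent.MP_fcd29e_an.H81.Spec2

/-!
Orthogonal projection in a finite product of `L²` spaces, and a Cauchy–Schwarz inequality.
-/

set_option autoImplicit false

open Pool.Agent.MP_fcd29e_an.H81 MeasureTheory Complex Set Filter Topology Metric
open scoped ContDiff ComplexConjugate ENNReal NNReal

namespace Pool.Agent.MP_fcd29e_an.H31

theorem memLp_conj {X : Type} [MeasurableSpace X] {μ : Measure X} {f : X → ℂ}
    (hf : MemLp f 2 μ) : MemLp (fun x => conj (f x)) 2 μ :=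
  hf.star

theorem int_mul {X : Type} [MeasurableSpace X] {μ : Measure X} {f g : X → ℂ}
    (hf : MemLp f 2 μ) (hg : MemLp g 2 μ) : Integrable (fun x => f x * g x) μ :=
  hf.integrable_mul hg

theorem inner_toLp {X : Type} [MeasurableSpace X] {μ : Measure X} {f : X → ℂ}
    (hf : MemLp f 2 μ) (u : Lp ℂ 2 μ) :
    inner ℂ (hf.toLp f) u = ∫ x, u x * conj (f x) ∂μ := by
  rw [L2.inner_def]
  refine integral_congr_ae ?_
  filter_upwards [hf.coeFn_toLp] with x hx
  rw [hx]; simp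

/-- Orthogonal projection onto the annihilator of a family of vectors. -/
theorem proj {X ι : Type} [MeasurableSpace X] [Fintype ι] (μ : Measure X)
    (S : Set (ι → X → ℂ)) (hS : ∀ s ∈ S, ∀ i, MemLp (s i) 2 μ) (g : ι → X → ℂ)
    (hg : ∀ i, MemLp (g i) 2 μ) :
    ∃ g₁ : ι → X → ℂ, (∀ i, MemLp (g₁ i) 2 μ) ∧
      (∀ s ∈ S, ∑ i, ∫ x, g₁ i x * s i x ∂μ = 0) ∧
      ∀ t : ι → X → ℂ, (∀ i, MemLp (t i) 2 μ) → (∀ s ∈ S, ∑ i, ∫ x, t i x * s i x ∂μ = 0) →
        ∑ i, ∫ x, (g i x - g₁ i x) * conj (t i x) ∂μ = 0 := by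
  classical
  let H := PiLp 2 (fun _ : ι => Lp ℂ 2 μ)
  let mk : (t : ι → X → ℂ) → (∀ i, MemLp (t i) 2 μ) → H := fun t ht =>
    WithLp.toLp 2 fun i => (ht i).toLp (t i)
  have hin : ∀ (t : ι → X → ℂ) (ht : ∀ i, MemLp (t i) 2 μ) (u : H),
      inner ℂ (mk t ht) u = ∑ i, ∫ x, (u i) x * conj (t i x) ∂μ := by
    intro t ht u
    rw [PiLp.inner_apply]
    exact Finset.sum_congr rfl fun i _ => inner_toLp (ht i) (u i)
  let A : Set H := {u | ∃ s, ∃ hs : s ∈ S,
    u = mk (fun i x => conj (s i x)) fun i => memLp_conj (hS s hs i)}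
  let Z : Submodule ℂ H := (Submodule.span ℂ A)ᗮ
  have hZ : ∀ u : H, u ∈ Z ↔ ∀ s ∈ S, ∑ i, ∫ x, (u i) x * s i x ∂μ = 0 := by
    intro u
    constructor
    · intro hu s hs
      have := (Submodule.mem_orthogonal _ _).1 hu _ (Submodule.subset_span ⟨s, hs, rfl⟩)
      rw [hin] at this
      simpa using this
    · intro hu
      refine (Submodule.mem_orthogonal _ _).2 fun v hv => ?_
      induction hv using Submodule.span_induction with
      | mem v hv =>
        obtain ⟨s, hs, rfl⟩ := hv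
        rw [hin]
        simpa using hu s hs
      | zero => simp
      | add v w _ _ h1 h2 => rw [inner_add_left, h1, h2, add_zero]
      | smul a v _ h1 => rw [inner_smul_left, h1, mul_zero]
  haveI : CompleteSpace Z := (Submodule.isClosed_orthogonal _).completeSpace_coe
  obtain ⟨y, hy, z, hz, hyz⟩ := Z.exists_add_mem_mem_orthogonal (mk g hg)
  refine ⟨fun i => y i, fun i => Lp.memLp (y i), (hZ y).1 hy, fun t ht hts => ?_⟩
  have htZ : mk t ht ∈ Z := by
    refine (hZ _).2 fun s hs => ?_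
    rw [← hts s hs]
    refine Finset.sum_congr rfl fun i _ => integral_congr_ae ?_
    filter_upwards [(ht i).coeFn_toLp] with x hx
    show ((ht i).toLp (t i)) x * s i x = _
    rw [hx]
  have h0 := (Submodule.mem_orthogonal _ _).1 hz _ htZ
  rw [hin] at h0
  rw [← h0]
  refine Finset.sum_congr rfl fun i _ => integral_congr_ae ?_
  have e : z i = (hg i).toLp (g i) - y i := by
    have : (mk g hg) i = y i + z i := by rw [hyz]; rfl
    rw [eq_sub_iff_add_eq, add_comm, ← this]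
  filter_upwards [(hg i).coeFn_toLp, Lp.coeFn_sub ((hg i).toLp (g i)) (y i)] with x h1 h2
  rw [e, h2, Pi.sub_apply, h1]

theorem sq_le_of_amgm {s A B : ℝ} (hs : 0 ≤ s) (hA : 0 ≤ A) (hB : 0 ≤ B)
    (h : ∀ l > 0, 2 * s ≤ l * A + B / l) : s ^ 2 ≤ A * B := by
  rcases hs.eq_or_lt with h0 | hs
  · rw [← h0]; simpa using mul_nonneg hA hB
  rcases hA.eq_or_lt with h0 | hA
  · exfalso
    have := h ((B + 1) / s) (by positivity)
    rw [← h0, mul_zero, zero_add, div_div_eq_mul_div, le_div_iff₀ (by positivity)] at this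
    nlinarith
  have := h (s / A) (by positivity)
  rw [div_mul_cancel₀ _ hA.ne', div_div_eq_mul_div] at this
  have h2 : s ≤ B * A / s := by linarith
  rw [le_div_iff₀ hs] at h2
  nlinarith

/-- Cauchy–Schwarz with a weight. -/
theorem cs {X ι : Type} [MeasurableSpace X] [Fintype ι] (μ : Measure X) (a b : ι → X → ℂ)
    (m : X → ℝ) (ha : ∀ i, MemLp (a i) 2 μ) (hb : ∀ i, MemLp (b i) 2 μ) (hm : ∀ᵐ x ∂μ, 0 < m x)
    (h1 : Integrable (fun x => (∑ i, ‖a i x‖ ^ 2) / m x) μ)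
    (h2 : Integrable (fun x => m x * ∑ i, ‖b i x‖ ^ 2) μ) :
    ‖∑ i, ∫ x, a i x * b i x ∂μ‖ ^ 2 ≤
      (∫ x, (∑ i, ‖a i x‖ ^ 2) / m x ∂μ) * ∫ x, m x * ∑ i, ‖b i x‖ ^ 2 ∂μ := by
  refine sq_le_of_amgm (norm_nonneg _) (integral_nonneg_of_ae ?_) (integral_nonneg_of_ae ?_)
    fun l hl => ?_
  · filter_upwards [hm] with x hx; positivity
  · filter_upwards [hm] with x hx; positivity
  rw [← integral_finsetSum _ fun i _ => int_mul (ha i) (hb i), ← integral_const_mul,
    ← integral_div, ← integral_add (h1.const_mul l) (h2.div_const l)]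
  have h3 : ‖∫ x, ∑ i, a i x * b i x ∂μ‖ ≤
      ∫ x, (l * ((∑ i, ‖a i x‖ ^ 2) / m x) + (m x * ∑ i, ‖b i x‖ ^ 2) / l) / 2 ∂μ := by
    refine norm_integral_le_of_norm_le (((h1.const_mul l).add (h2.div_const l)).div_const 2) ?_
    filter_upwards [hm] with x hx
    refine (norm_sum_le _ _).trans ?_
    rw [Finset.sum_div, Finset.mul_sum, Finset.mul_sum, Finset.sum_div, ← Finset.sum_add_distrib,
      Finset.sum_div]
    refine Finset.sum_le_sum fun i _ => ?_
    rw [norm_mul]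
    have e : (l * (‖a i x‖ ^ 2 / m x) + m x * ‖b i x‖ ^ 2 / l) / 2 - ‖a i x‖ * ‖b i x‖ =
        (l * ‖a i x‖ - m x * ‖b i x‖) ^ 2 / (2 * l * m x) := by
      field_simp; ring
    have : 0 ≤ (l * ‖a i x‖ - m x * ‖b i x‖) ^ 2 / (2 * l * m x) := by positivity
    linarith
  rw [integral_div] at h3
  linarith

end Pool.Agent.MP_fcd29e_an.H31
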