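import Pool.Agent.MP_fcd29e_an.H31.Spec3
import Pool.Agent.MP_fcd29e_an.H47.HT3
import Pool.Agent.MP_fcd29e_an.H63.HG3

/-! Kernels that shift into the concave side. -/

set_option autoImplicit false

open MeasureTheory Complex Set Filter Topology Metric Pool.Agent.MP_fcd29e_an.H81
open scoped ContDiff ComplexConjugate ENNReal NNReal FourierTransform

namespace Pool.Agent.MP_fcd29e_an.H31

noncomputable section

variable {N : ℕ}

/-- Subtracting `t u`, `u ∈ Γ`, raises `ρ` by `c t` near `p`. -/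
structure Shift (ρ : E N → ℝ) (p : E N) (r c : ℝ) (Γ : Set (E N)) : Prop where
  r0 : 0 < r
  c0 : 0 < c
  far : 4 * r ≤ ‖p‖
  small : ∀ u ∈ Γ, ‖u‖ ≤ r
  up : ∀ u ∈ Γ, ∀ t, 0 < t → t ≤ 1 → ∀ y, ‖y - p‖ ≤ r → ρ (y + t • u) + t * c ≤ ρ y

theorem ball_E0 {p : E N} {r R : ℝ} (hr : 0 < r) (h : 4 * r ≤ ‖p‖) (hR : R < 4 * r) :
    closedBall p R ⊆ E0 N := fun z hz h0 => by
  rw [mem_singleton_iff.1 h0, mem_closedBall, dist_zero_left] at hz
  linarith

theorem shift (L : Lv2) {ρ : E N → ℝ} (hρ : Dom ρ) {p : E N} (hp : p ≠ 0) (h0 : ρ p = 0)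
    {T : ℝ} (hT : 1 ≤ T) : ∃ (r c δ : ℝ) (v : E N), 0 < δ ∧ Shift ρ p r c (Gam v δ T) := by
  obtain ⟨v, r, hr, hr4, hv⟩ := (L.c1 N ρ hρ).2.2.2.2.2.2.2.2.1 p hp h0
  have hE : closedBall p r ⊆ E0 N := ball_E0 hr hr4 (by linarith)
  have hc : ∀ z ∈ closedBall p r, ContDiffAt ℝ ∞ ρ z := fun z hz =>
    hρ.smooth.contDiffAt (isOpen_E0.mem_nhds (hE hz))
  obtain ⟨A, hA⟩ := (isCompact_closedBall p r).exists_bound_of_continuousOn (f := fderiv ℝ ρ)
    fun z hz => ((hc z hz).continuousAt_fderiv (by simp)).continuousWithinAt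
  have A0 : 0 < |A| + 1 := by positivity
  set a : ℝ := 1 / (2 * (|A| + 1)) with ha
  have a0 : 0 < a := by positivity
  have aA : (|A| + 1) * a = 1 / 2 := by rw [ha]; field_simp
  set t₀ : ℝ := r / 2 / (T * (‖v‖ + a)) with ht
  have t0 : 0 < t₀ := by positivity
  have tT : T * (t₀ * (‖v‖ + a)) = r / 2 := by rw [ht]; field_simp
  have sm : ∀ u ∈ Gam (-(t₀ • v)) (t₀ * a) T, ‖u‖ ≤ r / 2 := by
    rintro u ⟨τ, hτ, hu⟩
    have h1 := norm_add_le (u - τ • -(t₀ • v)) (τ • -(t₀ • v))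
    have τ0 : 0 < τ := by linarith [hτ.1]
    rw [sub_add_cancel, norm_smul, norm_neg, norm_smul, Real.norm_of_nonneg τ0.le,
      Real.norm_of_nonneg t0.le] at h1
    calc ‖u‖ ≤ τ * (t₀ * (‖v‖ + a)) := by linarith
      _ ≤ T * (t₀ * (‖v‖ + a)) := by gcongr; exact hτ.2
      _ = r / 2 := tT
  refine ⟨r / 2, t₀ / 4, t₀ * a, -(t₀ • v), by positivity, by positivity, by positivity,
    by linarith, sm, fun u hu t ht0 ht1 y hy => ?_⟩
  have hm : ∀ σ ∈ Icc 0 t, y + σ • u ∈ closedBall p r := fun σ hσ => by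
    rw [mem_closedBall, dist_eq_norm, add_sub_right_comm]
    refine (norm_add_le _ _).trans ?_
    rw [norm_smul, Real.norm_of_nonneg hσ.1]
    nlinarith [sm u hu, hσ.1, hσ.2, norm_nonneg u]
  have hd : ∀ σ ∈ Icc 0 t, HasDerivAt (fun σ : ℝ => ρ (y + σ • u)) (fderiv ℝ ρ (y + σ • u) u) σ :=
    fun σ hσ => by
      have h1 : HasDerivAt (fun σ : ℝ => y + σ • u) u σ := by
        simpa using ((hasDerivAt_id σ).smul_const u).const_add y
      exact ((hc _ (hm σ hσ)).differentiableAt (by simp)).hasFDerivAt.comp_hasDerivAt σ h1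
  have hb : ∀ z ∈ closedBall p r, fderiv ℝ ρ z u ≤ -(t₀ / 4) := fun z hz => by
    obtain ⟨τ, hτ, hu⟩ := hu
    have τ0 : 0 < τ := by linarith [hτ.1]
    have h1 : fderiv ℝ ρ z u = fderiv ℝ ρ z (u - τ • -(t₀ • v)) - τ * (t₀ * fderiv ℝ ρ z v) := by
      simp only [map_sub, map_smul, map_neg, smul_eq_mul]; ring
    have h2 : fderiv ℝ ρ z (u - τ • -(t₀ • v)) ≤ (|A| + 1) * (τ * (t₀ * a)) :=
      (le_abs_self _).trans (((fderiv ℝ ρ z).le_opNorm _).trans
        (mul_le_mul ((hA z hz).trans (by linarith [le_abs_self A])) hu (norm_nonneg _) A0.le))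
    have h3 : (|A| + 1) * (τ * (t₀ * a)) = τ * t₀ / 2 := by
      linear_combination τ * t₀ * aA
    have h4 : τ * t₀ ≤ τ * (t₀ * fderiv ℝ ρ z v) := by
      have := hv z hz
      gcongr
      exact le_mul_of_one_le_right t0.le this
    nlinarith [hτ.1]
  have := (convex_Icc 0 t).image_sub_le_mul_sub_of_deriv_le (f := fun σ : ℝ => ρ (y + σ • u))
    (fun σ hσ => (hd σ hσ).continuousAt.continuousWithinAt)
    (fun σ hσ => (hd σ (interior_subset hσ)).differentiableAt.differentiableWithinAt)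
    (C := -(t₀ / 4)) (fun σ hσ => by
      rw [(hd σ (interior_subset hσ)).deriv]
      exact hb _ (hm σ (interior_subset hσ))) 0 ⟨le_rfl, ht0.le⟩ t ⟨ht0.le, le_rfl⟩ ht0.le
  simp only [zero_smul, add_zero, sub_zero] at this
  linarith

/-- The cut-off at distance `t` from the boundary. -/
def th3 (ρ : E N → ℝ) (c t : ℝ) (y : E N) : ℂ := (cut (4 * ρ y / (c * t)) : ℝ)

theorem th3_smooth {ρ : E N → ℝ} (hρ : Dom ρ) (c t : ℝ) : ContDiffOn ℝ ∞ (th3 ρ c t) (E0 N) :=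
  ofRealCLM.contDiff.comp_contDiffOn (Real.smoothTransition.contDiff.comp_contDiffOn
    (((contDiffOn_const.mul hρ.smooth).div_const _).sub contDiffOn_const))

theorem th3_one {ρ : E N → ℝ} {c t : ℝ} (h : 0 < c * t) {y : E N} (hy : c * t / 2 ≤ ρ y) :
    th3 ρ c t y = 1 := by
  have : 2 ≤ 4 * ρ y / (c * t) := by rw [le_div_iff₀ h]; linarith
  rw [th3, cut, Real.smoothTransition.one_of_one_le (by linarith), ofReal_one]

theorem th3_zero {ρ : E N → ℝ} {c t : ℝ} (h : 0 < c * t) {y : E N} (hy : 4 * ρ y ≤ c * t) :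
    th3 ρ c t y = 0 := by
  have : 4 * ρ y / (c * t) ≤ 1 := by rw [div_le_iff₀ h]; linarith
  rw [th3, cut, Real.smoothTransition.zero_of_nonpos (by linarith), ofReal_zero]

theorem th3_le (ρ : E N → ℝ) (c t : ℝ) (y : E N) : ‖th3 ρ c t y‖ ≤ 1 := by
  rw [th3, Complex.norm_real, cut, Real.norm_of_nonneg (Real.smoothTransition.nonneg _)]
  exact Real.smoothTransition.le_one _

variable {ρ : E N → ℝ} {p : E N} {r c : ℝ} {Γ : Set (E N)}

theorem sc_mem {k : E N → ℂ} (hk : ∀ y ∉ Γ, k y = 0) {t : ℝ} (ht : 0 < t) {x y : E N}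
    (h : Sc t k (x - y) ≠ 0) : ∃ u ∈ Γ, x = y + t • u := by
  refine ⟨t⁻¹ • (x - y), ?_, by rw [smul_inv_smul₀ ht.ne', add_sub_cancel]⟩
  by_contra h'
  exact h (by rw [Sc, hk _ h', zero_div])

theorem cv_cut (S : Shift ρ p r c Γ) {k h : E N → ℂ} (hk : ∀ y ∉ Γ, k y = 0)
    (hh : ∀ y, h y ≠ 0 → ‖y - p‖ ≤ r) {t : ℝ} (ht : 0 < t) (ht1 : t ≤ 1) {x : E N}
    (hx : -(c * t / 2) ≤ ρ x) : Cv (Sc t k) (fun y => th3 ρ c t y * h y) x = Cv (Sc t k) h x := by
  refine integral_congr_ae (Eventually.of_forall fun y => ?_)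
  by_cases h1 : Sc t k (x - y) = 0
  · simp [h1]
  by_cases h2 : h y = 0
  · simp [h2]
  obtain ⟨u, hu, rfl⟩ := sc_mem hk ht h1
  have := S.up u hu t ht ht1 y (hh y h2)
  simp only [th3_one (mul_pos S.c0 ht) (show c * t / 2 ≤ ρ y by linarith), one_mul]

theorem cv_supp (S : Shift ρ p r c Γ) {k h : E N → ℂ} (hk : ∀ y ∉ Γ, k y = 0)
    (hh : ∀ y, h y ≠ 0 → ‖y - p‖ ≤ r) {t : ℝ} (ht : 0 < t) (ht1 : t ≤ 1) {x : E N}
    (hx : x ∉ closedBall p (2 * r)) : Cv (Sc t k) h x = 0 := by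
  refine integral_eq_zero_of_ae (Eventually.of_forall fun y => ?_)
  by_contra h0
  obtain ⟨u, hu, rfl⟩ := sc_mem hk ht (left_ne_zero_of_mul h0)
  refine hx ?_
  rw [mem_closedBall, dist_eq_norm, add_sub_right_comm]
  refine (norm_add_le _ _).trans ?_
  rw [norm_smul, Real.norm_of_nonneg ht.le]
  nlinarith [S.small u hu, hh y (right_ne_zero_of_mul h0), norm_nonneg u]

theorem wsum (L : Lv2) (hρ : Dom ρ) {s : ℝ} (hs : 0 < s) (hc : 0 < c) : ∃ C : ℝ≥0,
    ∀ (J : ℕ) (w f : E N → ℂ), Continuous f → f 0 = 0 →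
      (∀ z, ‖f z‖ ^ 2 ≤ ‖w z‖ ^ 2 + ‖fderiv ℝ w z‖ ^ 2) →
      ∑ i ∈ Finset.range J, ENNReal.ofReal (dy i ^ (2 * s)) *
        N2 (fun y => th3 ρ c (dy i) y * f y) ≤ C * WI ρ s w := by
  obtain ⟨-, hO, -, -, hm, -⟩ := L.c1 N ρ hρ
  obtain ⟨C, hC⟩ := L.geo (2 * s) (by positivity)
  refine ⟨C * ((4 / c) ^ (2 * s)).toNNReal, fun J w f hf f0 hb => ?_⟩
  have me : ∀ i, Measurable fun y => ENNReal.ofReal (‖th3 ρ c (dy i) y * f y‖ ^ 2) := fun i =>
    (((measurable_ofReal.comp (Real.smoothTransition.continuous.measurable.comp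
      (((hm.const_mul 4).div_const _).sub_const 1))).mul hf.measurable).norm.pow_const
        2).ennreal_ofReal
  have e1 : ∀ i, ENNReal.ofReal (dy i ^ (2 * s)) * N2 (fun y => th3 ρ c (dy i) y * f y) =
      ∫⁻ y, ENNReal.ofReal (dy i ^ (2 * s)) * ENNReal.ofReal (‖th3 ρ c (dy i) y * f y‖ ^ 2) :=
    fun i => (lintegral_const_mul _ (me i)).symm
  simp only [e1]
  rw [← lintegral_finsetSum _ fun i _ => (me i).const_mul _, WI,
    ← lintegral_const_mul' _ _ ENNReal.coe_ne_top, ← lintegral_indicator hO.measurableSet]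
  refine lintegral_mono fun z => ?_
  by_cases hz : z ∈ Op ρ
  · have z0 : 0 < ρ z := hz.2
    have h1 := (hC (4 / c * ρ z) (by positivity)).1
    rw [indicator_of_mem hz]
    calc ∑ i ∈ Finset.range J, ENNReal.ofReal (dy i ^ (2 * s)) *
          ENNReal.ofReal (‖th3 ρ c (dy i) z * f z‖ ^ 2)
        ≤ ∑ i ∈ Finset.range J, (if dy i ≤ 4 / c * ρ z then ENNReal.ofReal (dy i ^ (2 * s)) else 0) *
          ENNReal.ofReal (‖w z‖ ^ 2 + ‖fderiv ℝ w z‖ ^ 2) := by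
          refine Finset.sum_le_sum fun i _ => ?_
          split_ifs with h
          · refine mul_le_mul_right (ENNReal.ofReal_le_ofReal (le_trans ?_ (hb z))) _
            rw [norm_mul]
            exact pow_le_pow_left₀ (by positivity)
              (mul_le_of_le_one_left (norm_nonneg _) (th3_le _ _ _ _)) 2
          · rw [div_mul_eq_mul_div, le_div_iff₀ hc, not_le] at h
            rw [th3_zero (mul_pos hc (H47.dy_pos i)) (by linarith)]
            simp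
      _ ≤ C * ENNReal.ofReal ((4 / c * ρ z) ^ (2 * s)) *
          ENNReal.ofReal (‖w z‖ ^ 2 + ‖fderiv ℝ w z‖ ^ 2) := by
          rw [← Finset.sum_mul]
          exact mul_le_mul_left ((ENNReal.sum_le_tsum _).trans h1) _
      _ = _ := by
          rw [Real.mul_rpow (by positivity) z0.le, ENNReal.ofReal_mul (by positivity),
            ENNReal.ofReal_mul (p := ρ z ^ (2 * s)) (by positivity), ENNReal.coe_mul]
          simp only [mul_assoc]
          rfl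
  · refine le_trans (le_of_eq (Finset.sum_eq_zero fun i _ => ?_)) zero_le
    by_cases h0 : z = 0
    · simp [h0, f0]
    · have : ρ z ≤ 0 := not_lt.1 fun h => hz ⟨h0, h⟩
      have h2 := mul_pos hc (H47.dy_pos i)
      rw [th3_zero h2 (by linarith)]
      simp

/-- Bounds that are uniform in a parameter. -/
def Bu {α : Type} (Q : α → Prop) (W : α → ℝ≥0∞) (T : α → ℂ) : Prop :=
  ∃ C : ℝ≥0, ∀ a, Q a → ENNReal.ofReal (‖T a‖ ^ 2) ≤ C * W a

theorem Bu.add {α : Type} {Q : α → Prop} {W : α → ℝ≥0∞} {T₁ T₂ : α → ℂ} (h₁ : Bu Q W T₁)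
    (h₂ : Bu Q W T₂) : Bu Q W fun a => T₁ a + T₂ a := by
  obtain ⟨C₁, h₁⟩ := h₁
  obtain ⟨C₂, h₂⟩ := h₂
  refine ⟨2 * C₁ + 2 * C₂, fun a ha => ?_⟩
  have e : ‖T₁ a + T₂ a‖ ^ 2 ≤ 2 * ‖T₁ a‖ ^ 2 + 2 * ‖T₂ a‖ ^ 2 := by
    have h3 := pow_le_pow_left₀ (norm_nonneg _) (norm_add_le (T₁ a) (T₂ a)) 2
    nlinarith [sq_nonneg (‖T₁ a‖ - ‖T₂ a‖)]
  calc _ ≤ ENNReal.ofReal (2 * ‖T₁ a‖ ^ 2 + 2 * ‖T₂ a‖ ^ 2) := ENNReal.ofReal_le_ofReal e
    _ = 2 * ENNReal.ofReal (‖T₁ a‖ ^ 2) + 2 * ENNReal.ofReal (‖T₂ a‖ ^ 2) := by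
        rw [ENNReal.ofReal_add (by positivity) (by positivity), ENNReal.ofReal_mul (by norm_num),
          ENNReal.ofReal_mul (by norm_num)]
        simp
    _ ≤ 2 * (C₁ * W a) + 2 * (C₂ * W a) := by
        gcongr
        exacts [h₁ a ha, h₂ a ha]
    _ = _ := by push_cast; ring

theorem Bu.sum {α ι : Type} {Q : α → Prop} {W : α → ℝ≥0∞} (t : Finset ι) {T : ι → α → ℂ}
    (h : ∀ i, Bu Q W (T i)) : Bu Q W fun a => ∑ i ∈ t, T i a := by
  classical
  induction t using Finset.induction_on with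
  | empty => exact ⟨0, fun a _ => by simp⟩
  | insert i t hi ih => simpa only [Finset.sum_insert hi] using (h i).add ih

theorem tst_sum (L : Lv2) {ι : Type} (t : Finset ι) {F : ι → E N → ℂ} (h : ∀ i, Tst (F i)) :
    Tst fun x => ∑ i ∈ t, F i x := by
  classical
  induction t using Finset.induction_on with
  | empty => exact ⟨contDiff_const, HasCompactSupport.zero⟩
  | insert i t hi ih =>
    simpa only [Finset.sum_insert hi] using ((L.fa N _ ih).2.2.2.2.2.2.2.2.2 _ (h i)).2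

theorem tst_cv (L : Lv2) {k h : E N → ℂ} (hk : Tst k) (hh : Tst h) {t : ℝ} (ht : 0 < t) :
    Tst (Cv (Sc t k) h) := by
  have := (L.fa N k hk).2.2.2.2.2.2.1 t ht
  exact ((L.fb N _ (H47.tst_int this)).2.2.2.2.2 this.2 h hh).1

end

end Pool.Agent.MP_fcd29e_an.H31
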