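import Pool.Agent.MP_fcd29e_an.H31.Spec3
import Pool.Agent.MP_fcd29e_an.H27.AL2
import Pool.Agent.MP_fcd29e_an.H16.NEW

/-! The solution of the divergence equation on the convex side, in weak form. -/

set_option autoImplicit false

open MeasureTheory Complex Set Filter Topology Metric Pool.Agent.MP_fcd29e_an.H81
open scoped ContDiff ComplexConjugate ENNReal NNReal

namespace Pool.Agent.MP_fcd29e_an.H31

theorem eps_three (h : StmtAL1) (q : ℕ) (ζ : Fin (q + 3) → ℂ) (l j : Fin (q + 3))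
    (J : Fin (q + 1 + 1) → Fin (q + 3)) :
    ∑ a : Fin (q + 1 + 1), (-1) ^ (a : ℕ) *
      (eps (Fin.cons l (Fin.cons j (a.removeNth J) : Fin (q + 1 + 1) → Fin (q + 3))) * ζ (J a)) =
      ζ j * eps (Fin.cons l J) - ζ l * eps (Fin.cons j J) := by
  have h1 : altA (wdA ζ (eps (N := q + 3))) := ((h (q + 3) (q + 3) ζ ζ).1 _).1 (H27.eps_alt _)
  have h2 : wdA ζ (eps (N := q + 3))
      (Fin.cons l (Fin.cons j J : Fin (q + 1 + 1 + 1) → Fin (q + 3))) = 0 :=
    H27.alt_zero h1 fun hi => by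
      have := Fintype.card_le_of_injective _ hi
      simp at this
  unfold wdA at h2
  rw [Fin.sum_univ_succ, Fin.sum_univ_succ] at h2
  simp only [H16.rem_succ, Fin.cons_succ, Fin.cons_zero, Fin.removeNth_zero, Fin.tail_cons,
    Fin.val_zero, pow_zero, one_mul, Fin.val_succ, pow_succ, mul_neg, mul_one,
    neg_mul, neg_neg] at h2
  have e : ∑ a : Fin (q + 1 + 1), (-1) ^ (a : ℕ) *
      (eps (Fin.cons l (Fin.cons j (a.removeNth J) : Fin (q + 1 + 1) → Fin (q + 3))) * ζ (J a)) =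
      ∑ a : Fin (q + 1 + 1), (-1) ^ (a : ℕ) * ζ (J a) *
      eps (Fin.cons l (Fin.cons j (a.removeNth J) : Fin (q + 1 + 1) → Fin (q + 3))) :=
    Finset.sum_congr rfl fun a _ => by ring
  rw [e]
  linear_combination h2

theorem star_sum (h : StmtAL1) (h' : StmtAL2) (q : ℕ) {x : (Fin (q + 1 + 1) → Fin (q + 3)) → ℂ}
    (hx : altA x) (J : Fin (q + 1 + 1) → Fin (q + 3)) :
    ∑ l : Fin (q + 3), eps (Fin.cons l J) * ((-1) ^ (l : ℕ) * x l.succAbove) = x J := by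
  have h1 : ∀ l : Fin (q + 3), eps (Fin.cons l J) * ((-1) ^ (l : ℕ) * x l.succAbove) =
      x J - ∑ a : Fin (q + 1 + 1), if l = J a then
        (-1) ^ (a : ℕ) * x (Fin.cons (J a) (a.removeNth J)) else 0 := fun l => by
    have h2 := ((h' (q + 2)).1 x hx).1 (Pi.single l 1) (Fin.cons l J)
    have h3 : ∑ m : Fin (q + 2 + 1), (Pi.single l (1 : ℂ) : Fin (q + 3) → ℂ) m *
        ((-1) ^ (m : ℕ) * x m.succAbove) = (-1) ^ (l : ℕ) * x l.succAbove := by
      simp [Pi.single_apply]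
    rw [h3] at h2
    rw [← h2]
    unfold wdA
    rw [Fin.sum_univ_succ]
    simp only [H16.rem_succ, Fin.cons_succ, Fin.cons_zero, Fin.removeNth_zero, Fin.tail_cons,
      Fin.val_zero, pow_zero, one_mul, Fin.val_succ, pow_succ, mul_neg, mul_one,
      neg_mul, Pi.single_eq_same, Finset.sum_neg_distrib, sub_eq_add_neg]
    congr 2
    refine Finset.sum_congr rfl fun a _ => ?_
    by_cases hl : l = J a
    · subst hl
      simp
    · simp [hl, Pi.single_apply, Ne.symm hl]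
  have h4 := fun a => ((h (q + 3) (q + 1) 0 0).2 x hx).2.2.2.2 J a
  simp only [h1, h4, Finset.sum_sub_distrib]
  rw [Finset.sum_comm]
  simp
  ring

variable {N : ℕ}

theorem lam_sub {X A : Fin N → E N → ℂ} {B : Fin N → Fin N → E N → ℂ} {g : Fin N → E N → ℂ}
    (hX : ∀ l, Integrable fun z => X l z * g l z) (hA : ∀ l, Integrable fun z => A l z * g l z) :
    Lam (fun l z => X l z - A l z) (fun l i z => -B l i z) g =
      ∑ l, (∫ z, X l z * g l z) - Lam A B g := by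
  unfold Lam
  simp only [sub_mul, neg_mul, integral_neg, Finset.sum_neg_distrib,
    fun l => integral_sub (hX l) (hA l), Finset.sum_sub_distrib]
  ring

/-- The field `X - A + ∂B`, tested against the potential of `φ`. -/
noncomputable def LL (X A : Fin N → E N → ℂ) (B : Fin N → Fin N → E N → ℂ) (l j : Fin N)
    (φ : E N → ℂ) : ℂ :=
  (∫ z, X l z * Ec j φ z) - (∫ z, A l z * Ec j φ z) - ∑ i, ∫ z, B l i z * Ec j (dz i φ) z

theorem tst_of {U : Set (E N)} {ψ : E N → ℂ} (h : Test U ψ) : Tst ψ := ⟨h.1, h.2.1⟩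

theorem ll_closed (L : Lv2) (ho : StmtORIs) (hN : 3 ≤ N) {m : ℤ} (hm1 : -(N : ℤ) ≤ m)
    (hm2 : m ≤ -1) {κ : ℝ → ℝ} (hκ : Kap κ) {X A : Fin N → E N → ℂ}
    {B : Fin N → Fin N → E N → ℂ} (hX : ∀ l, L2 (E0 N) (X l) ∧ Hom (E0 N) m (1 - N) (X l))
    (hA : ∀ l, L2 (E0 N) (A l) ∧ Hom (E0 N) m (1 - N) (A l))
    (hB : ∀ l i, L2 (E0 N) (B l i) ∧ Hom (E0 N) (m + 1) (1 - N) (B l i))
    (zX : ∀ z, z ≠ 0 → ∑ l, z l * X l z = 0)
    (hD : ∀ ψ, Test (E0 N) ψ → Dv X ψ = Lam A B fun l => dzb l ψ) (hF : Lam A B (rad κ) = 0)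
    {ψ : E N → ℂ} (hψ : Tst ψ) (j : Fin N) : ∑ l, LL X A B l j (dzb l ψ) = 0 := by
  have T0 := L.t1 N _ isOpen_E0 cone_E0.1
  have int0 : ∀ g ψ, L2 (E0 N) g → Test (E0 N) ψ → Integrable fun z => g z * ψ z :=
    fun g ψ hg hψ => ((T0.1 g hg).2.2.1 ψ hψ.1.continuous hψ.2.1 hψ.2.2).1
  obtain ⟨b1, -, b3⟩ := L.bm2 N (by omega)
  have tb := fun l => ((L.fa N ψ hψ).2.2.2.2.2.1 l).2
  obtain ⟨d1, -, -, d4, C, d5⟩ := (b1 ψ hψ).2 j
  choose D hD' using fun l => ((b1 _ (tb l)).2 j).2.2.2.2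
  have hrad : ∀ l, Test (E0 N) (rad κ l) := fun l => by
    have := (T0.2.2.2.1 _ ((L.t3.2 N).1 κ hκ).1).1 (fun z => z l) (contDiff_coord l).contDiffOn
    rwa [show (fun z : E N => z l * (κ (‖z‖ ^ 2) : ℂ)) = rad κ l from
      funext fun z => mul_comm _ _] at this
  have XD := fun l => (L.t3.2 N).2.1 _ _ _ (hX l).1 (hX l).2 (by omega) (by omega)
  have AD := fun l => (L.t3.2 N).2.1 _ _ _ (hA l).1 (hA l).2 (by omega) (by omega)
  have key := ho N (by omega) m (1 - N) (fun l z => X l z - A l z) (fun l i z => -B l i z) κ hκ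
    (fun l => ⟨((T0.1 _ (hX l).1).2.2.2.1 _ (hA l).1).2, fun c hc z hz => by
      simp only [(hX l).2 c hc z hz, (hA l).2 c hc z hz]; ring⟩)
    (fun l i => ⟨by
      simpa using (T0.1 _ (hB l i).1).2.2.2.2.1 (fun _ => -1) continuousOn_const,
      fun c hc z hz => by simp only [(hB l i).2 c hc z hz]; ring⟩) (by omega) (by omega)
    (fun φ hφ => by
      have t := fun l => ((T0.2.2.2.1 φ hφ).2.2.1 l).2
      rw [lam_sub (fun l => int0 _ _ (hX l).1 (t l)) fun l => int0 _ _ (hA l).1 (t l), ← hD φ hφ,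
        Dv, sub_self])
    (by
      rw [lam_sub (fun l => int0 _ _ (hX l).1 (hrad l)) fun l => int0 _ _ (hA l).1 (hrad l), hF,
        sub_zero, ← integral_finsetSum _ fun l _ => int0 _ _ (hX l).1 (hrad l)]
      refine integral_eq_zero_of_ae ?_
      filter_upwards [H16.ae_ne_zero j] with z hz
      simp only [rad, Pi.zero_apply]
      rw [← mul_zero (κ (‖z‖ ^ 2) : ℂ), ← zX z hz, Finset.mul_sum]
      exact Finset.sum_congr rfl fun l _ => by ring)
    (Ec j ψ) (|C| + ∑ l, |D l|) d1 fun y => by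
      have p : 0 < (1 + ‖y‖) ^ (2 * N - 1) := by positivity
      have s0 : 0 ≤ ∑ l, |D l| := Finset.sum_nonneg fun l _ => abs_nonneg _
      have c1 : C / (1 + ‖y‖) ^ (2 * N - 1) ≤ (|C| + ∑ l, |D l|) / (1 + ‖y‖) ^ (2 * N - 1) :=
        div_le_div_of_nonneg_right (by linarith [le_abs_self C]) p.le
      refine ⟨(d5 y).1.trans c1, (d5 y).2.trans c1, fun l => ?_⟩
      rw [(d4 l).2]
      refine (hD' l y).2.trans (div_le_div_of_nonneg_right ?_ p.le)
      have := Finset.single_le_sum (f := fun l => |D l|) (fun l _ => abs_nonneg _)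
        (Finset.mem_univ l)
      linarith [le_abs_self (D l), abs_nonneg C]
  simp only [fun l => (d4 l).2] at key
  rw [lam_sub (fun l => ((b3 _ (XD l) j).2.2 _ (tb l)).1)
    fun l => ((b3 _ (AD l) j).2.2 _ (tb l)).1] at key
  simp only [Lam, fun l i => (((b1 _ (tb l)).2 j).2.2.2.1 i).1] at key
  simp only [LL, Finset.sum_sub_distrib]
  linear_combination key

theorem ll_sum (L : Lv2) (hN : 1 ≤ N) {ρ : E N → ℝ} {X A : Fin N → E N → ℂ}
    {B : Fin N → Fin N → E N → ℂ} (l : Fin N) (hX : DI (X l))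
    (hA : DI (A l) ∧ ∀ᵐ z, ρ z ≤ 0 → A l z = 0)
    (hB : ∀ i, DI (B l i) ∧ ∀ᵐ z, ρ z ≤ 0 → B l i z = 0) {ψ : E N → ℂ} (hψ : Test (Om ρ) ψ) :
    ∑ j, LL X A B l j (dzb j ψ) = ∫ z, X l z * ψ z := by
  obtain ⟨b1, -, b3⟩ := L.bm2 N hN
  have k1 : ∀ g φ : E N → ℂ, DI g → Tst φ →
      ∑ j, ∫ z, g z * Ec j (dzb j φ) z = ∫ z, g z * φ z := fun g φ hg hφ => by
    rw [← integral_finsetSum _ fun j _ =>
      ((b3 _ hg j).2.2 _ ((L.fa N φ hφ).2.2.2.2.2.1 j).2).1]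
    simp only [← Finset.mul_sum, (b1 φ hφ).1]
  have k2 : ∀ g φ : E N → ℂ, (∀ᵐ z, ρ z ≤ 0 → g z = 0) → tsupport φ ⊆ Om ρ →
      ∫ z, g z * φ z = 0 := fun g φ hg hφ => by
    refine integral_eq_zero_of_ae ?_
    filter_upwards [hg] with z hz
    by_cases h : z ∈ tsupport φ
    · simp [hz (hφ h).2.le]
    · simp [image_eq_zero_of_notMem_tsupport h]
  have ht := tst_of hψ
  have cm : ∀ i j, dz i (dzb j ψ) = dzb j (dz i ψ) := fun i j =>
    funext fun z => dz_dzb_comm i j hψ.1.contDiffAt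
  have hs : ∀ i, tsupport (dz i ψ) ⊆ Om ρ := fun i => by
    refine Subset.trans (closure_minimal (fun z hz => ?_) (isClosed_tsupport ψ)) hψ.2.2
    by_contra h
    exact hz (by rw [dz_congr (notMem_tsupport_iff_eventuallyEq.1 h)]; simp [dz])
  simp only [LL, Finset.sum_sub_distrib, cm]
  rw [Finset.sum_comm, k1 _ _ hX ht, k1 _ _ hA.1 ht, k2 _ _ hA.2 hψ.2.2, sub_zero,
    Finset.sum_eq_zero, sub_zero]
  intro i _
  rw [k1 _ _ (hB i).1 ((L.fa N ψ ht).2.2.2.2.2.1 i).1, k2 _ _ (hB i).2 (hs i)]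

end Pool.Agent.MP_fcd29e_an.H31
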