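import Pool.Agent.MP_fcd29e_an.H31.S3a

/-!
The Newton potential of the current `S` is a function off `K`.
-/

set_option autoImplicit false

open Pool.Agent.MP_fcd29e_an.H81 MeasureTheory Complex Set Filter Topology Metric
open scoped ContDiff ComplexConjugate ENNReal NNReal

namespace Pool.Agent.MP_fcd29e_an.H31

variable {N : ℕ}

theorem dz_reflect (l : Fin N) (f : E N → ℂ) (x y : E N) (hf : DifferentiableAt ℝ f (x - y)) :
    dz l (fun y => f (x - y)) y = -dz l f (x - y) := by
  have h : HasFDerivAt (fun y => f (x - y))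
      ((fderiv ℝ f (x - y)).comp (-ContinuousLinearMap.id ℝ (E N))) y :=
    HasFDerivAt.comp (f := fun y => x - y) y hf.hasFDerivAt ((hasFDerivAt_id y).const_sub x)
  simp only [dz, h.fderiv]
  simp
  ring

theorem sf_eq (L : Lv0) {ρ : E N → ℝ} {K : Set (E N)} (hN : 2 ≤ N) (hK : KS ρ K)
    {F : Fin N → Fin N → E N → ℂ} (hF : ∀ j k, Test {y | 0 < infDist y K} (F j k)) {x : E N}
    (hx : infDist x K = 0) :
    sf ρ (fun k x => ∑ j, Ec j (F j k) x) x = ∑ j, ∑ k, ∫ y, GG ρ j k x y * F j k y := by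
  set O : Set (E N) := {y | 0 < infDist y K} with hO
  have hOo : IsOpen O := isOpen_lt continuous_const (continuous_infDist_pt K)
  have h0 : (0 : E N) ∉ O := by simp [hO, infDist_zero hK]
  obtain ⟨-, hE, -⟩ := L.bm1 N (by omega)
  obtain ⟨-, -, -, t4, -, t6, -⟩ := L.t1 N O hOo h0
  have hb := fun j k => ((L.bm2 N (by omega)).1 (F j k) ⟨(hF j k).1, (hF j k).2.1⟩).2
  have hne : ∀ y ∈ O, x - y ≠ 0 := fun y hy h => by
    rw [sub_eq_zero] at h
    rw [← h] at hy
    exact absurd hx (ne_of_gt hy)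
  have hs : ∀ j, ContDiffOn ℝ ∞ (fun y => Ek j (x - y)) O := fun j =>
    (hE j).2.2.1.comp (contDiff_const.sub contDiff_id).contDiffOn fun y hy => hne y hy
  have hat : ∀ j, ∀ y ∈ O, ContDiffAt ℝ ∞ (Ek j) (x - y) := fun j y hy =>
    (hE j).2.2.1.contDiffAt (isOpen_E0.mem_nhds (hne y hy))
  have hz : ∀ ψ : E N → ℂ, Test O ψ → ∀ y ∉ O, ψ y = 0 := fun ψ hψ y hy =>
    image_eq_zero_of_notMem_tsupport fun h => hy (hψ.2.2 h)
  have hD : ∀ l j, ∀ y ∈ O, dz l (fun y => Ek j (x - y)) y = -DE l j (x - y) := fun l j y hy => by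
    rw [dz_reflect l _ x y (ContDiffAt.da (hat j y hy)), dz_Ek l j (hne y hy)]
  have I1 : ∀ l j k, Integrable fun y => DE l j (x - y) * F j k y := fun l j k => by
    have h1 : ContDiffOn ℝ ∞ (dz l fun y => Ek j (x - y)) O := fun y hy =>
      (contDiffAt_dz l ((hs j).contDiffAt (hOo.mem_nhds hy))).contDiffWithinAt
    have h2 := (t4 _ (hF j k)).1 _ h1
    refine (h2.1.continuous.integrable_of_hasCompactSupport h2.2.1).neg.congr
      (ae_of_all _ fun y => ?_)
    by_cases hy : y ∈ O
    · simp [hD l j y hy]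
    · simp [hz _ (hF j k) y hy]
  have e1 : ∀ l j k, dz l (Ec j (F j k)) x = ∫ y, DE l j (x - y) * F j k y := fun l j k => by
    rw [((hb j k j).2.2.2.1 l).1, Ec, ← setIntegral_eq_integral_of_forall_compl_eq_zero (s := O)
      (fun y hy => by rw [hz _ ((t4 _ (hF j k)).2.2.1 l).1 y hy, mul_zero]),
      ((t6 _ (hs j)).2 l).2 _ (hF j k), ← integral_neg,
      ← setIntegral_eq_integral_of_forall_compl_eq_zero (s := O)
      (f := fun y => DE l j (x - y) * F j k y) (fun y hy => by rw [hz _ (hF j k) y hy, mul_zero])]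
    refine setIntegral_congr_fun hOo.measurableSet fun y hy => ?_
    simp only [hD l j y hy]; ring
  have e2 : ∀ j k, ∫ y, GG ρ j k x y * F j k y = ∑ l, PP ρ x l k * dz l (Ec j (F j k)) x -
      ((N : ℂ) - 2) * (conj (x k) * Ec j (F j k) x) / (‖x‖ ^ 2 : ℝ) := fun j k => by
    have : ∀ y, GG ρ j k x y * F j k y = ∑ l, PP ρ x l k * (DE l j (x - y) * F j k y) -
        ((N : ℂ) - 2) * conj (x k) / (‖x‖ ^ 2 : ℝ) * (Ek j (x - y) * F j k y) := fun y => by
      simp only [GG, sub_mul, Finset.sum_mul, mul_assoc]; ring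
    simp only [this]
    rw [integral_sub (integrable_finsetSum _ fun l _ => (I1 l j k).const_mul _)
      (((hb j k j).2.1 x).const_mul _), integral_finsetSum _ fun l _ => (I1 l j k).const_mul _,
      integral_const_mul]
    simp only [integral_const_mul, e1, Ec]
    ring
  have e3 : ∀ l k, dz l (fun x => ∑ j, Ec j (F j k) x) x = ∑ j, dz l (Ec j (F j k)) x :=
    fun l k => dz_sum l _ fun j _ => ContDiffAt.da (hb j k j).1.contDiffAt
  simp only [sf, e2, e3, Finset.sum_sub_distrib, Finset.mul_sum, Finset.sum_div]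
  congr 1
  · rw [Finset.sum_comm]
    conv_rhs => rw [Finset.sum_comm]
    exact Finset.sum_congr rfl fun k _ => Finset.sum_comm
  · exact Finset.sum_comm

theorem s3 (L : Lv0) (h1 : StmtS1) (h2 : StmtS2) : StmtS3 := by
  intro N ρ K μ hN hρ hK hμ
  haveI := hμ.prob
  obtain ⟨C, hC, hG⟩ := GG_bound L hN hρ hK
  obtain ⟨-, hE, -⟩ := L.bm1 N (by omega)
  set O : Set (E N) := {y | 0 < infDist y K} with hO
  have hOo : IsOpen O := isOpen_lt continuous_const (continuous_infDist_pt K)
  have h0 : (0 : E N) ∉ O := by simp [hO, infDist_zero hK]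
  obtain ⟨-, -, -, t4, -⟩ := L.t1 N O hOo h0
  let ν : Measure (E N × ℂ) := μ.prod volume
  have hν : ∀ᵐ q ∂ν, (q.1 ∈ K ∧ ‖q.1‖ = 1) ∧ q.2 ≠ 0 :=
    (Measure.quasiMeasurePreserving_fst.ae hμ.supp).and
      (Measure.quasiMeasurePreserving_snd.ae (p := fun c : ℂ => c ≠ 0) (by simp [ae_iff]))
  have hm := fun j k => meas_GG ρ j k (hE j).1
  let R0 : Fin N → Fin N → E N → ℂ := fun j k y => ∫ q, GG ρ j k (q.2 • q.1) y ∂ν
  have mR : ∀ j k, StronglyMeasurable (R0 j k) := fun j k =>
    (hm j k).stronglyMeasurable.integral_prod_left'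
  have I0 : 0 ≤ ∫ c, gs 1 c := integral_nonneg gs_nonneg
  have bR : ∀ j k y, 0 < infDist y K →
      ‖R0 j k y‖ ≤ C * (∫ c, gs 1 c) * ‖y‖ ^ 2 / infDist y K ^ (2 * N) := fun j k y hy => by
    have hs : 0 < ‖y‖ := hy.trans_le (infDist_le_norm hK y)
    refine (norm_integral_le_of_norm_le (((gs_int hs).const_mul
      (C * ‖y‖ ^ 3 / infDist y K ^ (2 * N))).comp_snd μ) ?_).trans (le_of_eq ?_)
    · filter_upwards [hν] with q hq
      exact hG j k q.1 hq.1.1 hq.1.2 q.2 hq.2 y hy
    · rw [integral_fun_snd (fun c => C * ‖y‖ ^ 3 / infDist y K ^ (2 * N) * gs ‖y‖ c),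
        integral_const_mul, gs_integral hs]
      simp only [probReal_univ, smul_eq_mul]
      field_simp
  have IP : ∀ j k ψ, Test O ψ → Integrable
      (fun q : (E N × ℂ) × E N => GG ρ j k (q.1.2 • q.1.1) q.2 * ψ q.2) (ν.prod volume) := by
    intro j k ψ hψ
    obtain ⟨δ, hδ, hd⟩ := hψ.2.1.isCompact.exists_forall_le'
      (continuous_infDist_pt K).continuousOn (a := 0) fun y hy => hψ.2.2 hy
    obtain ⟨M, hM⟩ := hψ.2.1.isCompact.isBounded.exists_norm_le
    have iψ := (hψ.1.continuous.integrable_of_hasCompactSupport hψ.2.1 (μ := volume)).norm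
    refine Integrable.mono' ((((gs_int hδ).const_mul
      (C * M ^ 3 / δ ^ (2 * N))).comp_snd μ).mul_prod iψ)
      ((hm j k).mul (hψ.1.continuous.measurable.comp measurable_snd)).aestronglyMeasurable ?_
    filter_upwards [Measure.quasiMeasurePreserving_fst.ae hν] with q hq
    rw [norm_mul]
    by_cases hy : q.2 ∈ tsupport ψ
    · refine mul_le_mul_of_nonneg_right ?_ (norm_nonneg _)
      have h3 := hd _ hy
      have h4 := hM _ hy
      have h5 : δ ≤ ‖q.2‖ := h3.trans (infDist_le_norm hK _)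
      have h6 : 0 < ‖q.1.2‖ := norm_pos_iff.2 hq.2
      have h7 : 0 ≤ M := (norm_nonneg _).trans h4
      refine (hG j k _ hq.1.1 hq.1.2 _ hq.2 _ (hδ.trans_le h3)).trans ?_
      unfold gs
      gcongr
    · simp [image_eq_zero_of_notMem_tsupport hy]
  have IR : ∀ j k ψ, Test O ψ → Integrable fun y => R0 j k y * ψ y := fun j k ψ hψ => by
    refine (IP j k ψ hψ).integral_prod_right.congr (ae_of_all _ fun y => ?_)
    simp only [integral_mul_const, R0]
  have rep0 : ∀ F : Fin N → Fin N → E N → ℂ, (∀ j k, Test O (F j k)) →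
      Rf ρ μ F = ∑ j, ∑ k, ∫ y, R0 j k y * F j k y := by
    intro F hF
    have hH : ∀ j k, Integrable (fun q : E N × ℂ => ∫ y, GG ρ j k (q.2 • q.1) y * F j k y) ν :=
      fun j k => (IP j k _ (hF j k)).integral_prod_left
    have hae : ∀ᵐ q ∂ν, ∑ j, ∑ k, ∫ y, GG ρ j k (q.2 • q.1) y * F j k y =
        sf ρ (fun k x => ∑ j, Ec j (F j k) x) (q.2 • q.1) := by
      filter_upwards [hν] with q hq
      exact (sf_eq L hN hK hF (infDist_smul hK hq.1.1 q.2)).symm
    have hI := integrable_finsetSum Finset.univ fun j _ =>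
      integrable_finsetSum Finset.univ fun k _ => hH j k
    rw [Rf, Sf, ← integral_prod (fun q : E N × ℂ =>
      sf ρ (fun k x => ∑ j, Ec j (F j k) x) (q.2 • q.1)) (hI.congr hae), ← integral_congr_ae hae,
      integral_finsetSum _ fun j _ => integrable_finsetSum _ fun k _ => hH j k]
    refine Finset.sum_congr rfl fun j _ => ?_
    rw [integral_finsetSum _ fun k _ => hH j k]
    refine Finset.sum_congr rfl fun k _ => ?_
    rw [integral_integral_swap (f := fun (q : E N × ℂ) y => GG ρ j k (q.2 • q.1) y * F j k y)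
      (IP j k _ (hF j k))]
    simp only [integral_mul_const, R0]
  let R : Fin N → Fin N → E N → ℂ := fun j k y => (R0 j k y - R0 k j y) / 2
  have IR' : ∀ j k ψ, Test O ψ → Integrable fun y => R j k y * ψ y := fun j k ψ hψ => by
    refine (((IR j k ψ hψ).sub (IR k j ψ hψ)).div_const 2).congr (ae_of_all _ fun y => ?_)
    simp only [R, Pi.sub_apply]; ring
  have alt : ∀ j k y, R j k y = -R k j y := fun j k y => by simp only [R]; ring
  have rep : ∀ F : Fin N → Fin N → E N → ℂ, (∀ j k, Test O (F j k)) →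
      (∀ j k y, F j k y = -F k j y) → Rf ρ μ F = ∑ j, ∑ k, ∫ y, R j k y * F j k y := by
    intro F hF ha
    have : ∀ j k, ∫ y, R j k y * F j k y =
        ((∫ y, R0 j k y * F j k y) + ∫ y, R0 k j y * F k j y) / 2 := fun j k => by
      rw [← integral_add (IR j k _ (hF j k)) (IR k j _ (hF k j)), ← integral_div]
      congr 1; funext y; simp only [R]; rw [ha k j]; ring
    simp only [this, ← Finset.sum_div, Finset.sum_add_distrib]
    rw [Finset.sum_comm (f := fun j k => ∫ y, R0 k j y * F k j y), rep0 F hF]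
    ring
  refine ⟨R, C * ∫ c, gs 1 c, by positivity, alt, fun j k => ?_, fun j k y hy => ?_, rep,
    fun k ψ hψ => ?_⟩
  · exact (((mR j k).measurable.sub (mR k j).measurable).div_const 2).aestronglyMeasurable
  · have := norm_sub_le (R0 j k y) (R0 k j y)
    simp only [R, norm_div, Complex.norm_ofNat]
    linarith [bR j k y hy, bR k j y hy]
  · let γ : Fin N → E N → ℂ := fun a z => (if a = k then 1 else 0) * ψ z
    have tc : ∀ u, Test O u → ∀ c : ℂ, Test O fun z => c * u z := fun u hu c =>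
      (t4 u hu).1 _ contDiffOn_const
    have tb : ∀ a, Test O (dzb a ψ) := fun a => ((t4 ψ hψ).2.2.1 a).2
    have hγ : ∀ a, Test O (γ a) := fun a => tc ψ hψ _
    have hd : ∀ a b z, d1 γ a b z =
        (if b = k then 1 else 0) * dzb a ψ z + (if a = k then -1 else 0) * dzb b ψ z := by
      intro a b z
      simp only [d1, γ, dzb_const_mul _ _ (ContDiffAt.da hψ.1.contDiffAt)]
      split_ifs <;> ring
    have hd1 : ∀ a b, Test O (d1 γ a b) := fun a b => by
      rw [show d1 γ a b = _ from funext (hd a b)]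
      exact (t4 _ (tc _ (tb a) _)).2.2.2.2.1 _ (tc _ (tb b) _)
    have e1 := (h2 N ρ K μ hN hρ hK hμ).1 γ fun a => ⟨(hγ a).1, (hγ a).2.1⟩
    have e2 : Sf ρ μ γ = 0 := by
      refine integral_eq_zero_of_ae ?_
      filter_upwards [hμ.supp] with z hz
      refine integral_eq_zero_of_ae (ae_of_all _ fun c => ?_)
      have hn : ∀ a, c • z ∉ tsupport (γ a) := fun a h =>
        absurd (infDist_smul hK hz.1 c) (ne_of_gt ((hγ a).2.2 h))
      have z1 : ∀ a, γ a (c • z) = 0 := fun a => image_eq_zero_of_notMem_tsupport (hn a)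
      have z2 : ∀ l a, dz l (γ a) (c • z) = 0 := fun l a => by
        rw [dz_congr (notMem_tsupport_iff_eventuallyEq.1 (hn a))]
        exact dz_const l 0 _
      simp [sf, z1, z2]
    rw [e2, rep _ hd1 fun a b y => by simp only [d1]; ring] at e1
    have e3 : ∀ a b, ∫ y, R a b y * d1 γ a b y = (if b = k then ∫ y, R a k y * dzb a ψ y else 0) +
        if a = k then ∫ y, R b k y * dzb b ψ y else 0 := fun a b => by
      have : ∀ y, R a b y * d1 γ a b y = (if b = k then 1 else 0) * (R a b y * dzb a ψ y) +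
          (if a = k then 1 else 0) * (R b a y * dzb b ψ y) := fun y => by
        rw [hd, alt b a]; split_ifs <;> ring
      simp only [this]
      rw [integral_add ((IR' a b _ (tb a)).const_mul _) ((IR' b a _ (tb b)).const_mul _),
        integral_const_mul, integral_const_mul]
      by_cases hb : b = k <;> by_cases ha : a = k <;> simp [ha, hb]
    simp only [e3, Finset.sum_add_distrib, Finset.sum_ite_eq', Finset.mem_univ, if_true] at e1
    rw [Finset.sum_comm] at e1
    simp only [Finset.sum_ite_eq', Finset.mem_univ, if_true] at e1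
    rw [setIntegral_eq_integral_of_forall_compl_eq_zero fun y hy => Finset.sum_eq_zero fun a _ => by
      rw [image_eq_zero_of_notMem_tsupport fun h => hy ((tb a).2.2 h), mul_zero],
      integral_finsetSum _ fun a _ => IR' a k _ (tb a)]
    simp only [Pi.zero_apply, zero_mul, integral_zero, neg_zero]
    linear_combination (-1 / 2 : ℂ) * e1

end Pool.Agent.MP_fcd29e_an.H31
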