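import Pool.Agent.MP_fcd29e_an.H31.ST1b

/-!
The local theorem in the ambient space.
-/

set_option autoImplicit false

open Complex Set Filter Topology Metric Pool.Agent.MP_fcd29e_an.H81
open scoped ContDiff ComplexConjugate

namespace Pool.Agent.MP_fcd29e_an.H11

namespace ST1

noncomputable section

variable {ι : Type} [Fintype ι] {N : ℕ} {J δ β : Type} [Fintype δ] [Fintype β]
  {d : Data ι N J δ} {i : J} {x : V ι} {W : Submodule ℂ (E N)}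

def ET (d : Data ι N J δ) (i : J) (x : V ι) (W : Submodule ℂ (E N)) (A Y : E N → ℝ)
    (Jr : Uc x →L[ℝ] (ι ⊕ ι → ℝ)) (p : ℂ × Uc x × W) : ℝ :=
  mu d i x W p * (A (d.Ψ i x W p) * Y (d.Ψ i x W p)) -
    aa d i x W A (p.1, p.2.1) * rsq (Jr p.2.1)

theorem rsq_cd (Jr : Uc x →L[ℝ] (ι ⊕ ι → ℝ)) (p : ℂ × Uc x × W) :
    ContDiffAt ℝ ∞ (fun q : ℂ × Uc x × W => rsq (Jr q.2.1)) p := by
  have h : ContDiffAt ℝ ∞ (fun q : ℂ × Uc x × W => Jr q.2.1) p :=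
    Jr.contDiff.contDiffAt.comp p (contDiffAt_fst.comp p contDiffAt_snd)
  exact ContDiffAt.sum fun k _ => (contDiffAt_pi.1 h k).pow 2

theorem rsq_nn {κ : Type} [Fintype κ] (y : κ → ℝ) : 0 ≤ rsq y :=
  Finset.sum_nonneg fun _ _ => sq_nonneg _

theorem ET_parts (hQP : SQP) (hd : d.Good) (hx : x ∈ cone ι) {U : Set (E N)} {A Y : E N → ℝ}
    {G : δ → Fin N → E N → ℂ} (hg : d.Glob U A Y G) (Jr : Uc x →L[ℝ] (ι ⊕ ι → ℝ))
    {p : ℂ × Uc x × W} (h : Gd d i x W U p) (h' : Gd d i x W U (p.1, p.2.1, 0)) :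
    (ContDiffAt ℝ ∞ (fun q => mu d i x W q * (A (d.Ψ i x W q) * Y (d.Ψ i x W q))) p ∧
      0 ≤ mu d i x W p * (A (d.Ψ i x W p) * Y (d.Ψ i x W p))) ∧
    ContDiffAt ℝ ∞ (fun q : ℂ × Uc x × W => aa d i x W A (q.1, q.2.1) * rsq (Jr q.2.1)) p ∧
      0 ≤ aa d i x W A (p.1, p.2.1) * rsq (Jr p.2.1) := by
  have ha := aa_cd hQP hd hx hg.hA.1 hg.hA.2.2 (q := (p.1, p.2.1)) h'
  refine ⟨⟨(mu_cd hQP hd hx h).1.mul ((glob_cd hg.hA.1 h).mul (glob_cd hg.hY.1 h)),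
    mul_nonneg (mu_cd hQP hd hx h).2.le (mul_nonneg (hg.hA.2.2 _) (hg.hY.2.2 _))⟩,
    (ha.1.comp p (f := fun q : ℂ × Uc x × W => (q.1, q.2.1))
      (contDiffAt_fst.prodMk (contDiffAt_fst.comp p contDiffAt_snd))).mul (rsq_cd Jr p),
    mul_nonneg ha.2 (rsq_nn _)⟩

theorem ET_S (hQP : SQP) (hx : x ∈ cone ι) {U : Set (E N)} {A Y : E N → ℝ}
    {G : δ → Fin N → E N → ℂ} (hg : d.Glob U A Y G) {Jr : Uc x →L[ℝ] (ι ⊕ ι → ℝ)}
    (hJ : ∀ u, Jr u = Jm (u : V ι)) {p : ℂ × Uc x × W} (h : Gd d i x W U p) (h0 : p.2.2 = 0) :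
    ET d i x W A Y Jr p = 0 := by
  obtain ⟨h2, -⟩ := hQP ι x hx
  obtain ⟨n1, n2, n3, -⟩ := h2 _ p.2.1.2
  have e : ((p.1, p.2.1, 0) : ℂ × Uc x × W) = p := by rw [← h0]
  have hU := h.hU
  rw [psi0 h0] at hU
  have hY := hg.onS i _ h.mem _ n2 n1 hU
  rw [← psi0 h0] at hY
  simp only [ET, aa, e, hY, n3, hJ]
  ring

theorem ET_K (hQP : SQP) (hd : d.Good) (hx : x ∈ cone ι) {U : Set (E N)} {A Y : E N → ℝ}
    {G : δ → Fin N → E N → ℂ} (hg : d.Glob U A Y G) {Jr : Uc x →L[ℝ] (ι ⊕ ι → ℝ)}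
    (hJ : ∀ u, Jr u = Jm (u : V ι)) {p : ℂ × Uc x × W}
    (h : ∀ᶠ q in 𝓝 p, Gd d i x W U q ∧ Gd d i x W U (q.1, q.2.1, 0)) (h0 : p ∈ Kc Jr) :
    fderiv ℝ (ET d i x W A Y Jr) p = 0 := by
  obtain ⟨⟨c1, -⟩, c2, -⟩ := ET_parts hQP hd hx hg Jr h.self_of_nhds.1 h.self_of_nhds.2
  have z2 : aa d i x W A (p.1, p.2.1) * rsq (Jr p.2.1) = 0 := by
    rw [h0.1]; simp [rsq]
  have z1 : mu d i x W p * (A (d.Ψ i x W p) * Y (d.Ψ i x W p)) = 0 := by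
    have := ET_S hQP hx hg hJ h.self_of_nhds.1 h0.2
    rwa [ET, z2, sub_zero] at this
  have m1 : IsLocalMin (fun q => mu d i x W q * (A (d.Ψ i x W q) * Y (d.Ψ i x W q))) p :=
    h.mono fun q hq => by
      simp only [z1]
      exact (ET_parts hQP hd hx hg Jr hq.1 hq.2).1.2
  have m2 : IsLocalMin
      (fun q : ℂ × Uc x × W => aa d i x W A (q.1, q.2.1) * rsq (Jr q.2.1)) p :=
    h.mono fun q hq => by
      simp only [z2]
      exact (ET_parts hQP hd hx hg Jr hq.1 hq.2).2.2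
  have := fderiv_fun_sub (c1.differentiableAt (by simp)) (c2.differentiableAt (by simp))
  rw [m1.fderiv_eq_zero, m2.fderiv_eq_zero, sub_zero] at this
  exact this

theorem T_eq (A Y : E N → ℝ) (Q : β → (E N →L[ℂ] E N →L[ℂ] ℂ)) (Jr : Uc x →L[ℝ] (ι ⊕ ι → ℝ))
    (l₁ : ℝ) {p : ℂ × Uc x × W} (h : d.Ψ i x W p ≠ 0) :
    aa d i x W A (p.1, p.2.1) * rsq (Jr p.2.1) + ET d i x W A Y Jr p +
      l₁ * (kk d i x W p * nsq (FF d i x W Q p)) = mu d i x W p * Tz A Y Q l₁ (d.Ψ i x W p) := by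
  have n0 : ‖d.Ψ i x W p‖ ≠ 0 := norm_ne_zero_iff.2 h
  simp only [ET, Tz, nsq, FF, mu]
  field_simp
  ring

theorem Tz_inv {A Y : E N → ℝ} (hA : Inv A) (hY : Inv Y) (Q : β → (E N →L[ℂ] E N →L[ℂ] ℂ))
    (l₁ : ℝ) : Inv (Tz A Y Q l₁) := by
  intro c hc z
  have n0 : ‖c‖ ≠ 0 := norm_ne_zero_iff.2 hc
  have e : ∑ b, ‖Q b (c • z) (c • z)‖ ^ 2 = ‖c‖ ^ 4 * ∑ b, ‖Q b z z‖ ^ 2 := by
    rw [Finset.mul_sum]
    refine Finset.sum_congr rfl fun b _ => ?_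
    simp only [map_smul, _root_.smul_apply, smul_eq_mul, norm_mul]
    ring
  rw [Tz, Tz, hA c hc, hY c hc, e, norm_smul, mul_pow, mul_div_mul_left _ _ (pow_ne_zero 4 n0)]

theorem R_inv {G : δ → Fin N → E N → ℂ} (hG : ∀ e l, Inv (G e l)) : Inv (d.R G) := by
  intro c hc z
  have n0 : ‖c‖ ≠ 0 := norm_ne_zero_iff.2 hc
  have e : ∑ e, ∑ l, G e l (c • z) * conj ((c • z) l) * d.ζ e (c • z) =
      ((‖c‖ ^ 2 : ℝ) : ℂ) * ∑ e, ∑ l, G e l z * conj (z l) * d.ζ e z := by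
    rw [Finset.mul_sum]
    refine Finset.sum_congr rfl fun e _ => ?_
    rw [Finset.mul_sum]
    refine Finset.sum_congr rfl fun l _ => ?_
    rw [hG e l c hc, ← Complex.normSq_eq_norm_sq, ← Complex.mul_conj]
    simp only [map_smul, PiLp.smul_apply, smul_eq_mul, map_mul]
    ring
  rw [Data.R, Data.R, e, re_ofReal_mul, norm_smul, mul_pow,
    mul_div_mul_left _ _ (pow_ne_zero 2 n0)]

theorem Tz_cd {A Y : E N → ℝ} (hA : ContDiffOn ℝ ∞ A (E0 N)) (hY : ContDiffOn ℝ ∞ Y (E0 N))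
    (Q : β → (E N →L[ℂ] E N →L[ℂ] ℂ)) (l₁ : ℝ) : ContDiffOn ℝ ∞ (Tz A Y Q l₁) (E0 N) := by
  refine (hA.mul hY).add (contDiffOn_const.mul fun z hz => ContDiffAt.contDiffWithinAt ?_)
  refine (ContDiffAt.sum fun b _ => ?_).div (((contDiffAt_id (𝕜 := ℝ)).norm ℂ hz).pow 4)
    (pow_ne_zero 4 (norm_ne_zero_iff.2 hz))
  exact (an_cda (((Q b).analyticAt_bilinear _).comp₂ analyticAt_id analyticAt_id)).norm_sq ℂ

theorem R_cd {G : δ → Fin N → E N → ℂ} (hG : ∀ e l, ContDiffOn ℝ ∞ (G e l) (E0 N)) :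
    ContDiffOn ℝ ∞ (d.R G) (E0 N) := by
  intro z hz
  refine ContDiffAt.contDiffWithinAt ((reCLM.contDiff.contDiffAt.comp z
    (ContDiffAt.sum fun e _ => ContDiffAt.sum fun l _ => ?_)).div
      (((contDiffAt_id (𝕜 := ℝ)).norm ℂ hz).pow 2) (pow_ne_zero 2 (norm_ne_zero_iff.2 hz)))
  exact (((hG e l).contDiffAt (isOpen_compl_singleton.mem_nhds hz)).mul
    (conjCLE.contDiff.contDiffAt.comp z
      (an_cda ((EuclideanSpace.proj l : E N →L[ℂ] ℂ).analyticAt _)))).mul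
    (an_cda ((d.ζ e).analyticAt _))

end

end ST1

open ST1

theorem st1 (hHS : SHS) (hLV : SLV) (hLO : SLO) (hQP : SQP) (hKC : SKC) (hCH : SCH) : ST1 := by
  intro ι _ _ N J δ β _ _ d hd U A Y G hg Q hQ hsp i z₀ hz₀ x hx
  have hcone : Cone d.K := (hKC ι N J δ d hd).2.1
  obtain ⟨W, e0, an0, ⟨iv, ian, iv0, ir⟩, hev, hker⟩ := hCH ι N J δ d hd i z₀ hz₀ x hx
  obtain ⟨q1, ⟨Jr, hJ, hJi⟩, q2, q3, -⟩ := hQP ι x hx
  set p₀ : ℂ × Uc x × W := (z₀, 0, 0) with hp₀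
  have hK0 : d.Φ i z₀ x ∈ d.K := ⟨i, z₀, hz₀, x, hx, 1, one_ne_zero, (one_smul _ _).symm⟩
  have g1 : ∀ᶠ p in 𝓝 p₀, Gd d i x W U p := by
    have hU : ∀ᶠ p in 𝓝 p₀, d.Ψ i x W p ∈ U :=
      an0.continuousAt.eventually_mem (by rw [e0]; exact hg.op.mem_nhds (hg.sub hK0))
    filter_upwards [hev, an0.eventually_analyticAt, hU] with p h1 h2 h3
    exact ⟨h1.1, h1.2.1, h2, h1.2.2.2.1, h1.2.2.2.2, h3⟩
  have g2 : ∀ᶠ q in 𝓝 ((z₀, 0) : ℂ × Uc x), Gd d i x W U (q.1, q.2, 0) := by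
    have : ContinuousAt (fun q : ℂ × Uc x => ((q.1, q.2, 0) : ℂ × Uc x × W)) (z₀, 0) := by
      fun_prop
    exact this.eventually g1
  have g3 : ∀ᶠ p in 𝓝 p₀, Gd d i x W U p ∧ Gd d i x W U (p.1, p.2.1, 0) := by
    have : ContinuousAt (fun p : ℂ × Uc x × W => ((p.1, p.2.1) : ℂ × Uc x)) p₀ := by fun_prop
    exact g1.and (this.eventually g2)
  have kc : ∀ {p : ℂ × Uc x × W}, p ∈ Kc Jr ↔ p.2.2 = 0 ∧ Jm (p.2.1 : V ι) = 0 := by
    intro p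
    rw [← hJ]
    exact and_comm
  have hp0 : p₀ ∈ Kc Jr := ⟨map_zero Jr, rfl⟩
  have two : (2 : WithTop ℕ∞) ≤ ∞ := WithTop.coe_le_coe.2 le_top
  have hzD : ∀ᶠ z in 𝓝 z₀, z ∈ d.D i := (hd.op i).mem_nhds hz₀
  have φ0 := (hd.hφ i z₀ hz₀ x hx).2
  have la : lap (fun z => (aa d i x W A (z, (0 : Uc x)))⁻¹) z₀ < 0 := by
    have e : (fun z => (aa d i x W A (z, (0 : Uc x)))⁻¹) =ᶠ[𝓝 z₀]
        fun z => 1 / 2 * d.φ i (z, x) := by
      filter_upwards [hzD] with z hz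
      rw [aa_K hQP hd hx hg hz, inv_div]
      ring
    have c : ContDiffAt ℝ 2 (fun z => d.φ i (z, x)) z₀ :=
      ((hd.hφ i z₀ hz₀ x hx).1.comp z₀ (f := fun z : ℂ => (z, x))
        (contDiffAt_id.prodMk contDiffAt_const)).of_le two
    have p1 := hd.p1 i z₀ hz₀ x hx
    rw [lap, lev] at p1
    rw [lap, lev_congr hHS e, lev, (hHS.cmul ℂ _ _ z₀ _ c).1, (hHS.cmul ℂ _ _ z₀ _ c).1]
    linarith
  have lk : 0 < lap (fun z => Real.log (kk d i x W (z, p₀.2))) z₀ := by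
    have p3 := hd.p3 i z₀ hz₀ x hx
    simpa only [ST1.kk, hp₀, ZeroMemClass.coe_zero, q3, q2] using p3
  have hw : ∀ w : W, fderiv ℂ (FF d i x W Q) p₀ (0, 0, w) = 0 → w = 0 := by
    intro w h
    refine hker w fun Q' hQ' => ?_
    refine Submodule.span_induction (p := fun Q' _ =>
      Q' (d.Φ i z₀ x) w + Q' w (d.Φ i z₀ x) = 0) ?_ (by simp) ?_ ?_ (hsp Q' hQ')
    · rintro _ ⟨b, rfl⟩
      have := FF_d (Q := Q) an0 w b
      rw [h, e0] at this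
      exact this.symm
    · intro a b _ _ ha hb
      simp only [_root_.add_apply]
      linear_combination ha + hb
    · intro c a _ ha
      simp only [_root_.smul_apply, smul_eq_mul]
      linear_combination c * ha
  have hh0 : fderiv ℂ (hh d i x W) p₀ ≠ 0 := by
    intro h
    obtain ⟨v, hv⟩ := hd.nz i z₀ hz₀ x hx
    obtain ⟨a, v', rfl⟩ := hev.self_of_nhds.2.2.1 v
    have := hh_d hQP hd hx (p := p₀) hz₀ an0 rfl v'
    rw [h] at this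
    refine hv (Eq.trans ?_ this.symm)
    refine Finset.sum_congr rfl fun e _ => ?_
    rw [map_add, map_smul, zeta0 hd (p := p₀) hz₀ rfl, smul_zero, zero_add]
    simp only [hp₀, ZeroMemClass.coe_zero, q2]
  obtain ⟨Λ₁, O, hO, H⟩ := hLO (Uc x) W (ι ⊕ ι) β Jr (aa d i x W A) (kk d i x W)
    (ET d i x W A Y Jr) (ER d i x W G) (FF d i x W Q) (hh d i x W) p₀ hJi hp0
    (g2.mono fun q hq => (aa_cd hQP hd hx hg.hA.1 hg.hA.2.2 hq).1)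
    (by
      change 0 < aa d i x W A (z₀, 0)
      rw [aa_K hQP hd hx hg hz₀]
      positivity) la
    (g1.mono fun p hp => (kk_cd hQP hd hx hp.mem).1) (kk_cd hQP hd hx (p := p₀) hz₀).2 lk
    (FF_an an0)
    (g1.mono fun p hp h0 => funext fun b => hQ b _ (hp.hS.2 h0)) hw
    (g3.mono fun p hp => (ET_parts hQP hd hx hg Jr hp.1 hp.2).1.1.sub
      (ET_parts hQP hd hx hg Jr hp.1 hp.2).2.1)
    (g3.eventually_nhds.mono fun p hp =>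
      ⟨ET_K hQP hd hx hg hJ hp, ET_S hQP hx hg hJ hp.self_of_nhds.1⟩)
    (g1.mono fun p hp => ER_cd hQP hd hx (fun e l => (hg.hG e l).1) hp)
    (g1.mono fun p hp h0 => ER_K hQP hd hx hg hp (kc.1 h0).1 (kc.1 h0).2)
    (hh_an hQP hd hx hz₀ an0)
    (g1.mono fun p hp h0 => by simp [hh, zeta0 hd hp.mem h0.2]) hh0
  have hZ0 : d.Φ i z₀ x ≠ 0 := fun h => hcone.1 (h ▸ hK0)
  have E1 : ∀ᶠ Z in 𝓝 (d.Φ i z₀ x), Z ≠ 0 ∧ AnalyticAt ℂ iv Z ∧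
      (iv Z).1 • d.Ψ i x W (iv Z).2 = Z ∧ (iv Z).2 ∈ O ∧ ∀ᶠ q in 𝓝 (iv Z).2, Gd d i x W U q := by
    have c : Tendsto (fun Z => (iv Z).2) (𝓝 (d.Φ i z₀ x)) (𝓝 p₀) := by
      have := (continuous_snd.continuousAt.comp ian.continuousAt).tendsto
      simpa only [Function.comp_def, iv0] using this
    filter_upwards [isOpen_compl_singleton.mem_nhds hZ0, ian.eventually_analyticAt, ir,
      c.eventually hO, c.eventually g1.eventually_nhds] with Z h1 h2 h3 h4 h5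
    exact ⟨h1, h2, h3, h4, h5⟩
  refine ⟨Λ₁, _, E1.eventually_nhds.eventually_nhds, fun l₁ hl₁ k hk => ?_⟩
  obtain ⟨δ', Λ, hδ, H⟩ := H l₁ hl₁
  have cz : ∀ {Z : E N}, Z ≠ 0 → (iv Z).1 • d.Ψ i x W (iv Z).2 = Z → (iv Z).1 ≠ 0 := by
    intro Z h1 h2 h
    rw [h, zero_smul] at h2
    exact h1 h2.symm
  obtain ⟨k1, k2, k3, -, k5⟩ := hk.2.self_of_nhds.self_of_nhds
  have kK : (iv k).2 ∈ Kc Jr := by
    refine kc.2 (k5.self_of_nhds.hK.1 ?_)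
    have := hcone.2 _ (inv_ne_zero (cz k1 k3)) _ hk.1
    rwa [← congrArg ((iv k).1⁻¹ • ·) k3, inv_smul_smul₀ (cz k1 k3)] at this
  have E2 : ∀ᶠ Z in 𝓝 k, nn Jr (iv Z).2 < δ' := by
    have c1 : Continuous (nn (W := W) Jr) := by
      unfold nn
      fun_prop
    have c : ContinuousAt (fun Z => nn Jr (iv Z).2) k :=
      c1.continuousAt.comp (continuous_snd.continuousAt.comp k2.continuousAt)
    refine c.eventually_lt continuousAt_const ?_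
    simpa [nn, kK.1, kK.2] using hδ
  refine ⟨Λ, ?_⟩
  filter_upwards [hk.2, E2] with Z hZ hn
  obtain ⟨z1, z2, z3, z4, z5⟩ := hZ.self_of_nhds
  obtain ⟨H1, H2⟩ := H _ z4 hn
  have gd := z5.self_of_nhds
  have iT := Tz_inv hg.hA.2.1 hg.hY.2.1 Q l₁
  constructor
  · intro hZK
    have := H1 fun h => hZK (z3 ▸ hcone.2 _ (cz z1 z3) _ (gd.hK.2 (kc.1 h)))
    rw [T_eq A Y Q Jr l₁ gd.ne, mul_pos_iff_of_pos_left (mu_cd hQP hd hx gd).2,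
      ← iT _ (cz z1 z3), z3] at this
    exact this
  · intro l hl
    obtain ⟨H3, H4⟩ := H2 l hl _ rfl
    refine tr hHS hLV (Ψ := d.Ψ i x W) (iv := iv) (μ := mu d i x W) ?_ ?_ z1 z2
      (hZ.mono fun y hy => hy.2.2.1) gd.an (mu_cd hQP hd hx gd).1 (mu_cd hQP hd hx gd).2 ?_ H3 H4
    · intro c hc y
      simp only [iT c hc, R_inv (d := d) (fun e l => (hg.hG e l).2) c hc]
    · exact (contDiffOn_const.mul (Tz_cd hg.hA.1 hg.hY.1 Q l₁)).sub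
        (R_cd fun e l => (hg.hG e l).1)
    · filter_upwards [z5] with q hq
      rw [T_eq A Y Q Jr l₁ hq.ne, ← R_eq]
      ring

end Pool.Agent.MP_fcd29e_an.H11
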