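import Pool.Agent.MP_fcd29e_an.H11.CS

/-!
Transfer of the Levi condition from a chart to the ambient space.
-/

set_option autoImplicit false

open Complex Set Filter Topology Metric Pool.Agent.MP_fcd29e_an.H81
open scoped ContDiff ComplexConjugate

namespace Pool.Agent.MP_fcd29e_an.H11.ST1

theorem lev_congr (hHS : SHS) {X : Type} [NormedAddCommGroup X] [NormedSpace ℝ X]
    [NormedSpace ℂ X] {f g : X → ℝ} {p : X} (h : f =ᶠ[𝓝 p] g) (v : X) :
    lev f p v = lev g p v := by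
  simp only [lev, hHS.congr X f g p _ h]

theorem an_cda {X Y : Type} [NormedAddCommGroup X] [NormedSpace ℝ X] [NormedSpace ℂ X]
    [IsScalarTower ℝ ℂ X] [NormedAddCommGroup Y] [NormedSpace ℝ Y] [NormedSpace ℂ Y]
    [IsScalarTower ℝ ℂ Y] [CompleteSpace Y] {f : X → Y} {p : X} (h : AnalyticAt ℂ f p) :
    ContDiffAt ℝ ∞ f p :=
  (h.contDiffAt (n := ∞)).restrict_scalars ℝ

theorem tr (hHS : SHS) (hLV : SLV) {N : ℕ} {P : Type} [NormedAddCommGroup P] [NormedSpace ℝ P]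
    [NormedSpace ℂ P] [IsScalarTower ℝ ℂ P] [CompleteSpace P] {ρ : E N → ℝ} (hi : Inv ρ)
    (hs : ContDiffOn ℝ ∞ ρ (E0 N)) {Ψ : P → E N} {iv : E N → ℂ × P} {μ ψ : P → ℝ} {Z : E N}
    (hZ : Z ≠ 0) (ha : AnalyticAt ℂ iv Z) (hr : ∀ᶠ Z' in 𝓝 Z, (iv Z').1 • Ψ (iv Z').2 = Z')
    (hΨ : AnalyticAt ℂ Ψ (iv Z).2) (hμ : ContDiffAt ℝ ∞ μ (iv Z).2) (hμ0 : 0 < μ (iv Z).2)
    (hψ : ψ =ᶠ[𝓝 (iv Z).2] fun q => μ q * ρ (Ψ q)) (hl : ∀ v, 0 ≤ lev ψ (iv Z).2 v)
    (hd : ψ (iv Z).2 = 0 → fderiv ℝ ψ (iv Z).2 ≠ 0) : Psc ρ Z := by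
  intro h0
  set p := (iv Z).2 with hp
  set c := (iv Z).1 with hc
  have e0 : c • Ψ p = Z := hr.self_of_nhds
  have hc0 : c ≠ 0 := by
    rintro h
    rw [h, zero_smul] at e0
    exact hZ e0.symm
  have hΨ0 : Ψ p ≠ 0 := by
    intro h
    rw [h, smul_zero] at e0
    exact hZ e0.symm
  have cd : ∀ y : E N, y ≠ 0 → ContDiffAt ℝ ∞ ρ y := fun y hy =>
    hs.contDiffAt (isOpen_compl_singleton.mem_nhds hy)
  have two : (2 : WithTop ℕ∞) ≤ ∞ := WithTop.coe_le_coe.2 le_top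
  have hf : ContDiffAt ℝ ∞ (fun q => ρ (Ψ q)) p := (cd _ hΨ0).comp p (an_cda hΨ)
  have f0 : ρ (Ψ p) = 0 := by rw [← hi c hc0, e0, h0]
  have hfd : DifferentiableAt ℝ (fun q => ρ (Ψ q)) p := hf.differentiableAt (by simp)
  have hμd : DifferentiableAt ℝ μ p := hμ.differentiableAt (by simp)
  constructor
  · intro hz
    refine hd (by rw [hψ.self_of_nhds]; simp [f0]) ?_
    have e1 : (fun q => ρ (Ψ q)) = fun q => ρ (c • Ψ q) := funext fun q => (hi c hc0 _).symm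
    have e2 : fderiv ℝ (fun q => ρ (Ψ q)) p = 0 := by
      rw [e1]
      have d1 : DifferentiableAt ℝ (fun q => c • Ψ q) p :=
        ((an_cda hΨ).differentiableAt (by simp)).const_smul c
      have d2 : DifferentiableAt ℝ ρ (c • Ψ p) := by
        rw [e0]; exact (cd Z hZ).differentiableAt (by simp)
      have := fderiv_comp p d2 d1
      rw [e0, hz] at this
      exact this.trans (by simp)
    rw [hψ.fderiv_eq, fderiv_fun_mul hμd hfd, e2, f0]
    simp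
  · intro L h1 h2
    have hpr : AnalyticAt ℂ (fun Z' => (iv Z').2) Z := analyticAt_snd.comp ha
    have e1 : ρ =ᶠ[𝓝 Z] fun Z' => (fun q => ρ (Ψ q)) (iv Z').2 := by
      filter_upwards [hr, isOpen_compl_singleton.mem_nhds hZ] with y hy hy0
      have : (iv y).1 ≠ 0 := by
        intro h
        rw [h, zero_smul] at hy
        exact hy0 hy.symm
      exact (congrArg ρ hy).symm.trans (hi _ this _)
    have k1 := hLV.hol (E N) P (fun q => ρ (Ψ q)) (fun Z' => (iv Z').2) Z L hpr (hf.of_le two)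
    have k2 := hLV.hol (E N) P (fun q => ρ (Ψ q)) (fun Z' => (iv Z').2) Z (I • L) hpr
      (hf.of_le two)
    rw [map_smul] at k2
    set v := fderiv ℂ (fun Z' => (iv Z').2) Z L
    rw [← e1.fderiv_eq] at k1 k2
    have g1 : fderiv ℝ (fun q => ρ (Ψ q)) p v = 0 := k1.2.symm.trans h1
    have g2 : fderiv ℝ (fun q => ρ (Ψ q)) p (I • v) = 0 := k2.2.symm.trans h2
    rw [lev_congr hHS e1, k1.1]
    have m := hl v
    rw [lev_congr hHS hψ, lev, (hHS.add P μ _ p v (hμ.of_le two) (hf.of_le two)).2.2,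
      (hHS.add P μ _ p (I • v) (hμ.of_le two) (hf.of_le two)).2.2, g1, g2, f0] at m
    have m2 : 0 ≤ μ p * lev (fun q => ρ (Ψ q)) p v := by
      rw [lev]; linarith
    exact (mul_nonneg_iff_of_pos_left hμ0).1 m2

end Pool.Agent.MP_fcd29e_an.H11.ST1
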