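import Pool.Agent.MP_fcd29e_an.H31.ST1a

/-!
The functions in a chart.
-/

set_option autoImplicit false

open Complex Set Filter Topology Metric Pool.Agent.MP_fcd29e_an.H81
open scoped ContDiff ComplexConjugate

namespace Pool.Agent.MP_fcd29e_an.H11.ST1

noncomputable section

variable {ι : Type} [Fintype ι] {N : ℕ} {J δ β : Type} [Fintype δ] [Fintype β]
  (d : Data ι N J δ) (i : J) (x : V ι) (W : Submodule ℂ (E N))

def kk (p : ℂ × Uc x × W) : ℝ := d.g i (p.1, xp x (rp (p.2.1 : V ι)))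

def mu (p : ℂ × Uc x × W) : ℝ := kk d i x W p * ‖d.Ψ i x W p‖ ^ 4

def FF (Q : β → (E N →L[ℂ] E N →L[ℂ] ℂ)) (p : ℂ × Uc x × W) : β → ℂ :=
  fun b => Q b (d.Ψ i x W p) (d.Ψ i x W p)

def aa (A : E N → ℝ) (q : ℂ × Uc x) : ℝ :=
  mu d i x W (q.1, q.2, 0) * A (d.Ψ i x W (q.1, q.2, 0)) *
    (2 * d.w2 i q.1 / ‖d.Ψ i x W (q.1, q.2, 0)‖ ^ 2)

def hh (p : ℂ × Uc x × W) : ℂ := ∑ e, d.Γ i e (p.1, xp x p.2.1) * d.ζ e (d.Ψ i x W p)

def DD (G : δ → Fin N → E N → ℂ) (e : δ) (p : ℂ × Uc x × W) : ℂ :=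
  ((mu d i x W p / ‖d.Ψ i x W p‖ ^ 2 : ℝ) : ℂ) *
    (∑ l, G e l (d.Ψ i x W p) * conj (d.Ψ i x W p l)) - d.Γ i e (p.1, xp x p.2.1)

def ER (G : δ → Fin N → E N → ℂ) (p : ℂ × Uc x × W) : ℝ :=
  (∑ e, DD d i x W G e p * d.ζ e (d.Ψ i x W p)).re

structure Gd (U : Set (E N)) (p : ℂ × Uc x × W) : Prop where
  mem : p.1 ∈ d.D i
  ne : d.Ψ i x W p ≠ 0
  an : AnalyticAt ℂ (d.Ψ i x W) p
  hS : d.Ψ i x W p ∈ d.S ↔ p.2.2 = 0
  hK : d.Ψ i x W p ∈ d.K ↔ p.2.2 = 0 ∧ Jm (p.2.1 : V ι) = 0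
  hU : d.Ψ i x W p ∈ U

theorem R_eq (G : δ → Fin N → E N → ℂ) (p : ℂ × Uc x × W) :
    mu d i x W p * d.R G (d.Ψ i x W p) = (hh d i x W p).re + ER d i x W G p := by
  have e : hh d i x W p + ∑ e, DD d i x W G e p * d.ζ e (d.Ψ i x W p) =
      ((mu d i x W p / ‖d.Ψ i x W p‖ ^ 2 : ℝ) : ℂ) *
        ∑ e, ∑ l, G e l (d.Ψ i x W p) * conj (d.Ψ i x W p l) * d.ζ e (d.Ψ i x W p) := by
    rw [hh, ← Finset.sum_add_distrib, Finset.mul_sum]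
    refine Finset.sum_congr rfl fun e _ => ?_
    rw [DD, ← Finset.sum_mul]
    ring
  rw [ER, ← add_re, e, re_ofReal_mul, Data.R]
  ring

variable {d i x W}

theorem psi0 {p : ℂ × Uc x × W} (h : p.2.2 = 0) : d.Ψ i x W p = d.Φ i p.1 (xp x p.2.1) := by
  simp [Data.Ψ, h]

theorem par_an (hQP : SQP) (hx : x ∈ cone ι) (p : ℂ × Uc x × W) :
    AnalyticAt ℂ (fun q : ℂ × Uc x × W => (q.1, xp x (q.2.1 : V ι))) p := by
  obtain ⟨-, -, -, -, ha, -⟩ := hQP ι x hx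
  refine analyticAt_fst.prod ((ha _).comp (f := fun q : ℂ × Uc x × W => (q.2.1 : V ι)) ?_)
  exact ((Uc x).subtypeL.analyticAt _).comp (analyticAt_fst.comp analyticAt_snd)

theorem kk_cd (hQP : SQP) (hd : d.Good) (hx : x ∈ cone ι) {p : ℂ × Uc x × W} (hp : p.1 ∈ d.D i) :
    ContDiffAt ℝ ∞ (kk d i x W) p ∧ 0 < kk d i x W p := by
  obtain ⟨h1, -, -, -, ha, -, hr, -⟩ := hQP ι x hx
  have hc := (h1 _ p.2.1.2).2.2.2.1
  refine ⟨(hd.hg i _ hp _ hc).1.comp p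
    (f := fun q : ℂ × Uc x × W => (q.1, xp x (rp (q.2.1 : V ι)))) ?_, (hd.hg i _ hp _ hc).2⟩
  refine contDiffAt_fst.prodMk ((an_cda (ha _)).comp p
    (f := fun q : ℂ × Uc x × W => rp (q.2.1 : V ι)) (hr.contDiffAt.comp p
      (f := fun q : ℂ × Uc x × W => (q.2.1 : V ι)) ?_))
  exact an_cda (((Uc x).subtypeL.analyticAt _).comp (analyticAt_fst.comp analyticAt_snd))

theorem nrm_cd {U : Set (E N)} {p : ℂ × Uc x × W} (h : Gd d i x W U p) :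
    ContDiffAt ℝ ∞ (fun q => ‖d.Ψ i x W q‖) p := (an_cda h.an).norm ℂ h.ne

theorem mu_cd (hQP : SQP) (hd : d.Good) (hx : x ∈ cone ι) {U : Set (E N)} {p : ℂ × Uc x × W}
    (h : Gd d i x W U p) : ContDiffAt ℝ ∞ (mu d i x W) p ∧ 0 < mu d i x W p :=
  ⟨(kk_cd hQP hd hx h.mem).1.mul ((nrm_cd h).pow 4),
    mul_pos (kk_cd hQP hd hx h.mem).2 (pow_pos (norm_pos_iff.2 h.ne) 4)⟩

theorem glob_cd {F : Type} [NormedAddCommGroup F] [NormedSpace ℝ F] {A : E N → F}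
    (hA : ContDiffOn ℝ ∞ A (E0 N)) {U : Set (E N)} {p : ℂ × Uc x × W} (h : Gd d i x W U p) :
    ContDiffAt ℝ ∞ (fun q => A (d.Ψ i x W q)) p :=
  (hA.contDiffAt (isOpen_compl_singleton.mem_nhds h.ne)).comp p (an_cda h.an)

theorem aa_cd (hQP : SQP) (hd : d.Good) (hx : x ∈ cone ι) {U : Set (E N)} {A : E N → ℝ}
    (hA : ContDiffOn ℝ ∞ A (E0 N)) (hA0 : ∀ Z, 0 ≤ A Z) {q : ℂ × Uc x}
    (h : Gd d i x W U (q.1, q.2, 0)) : ContDiffAt ℝ ∞ (aa d i x W A) q ∧ 0 ≤ aa d i x W A q := by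
  have hj : ContDiffAt ℝ ∞ (fun q : ℂ × Uc x => ((q.1, q.2, 0) : ℂ × Uc x × W)) q :=
    contDiffAt_fst.prodMk (contDiffAt_snd.prodMk contDiffAt_const)
  have hw := hd.hw i _ h.mem
  constructor
  · refine (((mu_cd hQP hd hx h).1.comp q hj).mul ((glob_cd hA h).comp q hj)).mul
      ((contDiffAt_const.mul (hw.1.comp q contDiffAt_fst)).div (((nrm_cd h).comp q hj).pow 2) ?_)
    exact pow_ne_zero 2 (norm_ne_zero_iff.2 h.ne)
  · exact mul_nonneg (mul_nonneg (mu_cd hQP hd hx h).2.le (hA0 _))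
      (div_nonneg (mul_nonneg zero_le_two hw.2.le) (by positivity))

theorem aa_K (hQP : SQP) (hd : d.Good) (hx : x ∈ cone ι) {U : Set (E N)} {A Y : E N → ℝ}
    {G : δ → Fin N → E N → ℂ} (hg : d.Glob U A Y G) {z : ℂ} (hz : z ∈ d.D i) :
    aa d i x W A (z, 0) = 2 / d.φ i (z, x) := by
  obtain ⟨h1, -, h2, h3, -⟩ := hQP ι x hx
  have e : d.Ψ i x W (z, 0, 0) = d.Φ i z x := by rw [psi0 rfl]; simp [h2]
  have hx0 : x ≠ 0 := by
    have := (h1 0 (Uc x).zero_mem).2.1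
    rwa [h2] at this
  have n0 : ‖d.Φ i z x‖ ≠ 0 := norm_ne_zero_iff.2 fun h => hx0 (hd.inj i z hz (by simpa using h))
  have g0 := (hd.hg i z hz x hx).2.ne'
  have p0 := (hd.hφ i z hz x hx).2.ne'
  have w0 := (hd.hw i z hz).2.ne'
  simp only [aa, mu, kk, e, (hg.onK i z hz x hx).1, Data.Θ, ZeroMemClass.coe_zero, h3, h2]
  field_simp

theorem FF_an {Q : β → (E N →L[ℂ] E N →L[ℂ] ℂ)} {p : ℂ × Uc x × W}
    (h : AnalyticAt ℂ (d.Ψ i x W) p) : AnalyticAt ℂ (FF d i x W Q) p :=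
  AnalyticAt.pi fun b => ((Q b).analyticAt_bilinear _).comp₂ h h

theorem FF_d {Q : β → (E N →L[ℂ] E N →L[ℂ] ℂ)} {p : ℂ × Uc x × W}
    (h : AnalyticAt ℂ (d.Ψ i x W) p) (w : W) (b : β) :
    fderiv ℂ (FF d i x W Q) p (0, 0, w) b = Q b (d.Ψ i x W p) w + Q b w (d.Ψ i x W p) := by
  have l1 : HasDerivAt (fun t : ℂ => p + t • ((0, 0, w) : ℂ × Uc x × W)) (0, 0, w) 0 := by
    simpa using ((hasDerivAt_id (0 : ℂ)).smul_const ((0, 0, w) : ℂ × Uc x × W)).const_add p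
  have l2 : HasFDerivAt (FF d i x W Q) (fderiv ℂ (FF d i x W Q) p)
      (p + (0 : ℂ) • ((0, 0, w) : ℂ × Uc x × W)) := by
    simpa using (FF_an h).differentiableAt.hasFDerivAt
  have l3 := (hasDerivAt_pi.1 (l2.comp_hasDerivAt (0 : ℂ) l1)) b
  have e : ∀ t : ℂ, d.Ψ i x W (p + t • ((0, 0, w) : ℂ × Uc x × W)) = d.Ψ i x W p + t • (w : E N) := by
    intro t
    simp [Data.Ψ, add_assoc]
  have l4 : HasDerivAt (fun t : ℂ => d.Ψ i x W p + t • (w : E N)) (w : E N) 0 := by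
    simpa using ((hasDerivAt_id (0 : ℂ)).smul_const (w : E N)).const_add (d.Ψ i x W p)
  have l5 := ((Q b).hasFDerivAt.comp_hasDerivAt (0 : ℂ) l4).clm_apply l4
  refine l3.unique ?_
  simp only [Function.comp_def, FF, e]
  refine l5.congr_deriv ?_
  simp only [Function.comp_apply, zero_smul, add_zero]
  exact add_comm _ _

theorem hh_an (hQP : SQP) (hd : d.Good) (hx : x ∈ cone ι) {p : ℂ × Uc x × W} (hp : p.1 ∈ d.D i)
    (h : AnalyticAt ℂ (d.Ψ i x W) p) : AnalyticAt ℂ (hh d i x W) p :=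
  Finset.analyticAt_fun_sum _ fun e _ =>
    ((hd.hΓ i e _ hp _).comp (f := fun q : ℂ × Uc x × W => (q.1, xp x (q.2.1 : V ι)))
      (par_an hQP hx p)).mul (((d.ζ e).analyticAt _).comp h)

theorem zeta0 (hd : d.Good) {p : ℂ × Uc x × W} (hp : p.1 ∈ d.D i) (h : p.2.2 = 0) (e : δ) :
    d.ζ e (d.Ψ i x W p) = 0 := by rw [psi0 h]; exact hd.hζ e i _ hp _

theorem hh_d (hQP : SQP) (hd : d.Good) (hx : x ∈ cone ι) {p : ℂ × Uc x × W} (hp : p.1 ∈ d.D i)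
    (h : AnalyticAt ℂ (d.Ψ i x W) p) (h0 : p.2.2 = 0) (v : ℂ × Uc x × W) :
    fderiv ℂ (hh d i x W) p v =
      ∑ e, d.Γ i e (p.1, xp x p.2.1) * d.ζ e (fderiv ℂ (d.Ψ i x W) p v) := by
  have l : ∀ e, HasFDerivAt (fun q : ℂ × Uc x × W => d.Γ i e (q.1, xp x q.2.1) * d.ζ e (d.Ψ i x W q))
      (d.Γ i e (p.1, xp x p.2.1) • (d.ζ e).comp (fderiv ℂ (d.Ψ i x W) p)) p := fun e => by
    have a1 := ((hd.hΓ i e _ hp _).comp (f := fun q : ℂ × Uc x × W => (q.1, xp x (q.2.1 : V ι)))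
      (par_an hQP hx p)).differentiableAt.hasFDerivAt
    have a2 := (d.ζ e).hasFDerivAt.comp p h.differentiableAt.hasFDerivAt
    have a3 := a1.mul a2
    refine a3.congr_fderiv (ContinuousLinearMap.ext fun v => ?_)
    simp [zeta0 hd hp h0 e]
  have := (HasFDerivAt.fun_sum fun e (_ : e ∈ Finset.univ) => l e).fderiv
  rw [show hh d i x W = fun q => ∑ e, d.Γ i e (q.1, xp x q.2.1) * d.ζ e (d.Ψ i x W q) from rfl, this]
  simp

theorem DD_cd (hQP : SQP) (hd : d.Good) (hx : x ∈ cone ι) {U : Set (E N)}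
    {G : δ → Fin N → E N → ℂ} (hG : ∀ e l, ContDiffOn ℝ ∞ (G e l) (E0 N)) {p : ℂ × Uc x × W}
    (h : Gd d i x W U p) (e : δ) : ContDiffAt ℝ ∞ (DD d i x W G e) p := by
  refine ContDiffAt.sub (ContDiffAt.mul ?_ (ContDiffAt.sum fun l _ => (glob_cd (hG e l) h).mul ?_))
    (an_cda ((hd.hΓ i e _ h.mem _).comp (f := fun q : ℂ × Uc x × W => (q.1, xp x (q.2.1 : V ι)))
      (par_an hQP hx p)))
  · exact ofRealCLM.contDiff.contDiffAt.comp p ((mu_cd hQP hd hx h).1.div ((nrm_cd h).pow 2)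
      (pow_ne_zero 2 (norm_ne_zero_iff.2 h.ne)))
  · exact conjCLE.contDiff.contDiffAt.comp p
      (an_cda (((EuclideanSpace.proj l : E N →L[ℂ] ℂ).analyticAt _).comp h.an))

theorem DD_K (hQP : SQP) (hd : d.Good) (hx : x ∈ cone ι) {U : Set (E N)} {A Y : E N → ℝ}
    {G : δ → Fin N → E N → ℂ} (hg : d.Glob U A Y G) {p : ℂ × Uc x × W} (h : Gd d i x W U p)
    (h0 : p.2.2 = 0) (h1 : Jm (p.2.1 : V ι) = 0) (e : δ) : DD d i x W G e p = 0 := by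
  obtain ⟨h2, -⟩ := hQP ι x hx
  obtain ⟨-, -, -, hc, hr, -⟩ := h2 _ p.2.1.2
  rw [hr h1] at hc
  have n0 := h.ne
  have g0 := (hd.hg i _ h.mem _ hc).2.ne'
  rw [DD, mu, kk, hr h1]
  rw [psi0 h0] at n0 ⊢
  set Z := d.Φ i p.1 (xp x p.2.1) with hZ
  have e1 : ∑ l, G e l Z * conj (Z l) =
      d.Γ i e (p.1, xp x p.2.1) / (d.Θ i p.1 (xp x p.2.1) : ℝ) * ((‖Z‖ ^ 2 : ℝ) : ℂ) := by
    rw [EuclideanSpace.norm_sq_eq, ofReal_sum, Finset.mul_sum]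
    refine Finset.sum_congr rfl fun l _ => ?_
    rw [hZ, (hg.onK i _ h.mem _ hc).2 e l, ← hZ, ← Complex.normSq_eq_norm_sq, ← Complex.mul_conj]
    ring
  have n1 : ((‖Z‖ : ℝ) : ℂ) ≠ 0 := ofReal_ne_zero.2 (norm_ne_zero_iff.2 n0)
  have g1 : ((d.g i (p.1, xp x p.2.1) : ℝ) : ℂ) ≠ 0 := ofReal_ne_zero.2 g0
  rw [e1, Data.Θ, ← hZ]
  push_cast
  field_simp
  ring

theorem ER_cd (hQP : SQP) (hd : d.Good) (hx : x ∈ cone ι) {U : Set (E N)}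
    {G : δ → Fin N → E N → ℂ} (hG : ∀ e l, ContDiffOn ℝ ∞ (G e l) (E0 N)) {p : ℂ × Uc x × W}
    (h : Gd d i x W U p) : ContDiffAt ℝ ∞ (ER d i x W G) p :=
  reCLM.contDiff.contDiffAt.comp p (ContDiffAt.sum fun e _ =>
    (DD_cd hQP hd hx hG h e).mul (an_cda (((d.ζ e).analyticAt _).comp h.an)))

theorem ER_K (hQP : SQP) (hd : d.Good) (hx : x ∈ cone ι) {U : Set (E N)} {A Y : E N → ℝ}
    {G : δ → Fin N → E N → ℂ} (hg : d.Glob U A Y G) {p : ℂ × Uc x × W} (h : Gd d i x W U p)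
    (h0 : p.2.2 = 0) (h1 : Jm (p.2.1 : V ι) = 0) :
    ER d i x W G p = 0 ∧ fderiv ℝ (ER d i x W G) p = 0 := by
  refine ⟨by simp [ER, zeta0 hd h.mem h0], ?_⟩
  have l : ∀ e, HasFDerivAt (fun q => DD d i x W G e q * d.ζ e (d.Ψ i x W q))
      (0 : (ℂ × Uc x × W) →L[ℝ] ℂ) p := fun e => by
    have a1 := ((DD_cd hQP hd hx (fun e l => (hg.hG e l).1) h e).differentiableAt
      (by simp)).hasFDerivAt
    have a2 := ((an_cda (((d.ζ e).analyticAt _).comp h.an)).differentiableAt (by simp)).hasFDerivAt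
    have a3 := a1.mul a2
    refine a3.congr_fderiv (ContinuousLinearMap.ext fun v => ?_)
    simp [zeta0 hd h.mem h0 e, DD_K hQP hd hx hg h h0 h1 e]
  have := (reCLM.hasFDerivAt.comp p (HasFDerivAt.fun_sum fun e (_ : e ∈ Finset.univ) => l e)).fderiv
  refine Eq.trans this ?_
  simp

end

end Pool.Agent.MP_fcd29e_an.H11.ST1
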