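import Pool.Agent.MP_fcd29e_an.H81.Spec
import Pool.Agent.MP_fcd29e_an.H31.DefsR

/-!
Statements of the steps of the proof for Sobolev spaces of real order.
-/

set_option autoImplicit false

open MeasureTheory Complex Set Filter Topology Metric Pool.Agent.MP_fcd29e_an.H81
open scoped ContDiff ComplexConjugate ENNReal NNReal FourierTransform SchwartzMap

namespace Pool.Agent.MP_fcd29e_an.H31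

noncomputable section

variable {N : ℕ}

/-- The square of the `L²` norm. -/
def N2 (g : E N → ℂ) : ℝ≥0∞ := ∫⁻ x, ENNReal.ofReal (‖g x‖ ^ 2)

/-- The square of the Sobolev norm of order `-s`. -/
def FN (s : ℝ) (ψ : E N → ℂ) : ℝ≥0∞ :=
  ∫⁻ ξ, ENNReal.ofReal ((1 + ‖ξ‖ ^ 2) ^ (-s) * ‖𝓕 ψ ξ‖ ^ 2)

/-- The Sobolev space of order `s`, by duality. -/
def Hs (s : ℝ) (g : E N → ℂ) : Prop :=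
  MemLp g 2 volume ∧
    ∃ C : ℝ≥0, ∀ ψ, Tst ψ → ENNReal.ofReal (‖∫ x, g x * ψ x‖ ^ 2) ≤ C * FN s ψ

/-- The local Sobolev space on the punctured space. -/
def SobH (s : ℝ) (f : E N → ℂ) : Prop := ∀ χ, Test (E0 N) χ → Hs s fun z => χ z * f z

/-- Convolution. -/
def Cv (k g : E N → ℂ) (x : E N) : ℂ := ∫ y, k (x - y) * g y

/-- Rescaling that keeps the integral. -/
def Sc (t : ℝ) (k : E N → ℂ) (y : E N) : ℂ := k (t⁻¹ • y) / (t ^ (2 * N) : ℝ)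

/-- Dyadic scales. -/
def dy (j : ℕ) : ℝ := (2 ^ j)⁻¹

/-- A truncated cone about `v`. -/
def Gam (v : E N) (δ T : ℝ) : Set (E N) := {y | ∃ τ ∈ Icc (1 / 2 : ℝ) T, ‖y - τ • v‖ ≤ τ * δ}

/-- Zero on the closure of the domain, `ρ^{-s} g` locally square integrable. -/
def WLs (ρ : E N → ℝ) (s : ℝ) (g : E N → ℂ) : Prop :=
  AEStronglyMeasurable g volume ∧ (∀ᵐ z, ρ z ≤ 0 → g z = 0) ∧
    L2 (Op ρ) fun z => g z / ((ρ z ^ s : ℝ) : ℂ)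

/-- The weighted `W¹` norm on the concave side. -/
def WI (ρ : E N → ℝ) (s : ℝ) (ψ : E N → ℂ) : ℝ≥0∞ :=
  ∫⁻ z in Op ρ, ENNReal.ofReal (ρ z ^ (2 * s) * (‖ψ z‖ ^ 2 + ‖fderiv ℝ ψ z‖ ^ 2))

/-- Minus the divergence of `X`, tested against `ψ`. -/
def Dv (X : Fin N → E N → ℂ) (ψ : E N → ℂ) : ℂ := ∑ l, ∫ z, X l z * dzb l ψ z

/-- The divergence of `X` is bounded by the weighted norm. -/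
def HBd (ρ : E N → ℝ) (s : ℝ) (X : Fin N → E N → ℂ) : Prop :=
  ∀ K : Set (E N), IsCompact K → (0 : E N) ∉ K → ∃ C : ℝ≥0, ∀ ψ, Tst ψ → tsupport ψ ⊆ K →
    ENNReal.ofReal (‖Dv X ψ‖ ^ 2) ≤ C * WI ρ s ψ

/-- The field `A_l - ∑_i ∂_i B_{li}` of distributions, tested against `g`. -/
def Lam (A : Fin N → E N → ℂ) (B : Fin N → Fin N → E N → ℂ) (g : Fin N → E N → ℂ) : ℂ :=
  (∑ l, ∫ z, A l z * g l z) + ∑ l, ∑ i, ∫ z, B l i z * dz i (g l) z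

/-- The radial test field. -/
def rad (κ : ℝ → ℝ) (l : Fin N) (z : E N) : ℂ := (κ (‖z‖ ^ 2) : ℂ) * z l

/-- What the algebraic steps use about a Sobolev class. -/
structure Cls (S : (E N → ℂ) → Prop) : Prop where
  l2 : ∀ f, S f → L2 (E0 N) f
  add : ∀ f g, S f → S g → S fun z => f z + g z
  sub : ∀ f g, S f → S g → S fun z => f z - g z
  sum : ∀ (ι : Type) (s : Finset ι) (F : ι → E N → ℂ), (∀ i ∈ s, S (F i)) →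
    S fun z => ∑ i ∈ s, F i z
  mul : ∀ s f, ContDiffOn ℝ ∞ s (E0 N) → S f → S fun z => s z * f z
  smooth : ∀ f, ContDiffOn ℝ ∞ f (E0 N) → S f
  ec : ∀ j f, S f → DI f → S (Ec j f)

/-- `LB` for the class `S`. -/
def LBg (ρ : E N → ℝ) (S : (E N → ℂ) → Prop) (m : ℤ) (q : ℕ) : Prop :=
  ∀ f : Arr N (q + 1), HB (E0 N) m f → (∀ J, S (f J)) → DB (Om ρ) f 0 →
    ∃ u : Arr N q, HB (E0 N) m u ∧ (∀ J, S (u J)) ∧ DB (Om ρ) u f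

/-- `LT` for the class `S`. -/
def LTg (ρ : E N → ℝ) (S : (E N → ℂ) → Prop) (m : ℤ) (q : ℕ) : Prop :=
  ∀ f : Arr N (q + 1), HB (E0 N) m f → (∀ J, S (f J)) →
    ∃ u : Arr N q, HB (E0 N) m u ∧ (∀ J, S (u J)) ∧ DB (Om ρ) u f

/-- `Vanish` for the class `S`. -/
def VanishG (ρ : E N → ℝ) (S : (E N → ℂ) → Prop) (p q : ℕ) : Prop :=
  ∀ f : Form N p (q + 1), Basic (E0 N) f → (∀ I J, S (f I J)) → (∀ I, DB (Om ρ) (f I) 0) →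
    ∃ u : Form N p q, Basic (E0 N) u ∧ (∀ I J, S (u I J)) ∧ ∀ I, DB (Om ρ) (u I) (f I)

/-! ### Fourier analysis -/

/-- The Fourier transform of test functions. -/
def StmtFA : Prop := ∀ (N : ℕ) (ψ : E N → ℂ), Tst ψ →
  N2 (𝓕 ψ) = N2 ψ ∧ N2 ψ < ⊤ ∧ (∀ s, 0 ≤ s → FN s ψ ≤ N2 ψ) ∧
  (∀ j ξ, ‖𝓕 (dz j ψ) ξ‖ ≤ 7 * ‖ξ‖ * ‖𝓕 ψ ξ‖ ∧ ‖𝓕 (dzb j ψ) ξ‖ ≤ 7 * ‖ξ‖ * ‖𝓕 ψ ξ‖) ∧
  (∀ M : ℕ, ∃ C : ℝ, ∀ ξ, ‖𝓕 ψ ξ‖ ≤ C / (1 + ‖ξ‖) ^ M) ∧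
  (∀ j, Tst (dz j ψ) ∧ Tst (dzb j ψ)) ∧ (∀ t > 0, Tst (Sc t ψ)) ∧ Tst (fun y => ψ (-y)) ∧
  (∀ c : ℂ, c ≠ 0 → Tst fun y => ψ (c • y)) ∧
  ∀ χ, Tst χ → Tst (fun y => χ y * ψ y) ∧ Tst fun y => χ y + ψ y

/-- Integrable kernels. -/
def StmtFB : Prop := ∀ (N : ℕ) (k : E N → ℂ), Integrable k →
  Continuous (𝓕 k) ∧ (∀ ξ, ‖𝓕 k ξ‖ ≤ ∫ y, ‖k y‖) ∧ (∀ ξ, 𝓕 (fun y => k (-y)) ξ = 𝓕 k (-ξ)) ∧
  (∀ t > 0, Integrable (Sc t k) ∧ ∫ y, ‖Sc t k y‖ = ∫ y, ‖k y‖ ∧ ∫ y, Sc t k y = ∫ y, k y ∧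
    ∀ ξ, 𝓕 (Sc t k) ξ = 𝓕 k (t • ξ)) ∧
  (∀ g, MemLp g 2 volume → MemLp (Cv k g) 2 volume ∧
    N2 (Cv k g) ≤ ENNReal.ofReal ((∫ y, ‖k y‖) ^ 2) * N2 g ∧
    ∀ ψ, Tst ψ → ∫ x, Cv k g x * ψ x = ∫ y, g y * Cv (fun x => k (-x)) ψ y) ∧
  (HasCompactSupport k → ∀ ψ, Tst ψ → Tst (Cv k ψ) ∧ (∀ ξ, 𝓕 (Cv k ψ) ξ = 𝓕 k ξ * 𝓕 ψ ξ) ∧
    ∀ j, dz j (Cv k ψ) = Cv k (dz j ψ) ∧ dzb j (Cv k ψ) = Cv k (dzb j ψ))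

/-- Dilations. -/
def StmtDIL : Prop := ∀ (N : ℕ) (s a : ℝ), 0 ≤ s → 0 < a → ∃ C : ℝ≥0, ∀ c : ℂ, a ≤ ‖c‖ →
  ∀ ψ : E N → ℂ, Tst ψ → FN s (fun y => ψ (c • y)) ≤ C * FN s ψ

/-- Multiplication by a test function. -/
def StmtMUL : Prop := ∀ (N : ℕ) (s : ℝ), 0 ≤ s → ∀ χ : E N → ℂ, Tst χ → ∃ C : ℝ≥0,
  ∀ ψ, Tst ψ → FN s (fun y => χ y * ψ y) ≤ C * FN s ψ

/-- From Bessel potentials to duality. -/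
def StmtEQ1 : Prop := ∀ (N : ℕ) (s : ℝ) (g : E N → ℂ) (h : MemLp g 2 volume),
  TemperedDistribution.MemSobolev s 2 ((h.toLp g : Lp ℂ 2 volume) : 𝓢'(E N, ℂ)) → Hs s g

/-- From duality to Bessel potentials. -/
def StmtEQ2 : Prop := ∀ (N : ℕ) (s : ℝ), 0 ≤ s → ∀ (g : E N → ℂ) (h : MemLp g 2 volume),
  Hs s g → TemperedDistribution.MemSobolev s 2 ((h.toLp g : Lp ℂ 2 volume) : 𝓢'(E N, ℂ))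

/-- Geometric sums. -/
def StmtGEO : Prop := ∀ a : ℝ, 0 < a → ∃ C : ℝ≥0, ∀ x : ℝ, 0 < x →
  (∑' j, if dy j ≤ x then ENNReal.ofReal (dy j ^ a) else 0) ≤ C * ENNReal.ofReal (x ^ a) ∧
  (∑' j, if x ≤ dy j then ENNReal.ofReal (dy j ^ (-a)) else 0) ≤ C * ENNReal.ofReal (x ^ (-a))

/-- The square function of a test function. -/
def StmtDY1 : Prop := ∀ (N : ℕ) (s : ℝ), 0 < s → ∀ k : E N → ℂ, Tst k → ∃ C : ℝ≥0,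
  ∀ ψ, Tst ψ → ∑' j, ENNReal.ofReal (dy j ^ (2 * s)) * N2 (Cv (Sc (dy j) k) ψ) ≤ C * FN s ψ

/-- Dyadic sums in the space of negative order. -/
def StmtDY2 : Prop := ∀ (N : ℕ) (s : ℝ) (M : ℕ), 0 < s → s < M → ∀ (k : E N → ℂ) (C₀ : ℝ),
  Tst k → (∀ η, ‖𝓕 k η‖ ≤ C₀ * ‖η‖ ^ M) → ∃ C : ℝ≥0, ∀ (J : ℕ) (h : ℕ → E N → ℂ),
    (∀ j, Tst (h j)) → FN s (fun x => ∑ j ∈ Finset.range J, Cv (Sc (dy j) k) (h j) x) ≤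
      C * ∑ j ∈ Finset.range J, ENNReal.ofReal (dy j ^ (2 * s)) * N2 (h j)

/-- Dyadic sums in the space of positive order. -/
def StmtSUM : Prop := ∀ (N : ℕ) (s : ℝ), 0 < s → ∀ (k : E N → ℂ) (h : ℕ → E N → ℂ), Tst k →
  (∀ j, MemLp (h j) 2 volume) → ∑' j, ENNReal.ofReal (dy j ^ (-(2 * s))) * N2 (h j) < ⊤ →
    Hs s fun x => ∑' j, Cv (Sc (dy j) k) (h j) x

/-- The local Sobolev space. -/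
def StmtSBs : Prop := ∀ (N : ℕ) (s : ℝ), 0 ≤ s →
  (∀ f : E N → ℂ, SobH s f → L2 (E0 N) f ∧
    (∀ g, SobH s g → SobH s (fun z => f z + g z) ∧ SobH s fun z => f z - g z) ∧
    ∀ a, ContDiffOn ℝ ∞ a (E0 N) → SobH s fun z => a z * f z) ∧
  (∀ (ι : Type) (t : Finset ι) (F : ι → E N → ℂ), (∀ i ∈ t, SobH s (F i)) →
    SobH s fun z => ∑ i ∈ t, F i z) ∧
  (∀ f : E N → ℂ, ContDiffOn ℝ ∞ f (E0 N) → SobH s f) ∧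
  (∀ f : E N → ℂ, Tst f → Hs s f) ∧
  (∀ f : E N → ℂ, Hs s f → SobH s f ∧ (∀ g, (∀ᵐ z, f z = g z) → Hs s g) ∧
    ∀ g, Hs s g → Hs s fun z => f z + g z) ∧
  ∀ ρ : E N → ℝ, Dom ρ → ∀ g, WLs ρ s g → L2 (E0 N) g

/-- The basic facts. -/
structure Lv2 : Prop extends Lv0 where
  fa : StmtFA
  fb : StmtFB
  geo : StmtGEO
  dil : StmtDIL
  mul : StmtMUL
  sbs : StmtSBs

/-- Homogenisation preserves the Sobolev space. -/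
def StmtHOP : Prop := ∀ (N : ℕ), 1 ≤ N → ∀ s : ℝ, 0 ≤ s → ∀ κ, Kap κ →
  ∀ (a b : ℤ) (g : E N → ℂ), SobH s g → SobH s (Hop κ a b g)

/-- The kernel preserves the Sobolev space. -/
def StmtECs : Prop := ∀ (N : ℕ) (s : ℝ), 0 ≤ s → ∀ (j : Fin N) (f : E N → ℂ), SobH s f → DI f →
  SobH s (Ec j f)

/-! ### Hardy's inequality in dual form -/

/-- A mollifier with support in a cone and vanishing moments. -/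
def StmtKER : Prop := ∀ (N : ℕ) (v : E N) (δ : ℝ), 0 < δ → ∀ M : ℕ,
  ∃ (Φ : E N → ℂ) (k k' : Fin N → E N → ℂ), Tst Φ ∧ ∫ y, Φ y = 1 ∧
    (∀ y ∉ Gam v δ (M + 1), Φ y = 0) ∧
    (∀ j, Tst (k j) ∧ Tst (k' j) ∧ (∀ y ∉ Gam v δ (M + 1), k j y = 0 ∧ k' j y = 0) ∧
      ∃ C : ℝ, ∀ η, ‖𝓕 (k j) η‖ ≤ C * ‖η‖ ^ M ∧ ‖𝓕 (k' j) η‖ ≤ C * ‖η‖ ^ M) ∧
    ∀ y, Sc (1 / 2) Φ y - Φ y = ∑ j, (dz j (k j) y + dzb j (k' j) y)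

/-- Approximate identity, telescoping sum, derivatives on the kernel. -/
def StmtHT : Prop := ∀ (N : ℕ) (Φ : E N → ℂ), Tst Φ →
  (∫ y, Φ y = 1 → ∀ g f : E N → ℂ, MemLp g 2 volume → Tst f →
    Tendsto (fun J => ∫ x, g x * Cv (Sc (dy J) Φ) f x) atTop (𝓝 (∫ x, g x * f x))) ∧
  (∀ k k' : Fin N → E N → ℂ, (∀ j, Tst (k j) ∧ Tst (k' j)) →
    (∀ y, Sc (1 / 2) Φ y - Φ y = ∑ j, (dz j (k j) y + dzb j (k' j) y)) →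
    ∀ w, Tst w → ∀ (J : ℕ) (x : E N), Cv (Sc (dy J) Φ) w x = Cv Φ w x +
      ∑ i ∈ Finset.range J, (dy i : ℂ) * ∑ j,
        (Cv (Sc (dy i) (k j)) (dz j w) x + Cv (Sc (dy i) (k' j)) (dzb j w) x)) ∧
  ∀ t : ℝ, 0 < t → ∀ h, Tst h → ∀ l x, (t : ℂ) * dzb l (Cv (Sc t Φ) h) x = Cv (Sc t (dzb l Φ)) h x

/-- Near a boundary point. -/
def StmtHL : Prop := ∀ (N : ℕ) (ρ : E N → ℝ), Dom ρ → ∀ s : ℝ, 0 < s →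
  ∀ X : Fin N → E N → ℂ, (∀ l, SobH s (X l)) → (∀ ψ, Test (Om ρ) ψ → Dv X ψ = 0) →
  ∀ p, p ≠ 0 → ρ p = 0 → ∃ r > 0, ∃ C : ℝ≥0, ∀ w, Tst w → tsupport w ⊆ ball p r →
    ENNReal.ofReal (‖Dv X w‖ ^ 2) ≤ C * WI ρ s w

/-- On compact sets. -/
def StmtHG : Prop := ∀ (N : ℕ) (ρ : E N → ℝ), Dom ρ → ∀ s : ℝ, 0 < s →
  ∀ X : Fin N → E N → ℂ, (∀ l, SobH s (X l)) → (∀ ψ, Test (Om ρ) ψ → Dv X ψ = 0) → HBd ρ s X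

/-! ### The concave side -/

/-- The estimate with a real exponent. -/
def StmtESTs : Prop := ∀ (N : ℕ) (ρ φ : E N → ℝ), Dom ρ → PHI ρ φ → ∀ κ, Kap κ →
  ∃ r₀ > 0, ∀ s : ℝ, 0 ≤ s → ∀ a j : ℕ, ∃ C : ℝ≥0, ∀ w, Temp ρ a w → Hom (Op ρ) (-j) 0 w →
    ∫⁻ z in Op ρ, ENNReal.ofReal (κ (‖z‖ ^ 2) * ρ z ^ (2 * s) * ‖w z‖ ^ 2) ≤
      C * ((∑ l, ∫⁻ z in Op ρ, ENNReal.ofReal (κ (‖z‖ ^ 2) * ρ z ^ (2 * s) * ‖dzb l w z‖ ^ 2)) +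
        ∫⁻ z in {z | r₀ ≤ ρ z}, ENNReal.ofReal (κ (‖z‖ ^ 2) * ‖w z‖ ^ 2))

/-- The Poincaré inequality with a real exponent. -/
def StmtPOIs : Prop := ∀ (N : ℕ), 3 ≤ N → ∀ ρ φ : E N → ℝ, Dom ρ → PHI ρ φ → ∀ κ, Kap κ →
  ∀ (j : ℕ) (s : ℝ), 0 ≤ s → ∃ C : ℝ, 0 ≤ C ∧ ∀ w : E N → ℂ, ContDiffOn ℝ ∞ w (E0 N) →
    Hom (E0 N) (-j) 0 w → ∃ c : ℂ, (j ≠ 0 → c = 0) ∧
      ∫ z in Op ρ, κ (‖z‖ ^ 2) * ρ z ^ (2 * s) * ‖w z - c‖ ^ 2 ≤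
        C * ∑ l, ∫ z in Op ρ, κ (‖z‖ ^ 2) * ρ z ^ (2 * s) * ‖dzb l w z‖ ^ 2

/-- The bound on homogeneous functions. -/
def StmtDV0 : Prop := ∀ (N : ℕ), 3 ≤ N → ∀ ρ φ : E N → ℝ, Dom ρ → PHI ρ φ → ∀ κ, Kap κ →
  ∀ s : ℝ, 0 < s → ∀ (j : ℕ) (X : Fin N → E N → ℂ), (∀ l, L2 (E0 N) (X l)) →
    (∀ z, z ≠ 0 → ∑ l, z l * X l z = 0) → HBd ρ s X →
    ∃ C : ℝ, 0 ≤ C ∧ ∀ w : E N → ℂ, ContDiffOn ℝ ∞ w (E0 N) → Hom (E0 N) (-j) 0 w →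
      ‖∑ l, ∫ z, (κ (‖z‖ ^ 2) : ℂ) * X l z * dzb l w z‖ ^ 2 ≤
        C * (∑ l, (∫ z in Op ρ, κ (‖z‖ ^ 2) * ρ z ^ (2 * s) * ‖dzb l w z‖ ^ 2) +
          ∑ l, ∑ i, ∫ z in Op ρ, κ (‖z‖ ^ 2) * ρ z ^ (2 * s) * ‖dz i (dzb l w) z‖ ^ 2)

/-- The divergence equation with support on the concave side. -/
def StmtDV1 : Prop := ∀ (N : ℕ), 3 ≤ N → ∀ ρ φ : E N → ℝ, Dom ρ → PHI ρ φ →
  ∀ s : ℝ, 0 < s → ∀ (m : ℤ) (X : Fin N → E N → ℂ), -(N : ℤ) ≤ m →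
    (∀ l, L2 (E0 N) (X l) ∧ Hom (E0 N) m (1 - N) (X l)) →
    (∀ z, z ≠ 0 → ∑ l, z l * X l z = 0) → HBd ρ s X →
    ∃ (A : Fin N → E N → ℂ) (B : Fin N → Fin N → E N → ℂ),
      (∀ l, WLs ρ s (A l) ∧ Hom (E0 N) m (1 - N) (A l)) ∧
      (∀ l i, WLs ρ s (B l i) ∧ Hom (E0 N) (m + 1) (1 - N) (B l i)) ∧
      ∀ ψ, Test (E0 N) ψ → Dv X ψ = Lam A B fun l => dzb l ψ

/-- Removing the residue. -/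
def StmtDV2 : Prop := ∀ (N : ℕ), 1 ≤ N → ∀ ρ : E N → ℝ, Dom ρ → ∀ κ, Kap κ →
  ∀ s : ℝ, 0 ≤ s → ∀ (m : ℤ) (A : Fin N → E N → ℂ) (B : Fin N → Fin N → E N → ℂ),
    (∀ l, WLs ρ s (A l) ∧ Hom (E0 N) m (1 - N) (A l)) →
    (∀ l i, WLs ρ s (B l i) ∧ Hom (E0 N) (m + 1) (1 - N) (B l i)) →
    ∃ A' : Fin N → E N → ℂ, (∀ l, WLs ρ s (A' l) ∧ Hom (E0 N) m (1 - N) (A' l)) ∧
      (∀ ψ, Test (E0 N) ψ → (Lam A' B fun l => dzb l ψ) = Lam A B fun l => dzb l ψ) ∧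
      Lam A' B (rad κ) = 0

/-- Closedness across the origin and at infinity. -/
def StmtORIs : Prop := ∀ (N : ℕ), 1 ≤ N → ∀ (a b : ℤ) (Y : Fin N → E N → ℂ)
  (B : Fin N → Fin N → E N → ℂ) (κ : ℝ → ℝ), Kap κ →
  (∀ l, L2 (E0 N) (Y l) ∧ Hom (E0 N) a b (Y l)) →
  (∀ l i, L2 (E0 N) (B l i) ∧ Hom (E0 N) (a + 1) b (B l i)) →
  -(2 * N : ℤ) < a + b → a + b + 1 < -1 →
  (∀ ψ, Test (E0 N) ψ → (Lam Y B fun l => dzb l ψ) = 0) → Lam Y B (rad κ) = 0 →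
  ∀ (Ψ : E N → ℂ) (C : ℝ), ContDiff ℝ ∞ Ψ →
    (∀ y, ‖Ψ y‖ ≤ C / (1 + ‖y‖) ^ (2 * N - 1) ∧ ‖fderiv ℝ Ψ y‖ ≤ C / (1 + ‖y‖) ^ (2 * N - 1) ∧
      ∀ l, ‖fderiv ℝ (dzb l Ψ) y‖ ≤ C / (1 + ‖y‖) ^ (2 * N - 1)) →
    (Lam Y B fun l => dzb l Ψ) = 0

/-! ### Extension across the boundary -/

/-- On the shell. -/
def StmtTKa : Prop := ∀ (N : ℕ), 1 ≤ N → ∀ ρ : E N → ℝ, Dom ρ → ∀ s : ℝ, 0 < s →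
  ∀ (K G : E N → ℂ) (a' b' : ℤ), ContDiffOn ℝ ∞ K (E0 N) → Hom (E0 N) a' b' K →
    -(2 * N : ℤ) ≤ a' + b' → a' + b' ≤ 1 - 2 * N → WLs ρ s G → DI G →
    ∃ U, SobH s U ∧ ∀ x ∈ Om ρ ∩ Sh N, U x = Cv K G x

/-- On the cone. -/
def StmtTKb : Prop := ∀ (N : ℕ), 1 ≤ N → ∀ ρ : E N → ℝ, Dom ρ → ∀ s : ℝ, 0 < s →
  ∀ (K G : E N → ℂ) (a' b' a b : ℤ), ContDiffOn ℝ ∞ K (E0 N) → Hom (E0 N) a' b' K →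
    -(2 * N : ℤ) ≤ a' + b' → a' + b' ≤ 1 - 2 * N → WLs ρ s G → DI G → Hom (E0 N) a b G →
    ∃ U, SobH s U ∧ Hom (E0 N) (a + a' + N) (b + b' + N) U ∧ ∀ᵐ x, x ∈ Om ρ → U x = Cv K G x

/-- In weak form. -/
def StmtTKw : Prop := ∀ (N : ℕ) (ρ : E N → ℝ), Dom ρ → ∀ s : ℝ, 0 < s →
  ∀ (G : E N → ℂ) (a b : ℤ), WLs ρ s G → DI G → Hom (E0 N) a b G → ∀ j : Fin N,
    (∃ U, SobH s U ∧ Hom (E0 N) a (b + 1) U ∧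
      ∀ ψ, Test (Om ρ) ψ → ∫ x, U x * ψ x = ∫ y, G y * Ec j ψ y) ∧
    ∀ i, ∃ U, SobH s U ∧ Hom (E0 N) (a - 1) (b + 1) U ∧
      ∀ ψ, Test (Om ρ) ψ → ∫ x, U x * ψ x = ∫ y, G y * Ec j (dz i ψ) y

/-! ### Solving -/

/-- Line bundles, degree `n - 1`. -/
def StmtLBs : Prop := ∀ (q : ℕ) (ρ φ : E (q + 3) → ℝ), Dom ρ → PHI ρ φ → ∀ s : ℝ, 0 < s →
  ∀ m : ℤ, -((q + 3 : ℕ) : ℤ) ≤ m → m ≤ -1 → LBg ρ (SobH s) m q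

/-- Line bundles, degree `n`. -/
def StmtLTg : Prop := ∀ (q : ℕ) (ρ : E (q + 3) → ℝ), Dom ρ → ∀ S, Cls S → ∀ m : ℤ,
  -((q + 3 : ℕ) : ℤ) ≤ m → m ≤ -1 → LTg ρ S m (q + 1)

/-- Forms of top degree. -/
def StmtFTg : Prop := ∀ (q : ℕ) (ρ : E (q + 3) → ℝ), Dom ρ → ∀ S, Cls S → ∀ p : ℕ,
  ∀ f : Form (q + 3) p (q + 1 + 1), Basic (E0 _) f → (∀ I J, S (f I J)) →
    ∃ u : Form (q + 3) p (q + 1), Basic (E0 _) u ∧ (∀ I J, S (u I J)) ∧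
      ∀ I, DB (Om ρ) (u I) (f I)

/-- From line bundles to forms. -/
def StmtRg : Prop := ∀ (q : ℕ) (ρ : E (q + 3) → ℝ), Dom ρ → ∀ S, Cls S →
  (∀ m : ℤ, -((q + 3 : ℕ) : ℤ) ≤ m → m ≤ -1 → LBg ρ S m q) → ∀ p : ℕ,
    VanishG ρ S p q ∧ VanishG ρ S p (q + 1)

end

end Pool.Agent.MP_fcd29e_an.H31
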